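import Pool.Agent.Q171.RC.Torus
import Pool.Agent.Q139.EB.Main

/-!
Curves given by iterated linear differential equations over a base: they are algebraic over the base
or ALL their points lie on rational curves of bounded degree.
-/

set_option autoImplicit false

namespace Pool.Agent.Q171.RC

open Filter Set MvPolynomial Pool.Agent.Q1.SL Pool.Agent.TH143 Pool.Agent.TH143.EL Pool.Agent.Y377.EL
  Pool.Agent.Y377.IL Pool.Agent.Y377.ST Pool.Agent.Q139.EB
open scoped LinearAlgebra.Projectivization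

/-- **Uniform degrees over a base, for forms of arbitrary degree.** -/
theorem base_strong_diff (n D q e0 s r e : ℕ) : ∃ d : ℕ,
    ∀ (S : Set (MvPolynomial (Fin (n + 1)) ℂ)) (G : MvPolynomial (Fin (n + 1)) ℂ),
      (∀ F ∈ S, ∃ e, e ≤ D ∧ F.IsHomogeneous e) → (∃ e, G.IsHomogeneous e) → RatInG S d G →
      ∀ (K : Type) [Field K] [Algebra ℂ K] (D : Derivation ℂ K K), Cst D →
        ∀ b : Fin q → K, AutoF D e0 b → ∀ x : Fin (n + 1) → K, BVecF D s r e b x →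
        (∀ F ∈ S, aeval x F = 0) → (∀ u v, AlgDeg d b (x u) (x v)) ∨ aeval x G = 0 := by
  classical
  by_contra hcon
  have hC : ∀ d : ℕ, ∃ (S : Set (MvPolynomial (Fin (n + 1)) ℂ))
      (G : MvPolynomial (Fin (n + 1)) ℂ) (K : Type) (_ : Field K) (_ : Algebra ℂ K)
      (D1 : Derivation ℂ K K) (b : Fin q → K) (x : Fin (n + 1) → K),
      (∀ F ∈ S, ∃ e, e ≤ D ∧ F.IsHomogeneous e) ∧ (∃ e, G.IsHomogeneous e) ∧
      RatInG S d G ∧ Cst D1 ∧ AutoF D1 e0 b ∧ BVecF D1 s r e b x ∧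
        (∀ F ∈ S, aeval x F = 0) ∧
        (∃ u v, ¬ AlgDeg d b (x u) (x v)) ∧ aeval x G ≠ 0 := by
    intro d
    by_contra h1
    refine hcon ⟨d, ?_⟩
    intro S G h2 h3 h4 K _ _ D1 h5 b h6 x h7 h8
    by_contra h9
    rw [not_or] at h9
    obtain ⟨h9, h10⟩ := h9
    push Not at h9
    exact h1 ⟨S, G, K, _, _, D1, b, x, h2, h3, h4, h5, h6, h7, h8, h9, h10⟩
  choose S G K iK jK D1 b x hS hG hrat hCD hb hx hF huv hGne using hC
  obtain ⟨K', iK', jK', D', π, θ, hC', hD', hal, hker, hk, hs⟩ := exists_ultra2 D1 hCD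
  let b' : Fin q → K' := fun j => π fun i => b i j
  let x' : Fin (n + 1) → K' := fun j => π fun i => x i j
  have hb' : AutoF D' e0 b' := AutoF.ultra hD' hal hb
  have hx' : BVecF D' s r e b' x' := BVecF.ultra hD' hal hx
  choose u v huv using huv
  obtain ⟨⟨u0, v0⟩, hp⟩ : ∃ p : Fin (n + 1) × Fin (n + 1),
      ∀ᶠ i in (hyperfilter ℕ : Filter ℕ), (u i, v i) = p := by
    by_contra hno
    push Not at hno
    have h3 : ∀ᶠ i in (hyperfilter ℕ : Filter ℕ), ∀ p : Fin (n + 1) × Fin (n + 1),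
        (u i, v i) ≠ p := eventually_all.2 fun p => hno p
    obtain ⟨i, hi⟩ := h3.exists
    exact hi _ rfl
  have hge : ∀ d0 : ℕ, ∀ᶠ i in (hyperfilter ℕ : Filter ℕ), d0 ≤ i := by
    intro d0
    have h1 : ∀ᶠ i : ℕ in cofinite, d0 ≤ i := by
      rw [Nat.cofinite_eq_atTop]
      exact eventually_ge_atTop d0
    exact h1.filter_mono hyperfilter_le_cofinite
  have hnot : ∀ d0, ¬ AlgDeg d0 b' (x' u0) (x' v0) := by
    intro d0 h0
    have h1 := AlgDeg.los hs hal hker (b := b) (u := fun i => x i u0) (v := fun i => x i v0) h0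
    obtain ⟨i, ⟨h2, h3⟩, h4⟩ := ((h1.and hp).and (hge d0)).exists
    apply huv i
    have h5 : u i = u0 := congrArg Prod.fst h3
    have h6 : v i = v0 := congrArg Prod.snd h3
    rw [h5, h6]
    exact h2.mono h4
  have hv0 : x' v0 ≠ 0 := by
    intro h0
    apply hnot 1
    rw [h0]
    exact algDeg_zero
  have hna : ¬ IsAlgebraic (fldB b') (x' u0 / x' v0) := by
    intro h0
    obtain ⟨d0, hd0⟩ := exists_algDeg hv0 h0
    exact hnot d0 hd0
  obtain ⟨M, j1, j2, p, hq1, hq2⟩ := rat_pointB hC' hb' hx' hv0 hna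
  have hev : ∀ (T : Finset (Fin (n + 1) →₀ ℕ)) (F : ℕ → MvPolynomial (Fin (n + 1)) ℂ),
      (∀ᶠ i in (hyperfilter ℕ : Filter ℕ), (F i).support ⊆ T) →
        aeval x' (limT θ T F) = π fun i => aeval (x i) (F i) := fun T F hF =>
    aeval_limT hal hker hF x
  obtain ⟨d0, hd0⟩ := key_proj hs hk hS p (fun F hF' => by
    obtain ⟨e', he', hhe⟩ := exists_deg (D := D) (by
      filter_upwards [hF'] with i hi
      exact hS i _ hi)
    rw [hq1 _ e' (limT_homog hk hhe), hev _ F (by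
      filter_upwards [hhe] with i hi
      exact support_hom hi he'), hker]
    filter_upwards [hF'] with i hi
    exact hF i _ hi) hq2
  obtain ⟨e0, he0⟩ := bde_field (n + 1) D d0
  have hmono : ∀ i, d0 ≤ i → RatInG (S i) d0 (G i) := fun i hi p h1 h2 h3 =>
    hrat i p h1 (fun j => (h2 j).trans hi) h3
  have hG' : ∀ i, ∃ G' : MvPolynomial (Fin (n + 1)) ℂ, d0 ≤ i →
      (∃ e, e ≤ e0 ∧ G'.IsHomogeneous e) ∧ RatInG (S i) d0 G' ∧ aeval (x i) G' ≠ 0 := by
    intro i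
    by_cases hi : d0 ≤ i
    · obtain ⟨G', h1⟩ := he0 (S i) (hS i) (G i) (hG i) (hmono i hi) (K i) (x i) (hGne i)
      exact ⟨G', fun _ => h1⟩
    · exact ⟨0, fun h => absurd h hi⟩
  choose G' hG' using hG'
  obtain ⟨e', he', hhe⟩ := exists_deg (F := G') (D := e0) (by
    filter_upwards [hge d0] with i hi
    exact (hG' i hi).1)
  have h1 := hd0 G' e' hhe (fun h0 => by
    rw [hq1 _ e' (limT_homog hk hhe), hev _ G' (by
      filter_upwards [hhe] with i hi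
      exact support_hom hi le_rfl), hker] at h0
    obtain ⟨i, hi, hi'⟩ := (h0.and (hge d0)).exists
    exact (hG' i hi').2.2 hi)
  obtain ⟨i, ⟨p, hp1, hp2, hp3, hp4⟩, hi⟩ := (h1.and (hge d0)).exists
  exact hp4 ((hG' i hi).2.1 p hp3 hp1 hp2)

/-- **Uniform degrees over a base, for forms of arbitrary degree.** -/
theorem base_strong (n D q e0 s r e : ℕ) : ∃ d : ℕ,
    ∀ (S : Set (MvPolynomial (Fin (n + 1)) ℂ)) (G : MvPolynomial (Fin (n + 1)) ℂ),
      (∀ F ∈ S, ∃ e, e ≤ D ∧ F.IsHomogeneous e) → (∃ e, G.IsHomogeneous e) →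
      RatInG S d G → ∀ Ω : Set ℂ, IsOpen Ω → IsPreconnected Ω → ∀ b : ℂ → Fin q → ℂ,
        Auto Ω e0 b → ∀ f : ℂ → Fin (n + 1) → ℂ, BVec Ω s r e b f →
        (∀ z ∈ Ω, ∀ F ∈ S, eval (f z) F = 0) →
        (∀ z ∈ Ω, eval (f z) G = 0) ∨ ∀ u v, AlgOn Ω d b (fun z => f z u) fun z => f z v := by
  obtain ⟨d, hd⟩ := base_strong_diff n D q e0 s r e
  refine ⟨d, ?_⟩
  intro S G hS hG hrat Ω hΩ hΩc b hb f hf hF
  rcases Ω.eq_empty_or_nonempty with h0 | h0
  · left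
    intro z hz
    rw [h0] at hz
    exact absurd hz (notMem_empty z)
  obtain ⟨K, _, _, D, A, i, hA⟩ := exists_amb hΩ hΩc h0
  have hba : ∀ j, AnalyticOnNhd ℂ (fun z => b z j) Ω := fun j => (hb j).1
  rcases hd S G hS hG hrat K D hA.con _ (hb.toF hA) _ (hf.toF hΩ hA hba) (fun F hFF =>
    (vanish_iff hA.inj (f := f) (fun j => hf.an hΩ hba j) F).2 fun z hz => hF z hz F hFF) with
    h1 | h1
  · right
    intro u v
    exact (h1 u v).toOn hA hba (hf.an hΩ hba u) (hf.an hΩ hba v)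
  · left
    exact (vanish_iff hA.inj (f := f) (fun j => hf.an hΩ hba j) G).1 h1

/-- **Curves over a base.** The coordinate ratios are algebraic of bounded degree over the base, or
all points lie on rational curves of bounded degree. -/
theorem base_locus (n D q e0 s r e : ℕ) : ∃ δ : ℕ, ∀ S : Set (MvPolynomial (Fin (n + 1)) ℂ),
    (∀ F ∈ S, ∃ e, e ≤ D ∧ F.IsHomogeneous e) →
      ∀ Ω : Set ℂ, IsOpen Ω → IsPreconnected Ω → ∀ b : ℂ → Fin q → ℂ, Auto Ω e0 b →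
        ∀ f : ℂ → Fin (n + 1) → ℂ, BVec Ω s r e b f → (∀ z ∈ Ω, ∀ F ∈ S, eval (f z) F = 0) →
        (∀ z ∈ Ω, f z ≠ 0 → OnRat S δ (f z)) ∨
          ∀ u v, AlgOn Ω δ b (fun z => f z u) fun z => f z v := by
  obtain ⟨δ, hδ⟩ := base_strong n D q e0 s r e
  refine ⟨δ, fun S hS Ω hΩ hΩc b hb f hf hfS => ?_⟩
  by_contra hno
  rw [not_or] at hno
  obtain ⟨h1, h2⟩ := hno
  push Not at h1
  obtain ⟨z, hz, hfz, hz'⟩ := h1
  obtain ⟨e0, he0⟩ := bde (n + 1) D δ
  obtain ⟨G, ⟨e1, -, he1⟩, h4, h5⟩ := he0 S hS (f z) hfz hz'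
  rcases hδ S G hS ⟨e1, he1⟩ h4 Ω hΩ hΩc b hb f hf hfS with h6 | h6
  · exact h5 (h6 z hz)
  · exact h2 h6

/-- **Entire curves over the elliptic functions.** They factor through a torus, or all their points
lie on rational curves of bounded degree. -/
theorem ell_locus (n D q e0 s r e : ℕ) : ∃ N : ℕ, 0 < N ∧
    ∀ (L : PeriodPair) (S : Set (MvPolynomial (Fin (n + 1)) ℂ)),
      (∀ F ∈ S, ∃ e, e ≤ D ∧ F.IsHomogeneous e) →
      ∀ f : ℂ → ℙ ℂ (Fin (n + 1) → ℂ), HolMap f → OnV S f → EllCurve L q e0 s r e f →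
        (∀ z, OnRat S N (f z).rep) ∨ ((perGp L f).index ≠ 0 ∧ (perGp L f).index ≤ N) := by
  obtain ⟨d, hd⟩ := base_strong n D q e0 s r e
  refine ⟨max 1 (max d (d ^ (n + 1))), lt_of_lt_of_le one_pos (le_max_left _ _), ?_⟩
  intro L S hS f hf hfS hE
  by_contra hno
  rw [not_or] at hno
  obtain ⟨h1, h2⟩ := hno
  push Not at h1
  obtain ⟨z, hz⟩ := h1
  have hz' : ¬ OnRat S d (f z).rep := by
    rintro ⟨p, h3, h4, h5⟩
    exact hz ⟨p, h3, fun j => (h4 j).trans ((le_max_left _ _).trans (le_max_right _ _)), h5⟩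
  obtain ⟨e0, he0⟩ := bde (n + 1) D d
  obtain ⟨G, ⟨e1, -, he1⟩, h4, h5⟩ := he0 S hS (f z).rep (f z).rep_nonzero hz'
  have hS' : ∀ F ∈ S, ∃ e, F.IsHomogeneous e := fun F hF => by
    obtain ⟨e, -, he⟩ := hS F hF
    exact ⟨e, he⟩
  rcases ell_cases hS' ⟨e1, he1⟩ (hd S G hS ⟨e1, he1⟩ h4) L hf hfS hE with h6 | ⟨h6, h7⟩
  · exact h5 (h6 z)
  · exact h2 ⟨h6, h7.trans ((le_max_right _ _).trans (le_max_right _ _))⟩

/-- **Tori through all points.** Through every point of the entire curves over the elliptic functions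
of `L` there is a nonconstant holomorphic map from a torus given by a subgroup of `L` of bounded
index. -/
theorem ell_through (n D q e0 s r e : ℕ) : ∃ N : ℕ, 0 < N ∧
    ∀ (L : PeriodPair) (S : Set (MvPolynomial (Fin (n + 1)) ℂ)),
      (∀ F ∈ S, ∃ e, e ≤ D ∧ F.IsHomogeneous e) →
      ∀ f : ℂ → ℙ ℂ (Fin (n + 1) → ℂ), HolMap f → OnV S f → EllCurve L q e0 s r e f →
        (∃ z w, f z ≠ f w) → ∀ z, ∃ (Λ : AddSubgroup L.lattice)
          (g : ℂ → ℙ ℂ (Fin (n + 1) → ℂ)), Λ.index ≠ 0 ∧ Λ.index ≤ N ∧ HolMap g ∧ OnV S g ∧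
            (∀ l ∈ Λ, ∀ w, g (w + (l : ℂ)) = g w) ∧ (∃ u w, g u ≠ g w) ∧ g 0 = f z := by
  obtain ⟨N, hN, hd⟩ := ell_locus n D q e0 s r e
  refine ⟨N, hN, ?_⟩
  intro L S hS f hf hfS hE hnc z
  have hS' : ∀ F ∈ S, ∃ e, F.IsHomogeneous e := fun F hF => by
    obtain ⟨e, -, he⟩ := hS F hF
    exact ⟨e, he⟩
  rcases hd L S hS f hf hfS hE with h1 | ⟨h1, h2⟩
  · obtain ⟨g, h3, h4, h5, h6, h7, -⟩ := torus_through L hS' (f z).rep_nonzero (h1 z)
    refine ⟨⊤, g, ?_, ?_, ?_, ?_, ?_, h6, ?_⟩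
    · rw [AddSubgroup.index_top]
      exact one_ne_zero
    · rw [AddSubgroup.index_top]
      exact hN
    · intro w
      obtain ⟨φ, h8, h9⟩ := h3 w
      rw [analyticAt_pi_iff] at h8
      refine ⟨fun j z => φ z j, h8, ?_⟩
      filter_upwards [h9] with y hy
      obtain ⟨h10, h11⟩ := hy
      exact ⟨h10, h11⟩
    · intro w F hF
      exact h4 w ⟨F, hF⟩
    · intro l _ w
      exact h5 l l.2 w
    · rw [h7]
      exact Projectivization.mk_rep _
  · refine ⟨perGp L f, fun w => f (w + z), h1, h2, hf.shift z, fun w F hF => hfS (w + z) F hF,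
      fun l hl w => ?_, ?_, ?_⟩
    · have h3 : f (w + z + (l : ℂ)) = f (w + z) := hl (w + z)
      have h4 : w + (l : ℂ) + z = w + z + (l : ℂ) := by ring
      change f (w + (l : ℂ) + z) = f (w + z)
      rw [h4, h3]
    · obtain ⟨u, w, huw⟩ := hnc
      refine ⟨u - z, w - z, ?_⟩
      simp only [sub_add_cancel]
      exact huw
    · simp only [zero_add]

end Pool.Agent.Q171.RC
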