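import Pool.Agent.Q171.RC.Locus

/-!
The unions of the rational curves of degree at most `δ` on projective varieties given by forms of
degree at most `D` are given by forms of bounded degree.
-/

set_option autoImplicit false

namespace Pool.Agent.Q171.RC

open MvPolynomial

/-- exponents of degree at most `D` -/
abbrev Ex (N D : ℕ) : Type := {α : Fin N →₀ ℕ // α.degree ≤ D}

theorem finite_Ex (N D : ℕ) : Finite (Ex N D) := Finsupp.finite_of_degree_le D

theorem degree_eq_of_mem {N : ℕ} {A : Type} [CommSemiring A] {F : MvPolynomial (Fin N) A} {e : ℕ}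
    (hF : F.IsHomogeneous e) {α : Fin N →₀ ℕ} (hα : coeff α F ≠ 0) : α.degree = e := by
  have := hF hα
  rw [Finsupp.degree_eq_weight_one]
  exact this

/-- the universal family -/
theorem universal (N D : ℕ) : ∃ U : Set (MvPolynomial (Fin N) (MvPolynomial (Ex N D × Ex N D) ℂ)),
    (∀ F ∈ U, ∃ d, F.IsHomogeneous d) ∧ ∀ S : Set (MvPolynomial (Fin N) ℂ),
      (∀ F ∈ S, ∃ e, e ≤ D ∧ F.IsHomogeneous e) → ∃ c : Ex N D × Ex N D → ℂ,
        ∀ (B : Type) [CommRing B] [Algebra ℂ B] (p : Fin N → B),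
          (∀ F ∈ U, aeval p (map (ev c) F) = 0) ↔ ∀ F ∈ S, aeval p F = 0 := by
  classical
  have hfin := finite_Ex N D
  have := Fintype.ofFinite (Ex N D)
  let Gn : Ex N D → MvPolynomial (Fin N) (MvPolynomial (Ex N D × Ex N D) ℂ) := fun α =>
    ∑ β : Ex N D, if β.1.degree = α.1.degree then monomial β.1 (X (α, β)) else 0
  refine ⟨Set.range Gn, ?_, fun S hS => ?_⟩
  · rintro _ ⟨α, rfl⟩
    refine ⟨α.1.degree, ?_⟩
    apply IsHomogeneous.sum
    intro β _
    split_ifs with h
    · exact isHomogeneous_monomial _ h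
    · exact isHomogeneous_zero _ _ _
  let W : ℕ → Submodule ℂ (MvPolynomial (Fin N) ℂ) := fun e =>
    Submodule.span ℂ {F | F ∈ S ∧ F.IsHomogeneous e}
  have hWh : ∀ e, ∀ w ∈ W e, w.IsHomogeneous e := by
    intro e w hw
    have h1 : W e ≤ homogeneousSubmodule (Fin N) ℂ e := by
      rw [Submodule.span_le]
      rintro F ⟨-, hF⟩
      exact hF
    exact h1 hw
  have hπ : ∀ e, ∃ π : MvPolynomial (Fin N) ℂ →ₗ[ℂ] W e, π ∘ₗ (W e).subtype = LinearMap.id :=
    fun e => LinearMap.exists_leftInverse_of_injective _ (Submodule.ker_subtype _)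
  choose π hπ using hπ
  have hπw : ∀ e (w : W e), π e w = w := fun e w => congrArg (fun f => f w) (hπ e)
  let F' : (Fin N →₀ ℕ) → MvPolynomial (Fin N) ℂ := fun α =>
    (π α.degree (monomial α 1) : MvPolynomial (Fin N) ℂ)
  have hF'd : ∀ e (α : Fin N →₀ ℕ), α.degree = e →
      (π e (monomial α 1) : MvPolynomial (Fin N) ℂ) = F' α := by
    rintro e α rfl
    rfl
  let c : Ex N D × Ex N D → ℂ := fun x => coeff x.2.1 (F' x.1.1)
  have hmap : ∀ α : Ex N D, map (ev c) (Gn α) = F' α.1 := by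
    intro α
    have hh : (F' α.1).IsHomogeneous α.1.degree := hWh _ _ (π α.1.degree (monomial α.1 1)).2
    ext γ
    simp only [Gn, map_sum]
    rw [coeff_sum]
    by_cases hγ : coeff γ (F' α.1) = 0
    · rw [hγ]
      apply Finset.sum_eq_zero
      intro β _
      split_ifs with h
      · rw [map_monomial, coeff_monomial]
        split_ifs with h2
        · have h3 : (ev c : MvPolynomial (Ex N D × Ex N D) ℂ →+* ℂ) (X (α, β)) = c (α, β) :=
            aeval_X _ _
          rw [h3]
          simp only [c, h2, hγ]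
        · rfl
      · rw [map_zero, coeff_zero]
    · have hd := degree_eq_of_mem hh hγ
      rw [Finset.sum_eq_single (⟨γ, by rw [hd]; exact α.2⟩ : Ex N D)]
      · rw [if_pos hd, map_monomial, coeff_monomial, if_pos rfl]
        exact aeval_X _ _
      · intro β _ hβ
        split_ifs with h
        · rw [map_monomial, coeff_monomial, if_neg]
          intro h2
          exact hβ (Subtype.ext h2)
        · rw [map_zero, coeff_zero]
      · intro h
        exact absurd (Finset.mem_univ _) h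
  refine ⟨c, fun B _ _ p => ⟨fun h F hF => ?_, fun h => ?_⟩⟩
  · obtain ⟨e, he, hFe⟩ := hS F hF
    have hFW : F ∈ W e := Submodule.subset_span ⟨hF, hFe⟩
    have h1 : F = ((π e F : W e) : MvPolynomial (Fin N) ℂ) := by
      have := hπw e ⟨F, hFW⟩
      exact (congrArg Subtype.val this).symm
    have h2 : F = ∑ α ∈ F.support, coeff α F • F' α := by
      conv_lhs => rw [h1, F.as_sum, map_sum]
      rw [Submodule.coe_sum]
      refine Finset.sum_congr rfl fun α hα => ?_
      have h3 : monomial α (coeff α F) = coeff α F • (monomial α (1 : ℂ)) := by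
        rw [smul_monomial, smul_eq_mul, mul_one]
      rw [h3, map_smul, Submodule.coe_smul, hF'd e α (degree_eq_of_mem hFe (mem_support_iff.1 hα))]
    rw [h2, map_sum]
    refine Finset.sum_eq_zero fun α hα => ?_
    have hd := degree_eq_of_mem hFe (mem_support_iff.1 hα)
    have h3 := h _ ⟨⟨α, by rw [hd]; exact he⟩, rfl⟩
    rw [hmap] at h3
    rw [map_smul, h3, smul_zero]
  · rintro _ ⟨α, rfl⟩
    rw [hmap]
    have h1 : W α.1.degree ≤ LinearMap.ker (aeval p : MvPolynomial (Fin N) ℂ →ₐ[ℂ] B).toLinearMap := by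
      rw [Submodule.span_le]
      rintro F ⟨hF, -⟩
      exact h F hF
    exact h1 (π α.1.degree (monomial α.1 1)).2

/-- The point `x` lies on a nonconstant rational curve of degree at most `δ` on the projective
variety of `S`. -/
def OnRat {K : Type} [Field K] {N : ℕ} (S : Set (MvPolynomial (Fin N) K)) (δ : ℕ) (x : Fin N → K) :
    Prop :=
  ∃ p : Fin N → Polynomial K, NC p ∧ (∀ j, (p j).natDegree ≤ δ) ∧ (∀ F ∈ S, aeval p F = 0) ∧
    ∀ j, (p j).eval 0 = x j

/-- All nonconstant rational curves of degree at most `δ` on the variety of `S` lie in `G = 0`. -/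
def RatInG {N : ℕ} (S : Set (MvPolynomial (Fin N) ℂ)) (δ : ℕ) (G : MvPolynomial (Fin N) ℂ) : Prop :=
  ∀ p : Fin N → Polynomial ℂ, NC p → (∀ j, (p j).natDegree ≤ δ) → (∀ F ∈ S, aeval p F = 0) →
    aeval p G = 0

theorem onRat_iff {K : Type} [Field K] {N : ℕ} (S : Set (MvPolynomial (Fin N) K)) (δ : ℕ)
    (x : Fin N → K) : OnRat S δ x ↔ HasPt (RingHom.id K) S δ x := by
  unfold OnRat HasPt
  simp only [map_id, RingHom.id_apply]

theorem OnRat.smul {K : Type} [Field K] [Infinite K] {N : ℕ} {S : Set (MvPolynomial (Fin N) K)}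
    (hS : ∀ F ∈ S, ∃ d, F.IsHomogeneous d) {δ : ℕ} {x : Fin N → K} (h : OnRat S δ x) {c : K}
    (hc : c ≠ 0) : OnRat S δ fun j => c * x j := by
  rw [onRat_iff] at h ⊢
  exact h.smul hS hc

/-- **Bounded degrees.** -/
theorem bde (N D δ : ℕ) : ∃ e0 : ℕ, ∀ S : Set (MvPolynomial (Fin N) ℂ),
    (∀ F ∈ S, ∃ e, e ≤ D ∧ F.IsHomogeneous e) → ∀ x : Fin N → ℂ, x ≠ 0 → ¬ OnRat S δ x →
      ∃ G : MvPolynomial (Fin N) ℂ, (∃ e, e ≤ e0 ∧ G.IsHomogeneous e) ∧ RatInG S δ G ∧
        eval x G ≠ 0 := by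
  classical
  obtain ⟨U, hU, hUS⟩ := universal N D
  have hfin := finite_Ex N D
  obtain ⟨Gs, hGs, hloc⟩ := locus ℂ U hU δ
  refine ⟨Gs.sup totalDegree, fun S hS x hx hno => ?_⟩
  obtain ⟨c, hc⟩ := hUS S hS
  have hpt : ∀ y, HasPt (ev c : MvPolynomial (Ex N D × Ex N D) ℂ →+* ℂ) U δ y ↔ OnRat S δ y := by
    intro y
    constructor
    · rintro ⟨p, h1, h2, h3, h4⟩
      exact ⟨p, h1, h2, (hc _ p).1 h3, h4⟩
    · rintro ⟨p, h1, h2, h3, h4⟩
      exact ⟨p, h1, h2, (hc _ p).2 h3, h4⟩
  have h1 := mt (hloc c x hx).1 (by rw [hpt]; exact hno)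
  push Not at h1
  obtain ⟨G0, hG0, hne⟩ := h1
  obtain ⟨d, hd⟩ := hGs G0 hG0
  refine ⟨map (ev c) G0, ⟨d, ?_, hd.map _⟩, ?_, hne⟩
  · have h2 : G0 ≠ 0 := by
      rintro rfl
      apply hne
      rw [map_zero, map_zero]
    rw [← hd.totalDegree h2]
    exact Finset.le_sup (f := totalDegree) hG0
  · intro p hp hdeg hpF
    obtain ⟨j0, hj0⟩ : ∃ j, p j ≠ 0 := by
      obtain ⟨s, t, i, j, h⟩ := hp
      by_contra hcon
      push Not at hcon
      exact h (by rw [hcon i, hcon j])
    have h2 : aeval p (map (ev c) G0) * p j0 = 0 := by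
      apply Polynomial.funext
      intro t
      rw [Polynomial.eval_mul, Polynomial.eval_zero]
      by_cases ht : (p j0).eval t = 0
      · rw [ht, mul_zero]
      · have h3 := (hloc c (fun j => (p j).eval t) (fun h => ht (congrFun h j0))).2
          (HasPt.of_curve hU hp hdeg ((hc _ p).2 hpF) t) G0 hG0
        rw [eval_aeval_poly, h3, zero_mul]
    exact (mul_eq_zero.1 h2).resolve_right hj0

/-- bounded degrees, for points over extension fields -/
theorem bde_field (N D δ : ℕ) : ∃ e0 : ℕ, ∀ S : Set (MvPolynomial (Fin N) ℂ),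
    (∀ F ∈ S, ∃ e, e ≤ D ∧ F.IsHomogeneous e) → ∀ G : MvPolynomial (Fin N) ℂ,
      (∃ e, G.IsHomogeneous e) → RatInG S δ G →
      ∀ (K : Type) [Field K] [Algebra ℂ K] (x : Fin N → K), aeval x G ≠ 0 →
        ∃ G' : MvPolynomial (Fin N) ℂ, (∃ e, e ≤ e0 ∧ G'.IsHomogeneous e) ∧ RatInG S δ G' ∧
          aeval x G' ≠ 0 := by
  classical
  obtain ⟨e0, he0⟩ := bde N D δ
  refine ⟨e0, fun S hS G hGh hG K _ _ x hx => ?_⟩
  by_contra hcon
  push Not at hcon
  set J : Ideal (MvPolynomial (Fin N) ℂ) := Ideal.span {G' | (∃ e, e ≤ e0 ∧ G'.IsHomogeneous e) ∧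
    RatInG S δ G'} with hJ
  have hmem : ∀ G', (∃ e, e ≤ e0 ∧ G'.IsHomogeneous e) → RatInG S δ G' → G' ∈ J := fun G' h1 h2 =>
    Ideal.subset_span ⟨h1, h2⟩
  have h1 : G ∈ vanishingIdeal ℂ (zeroLocus ℂ J) := by
    intro y hy
    by_contra hne
    change aeval y G ≠ 0 at hne
    rw [MvPolynomial.aeval_def, Algebra.algebraMap_self] at hne
    change eval y G ≠ 0 at hne
    by_cases hy0 : y = 0
    · obtain ⟨d, hd⟩ := hGh
      have hd0 : d = 0 := by
        by_contra hd0
        apply hne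
        have h2 := eval_smul_homog hd 0 y
        rw [zero_pow hd0, zero_mul] at h2
        have h3 : (fun j => (0 : ℂ) * y j) = y := by
          rw [hy0]
          funext j
          simp
        rwa [h3] at h2
      rw [hd0] at hd
      have hC : G = C (coeff 0 G) := by
        have := totalDegree_eq_zero_iff_eq_C.1 (Nat.le_zero.1 hd.totalDegree_le)
        exact this
      have hc0 : coeff 0 G ≠ 0 := by
        intro h
        apply hne
        rw [hC, h, map_zero, map_zero]
      have hone : (1 : MvPolynomial (Fin N) ℂ) ∈ J := by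
        refine hmem 1 ⟨0, Nat.zero_le _, isHomogeneous_one _ _⟩ ?_
        intro p hp1 hp2 hp3
        exfalso
        have h2 := hG p hp1 hp2 hp3
        rw [hC, aeval_C] at h2
        have h3 : (algebraMap ℂ (Polynomial ℂ)) (coeff 0 G) = Polynomial.C (coeff 0 G) := rfl
        rw [h3, Polynomial.C_eq_zero] at h2
        exact hc0 h2
      have h2 := hy 1 hone
      rw [map_one] at h2
      exact one_ne_zero h2
    · have hno : ¬ OnRat S δ y := by
        rintro ⟨p, h2, h3, h4, h5⟩
        apply hne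
        have h6 := hG p h2 h3 h4
        have h7 := congrArg (Polynomial.eval 0) h6
        rw [eval_aeval_poly, Polynomial.eval_zero] at h7
        have h8 : (fun j => (p j).eval 0) = y := funext h5
        rwa [h8] at h7
      obtain ⟨G', h2, h3, h4⟩ := he0 S hS y hy0 hno
      apply h4
      have h5 := hy G' (hmem G' h2 h3)
      rw [MvPolynomial.aeval_def, Algebra.algebraMap_self] at h5
      exact h5
  rw [vanishingIdeal_zeroLocus_eq_radical] at h1
  obtain ⟨n, hn⟩ := h1
  have h2 : J ≤ RingHom.ker (aeval x : MvPolynomial (Fin N) ℂ →ₐ[ℂ] K).toRingHom := by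
    rw [hJ, Ideal.span_le]
    rintro G' ⟨h3, h4⟩
    exact hcon G' h3 h4
  have h3 := h2 hn
  rw [RingHom.mem_ker, map_pow] at h3
  exact pow_ne_zero n hx h3

end Pool.Agent.Q171.RC
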