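import Pool.Agent.Q171.RC.Limit

/-!
Rational curves of bounded degree in algebraic families: the set of the parameters for which they
exist is Zariski closed.
-/

set_option autoImplicit false

namespace Pool.Agent.Q171.RC

open IsLocalRing MvPolynomial

section Generic

variable {N δ : ℕ}

/-- indices of the coefficients -/
abbrev Tau (N δ : ℕ) : Type := Fin N × Fin (δ + 1)

/-- the polynomial vector with given coefficients -/
noncomputable def curve {B : Type} [CommRing B] (a : Tau N δ → B) : Fin N → Polynomial B :=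
  fun j => ∑ l : Fin (δ + 1), Polynomial.monomial (l : ℕ) (a (j, l))

theorem curve_map {B B' : Type} [CommRing B] [CommRing B'] (φ : B →+* B') (a : Tau N δ → B)
    (j : Fin N) : (curve a j).map φ = curve (fun x => φ (a x)) j := by
  simp only [curve, Polynomial.map_sum, Polynomial.map_monomial]

theorem curve_coeff {B : Type} [CommRing B] (a : Tau N δ → B) (j : Fin N) (l : Fin (δ + 1)) :
    (curve a j).coeff l = a (j, l) := by
  classical
  simp only [curve, Polynomial.finsetSum_coeff, Polynomial.coeff_monomial]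
  rw [Finset.sum_eq_single l]
  · rw [if_pos rfl]
  · intro l' _ h
    rw [if_neg]
    intro h1
    exact h (Fin.ext h1)
  · intro h
    exact absurd (Finset.mem_univ l) h

theorem curve_natDegree {B : Type} [CommRing B] (a : Tau N δ → B) (j : Fin N) :
    (curve a j).natDegree ≤ δ := by
  refine Polynomial.natDegree_sum_le_of_forall_le _ _ fun l _ => ?_
  exact (Polynomial.natDegree_monomial_le _).trans (by have := l.2; omega)

theorem eq_curve {B : Type} [CommRing B] {p : Fin N → Polynomial B}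
    (hp : ∀ j, (p j).natDegree ≤ δ) : curve (fun x : Tau N δ => (p x.1).coeff x.2) = p := by
  funext j
  rw [curve]
  conv_rhs => rw [(p j).as_sum_range' (δ + 1) (by have := hp j; omega)]
  rw [Finset.sum_range]

/-- the equations for the curves on the variety of `F` -/
noncomputable def eqn {A : Type} [CommRing A] (δ : ℕ) (F : MvPolynomial (Fin N) A) (m : ℕ) :
    MvPolynomial (Tau N δ) A :=
  (aeval (curve (fun x : Tau N δ => (X x : MvPolynomial (Tau N δ) A)))
    (map (C : A →+* MvPolynomial (Tau N δ) A) F)).coeff m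

theorem eval_eqn {A B : Type} [CommRing A] [CommRing B] (φ : A →+* B) (a : Tau N δ → B)
    (F : MvPolynomial (Fin N) A) (m : ℕ) :
    eval₂ φ a (eqn δ F m) = (aeval (curve a) (map φ F)).coeff m := by
  have h1 : eval₂ φ a (eqn δ F m) = ((aeval (curve (fun x : Tau N δ =>
      (X x : MvPolynomial (Tau N δ) A))) (map (C : A →+* MvPolynomial (Tau N δ) A) F)).map
        (eval₂Hom φ a)).coeff m := by
    rw [Polynomial.coeff_map]
    rfl
  rw [h1, map_aeval_poly, map_map]
  have h2 : (eval₂Hom φ a).comp (C : A →+* MvPolynomial (Tau N δ) A) = φ := by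
    ext x
    simp
  have h3 : (fun j => (curve (fun x : Tau N δ => (X x : MvPolynomial (Tau N δ) A)) j).map
      (eval₂Hom φ a)) = curve a := by
    funext j
    rw [curve_map]
    congr 1
    funext x
    simp
  rw [h2, h3]

/-- indices of the minors -/
abbrev Qi (N δ : ℕ) : Type := (Tau N δ) × (Tau N δ)

/-- the minors -/
noncomputable def mnr {A : Type} [CommRing A] (q : Qi N δ) : MvPolynomial (Tau N δ) A :=
  X (q.1.1, q.1.2) * X (q.2.1, q.2.2) - X (q.2.1, q.1.2) * X (q.1.1, q.2.2)

theorem eval_mnr {A B : Type} [CommRing A] [CommRing B] (φ : A →+* B) (a : Tau N δ → B)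
    (q : Qi N δ) : eval₂ φ a (mnr q) =
      a (q.1.1, q.1.2) * a (q.2.1, q.2.2) - a (q.2.1, q.1.2) * a (q.1.1, q.2.2) := by
  simp only [mnr, eval₂_sub, eval₂_mul, eval₂_X]

theorem NC_iff {k : Type} [Field k] [Infinite k] (a : Tau N δ → k) :
    NC (curve a) ↔ ∃ q : Qi N δ,
      a (q.1.1, q.1.2) * a (q.2.1, q.2.2) - a (q.2.1, q.1.2) * a (q.1.1, q.2.2) ≠ 0 := by
  constructor
  · rintro ⟨s, t, i, j, h⟩
    by_contra hcon
    push Not at hcon
    apply h
    simp only [curve, Polynomial.eval_finsetSum, Polynomial.eval_monomial]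
    rw [Finset.sum_mul_sum, Finset.sum_mul_sum]
    refine Finset.sum_congr rfl fun l _ => Finset.sum_congr rfl fun l' _ => ?_
    linear_combination s ^ (l : ℕ) * t ^ (l' : ℕ) * hcon ((i, l), (j, l'))
  · rintro ⟨q, hq⟩
    by_contra hcon
    apply hq
    by_cases h0 : ∃ j, curve a j ≠ 0
    · obtain ⟨j0, hj0⟩ := h0
      obtain ⟨i0, c, -, -, hc⟩ := const_of_not_NC hcon hj0
      have h1 : ∀ j l, a (j, l) = c j * (curve a i0).coeff l := by
        intro j l
        rw [← curve_coeff a j l]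
        conv_lhs => rw [hc j]
        rw [Polynomial.coeff_C_mul]
      rw [h1 q.1.1 q.1.2, h1 q.2.1 q.2.2, h1 q.2.1 q.1.2, h1 q.1.1 q.2.2]
      ring
    · push Not at h0
      have h1 : ∀ j l, a (j, l) = 0 := by
        intro j l
        rw [← curve_coeff a j l, h0 j, Polynomial.coeff_zero]
      rw [h1, h1, h1]
      ring

end Generic

/-- There is a nonconstant rational curve of degree at most `δ` on the variety of the forms in `S`,
over the field `B`. -/
def HasRat {A B : Type} [CommRing A] [Field B] {N : ℕ} (φ : A →+* B)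
    (S : Set (MvPolynomial (Fin N) A)) (δ : ℕ) : Prop :=
  ∃ p : Fin N → Polynomial B, NC p ∧ (∀ j, (p j).natDegree ≤ δ) ∧
    ∀ F ∈ S, aeval p (map φ F) = 0

variable {N : ℕ}

theorem hasRat_iff {A B : Type} [CommRing A] [Field B] [Infinite B] (φ : A →+* B)
    (S : Set (MvPolynomial (Fin N) A)) (δ : ℕ) :
    HasRat φ S δ ↔ ∃ (q : Qi N δ) (a : Tau N δ → B), eval₂ φ a (mnr q) ≠ 0 ∧
      ∀ F ∈ S, ∀ m, eval₂ φ a (eqn δ F m) = 0 := by
  constructor
  · rintro ⟨p, h1, h2, h3⟩
    rw [← eq_curve h2] at h1 h3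
    obtain ⟨q, hq⟩ := (NC_iff _).1 h1
    refine ⟨q, fun x => (p x.1).coeff x.2, by rw [eval_mnr]; exact hq, fun F hF m => ?_⟩
    rw [eval_eqn, h3 F hF, Polynomial.coeff_zero]
  · rintro ⟨q, a, h1, h2⟩
    refine ⟨curve a, (NC_iff a).2 ⟨q, by rwa [eval_mnr] at h1⟩, curve_natDegree a,
      fun F hF => ?_⟩
    ext m
    rw [← eval_eqn, h2 F hF m, Polynomial.coeff_zero]

/-- Nullstellensatz for `HasRat`. -/
theorem nss {A L K : Type} [CommRing A] [Field L] [Field K] [IsAlgClosed K] [Algebra L K]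
    (φ : A →+* L) (S : Set (MvPolynomial (Fin N) A)) (δ : ℕ)
    (h : ¬ HasRat ((algebraMap L K).comp φ) S δ) (q : Qi N δ) :
    ∃ n : ℕ, (map φ (mnr q) : MvPolynomial (Tau N δ) L) ^ n ∈
      Ideal.span (map φ '' {E | ∃ F ∈ S, ∃ m, E = eqn δ F m}) := by
  have hinf : Infinite K := IsAlgClosed.instInfinite
  set J : Ideal (MvPolynomial (Tau N δ) L) :=
    Ideal.span (map φ '' {E | ∃ F ∈ S, ∃ m, E = eqn δ F m}) with hJ
  have h1 : map φ (mnr q) ∈ vanishingIdeal L (zeroLocus K J) := by
    intro a ha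
    by_contra h2
    apply h
    rw [hasRat_iff]
    refine ⟨q, a, ?_, fun F hF m => ?_⟩
    · intro h3
      apply h2
      rw [aeval_def, eval₂_map]
      exact h3
    · have h3 := ha (map φ (eqn δ F m)) (Ideal.subset_span ⟨_, ⟨F, hF, m, rfl⟩, rfl⟩)
      rw [aeval_def, eval₂_map] at h3
      exact h3
  rw [vanishingIdeal_zeroLocus_eq_radical] at h1
  exact h1

/-- Descent to algebraically closed fields. -/
theorem descend {A k K κ : Type} [CommRing A] [Field k] [Field K] [IsAlgClosed K] [Algebra k K]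
    [Field κ] [Infinite κ] (φ : A →+* k) (ι : k →+* κ) (S : Set (MvPolynomial (Fin N) A)) (δ : ℕ)
    (h : HasRat (ι.comp φ) S δ) : HasRat ((algebraMap k K).comp φ) S δ := by
  by_contra hcon
  rw [hasRat_iff] at h
  obtain ⟨q, a, h1, h2⟩ := h
  obtain ⟨n, hn⟩ := nss (K := K) φ S δ hcon q
  have h3 : Ideal.span (map φ '' {E | ∃ F ∈ S, ∃ m, E = eqn δ F m}) ≤
      RingHom.ker (eval₂Hom ι a) := by
    rw [Ideal.span_le]
    rintro _ ⟨_, ⟨F, hF, m, rfl⟩, rfl⟩
    change eval₂ ι a (map φ (eqn δ F m)) = 0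
    rw [eval₂_map]
    exact h2 F hF m
  have h4 := h3 hn
  rw [RingHom.mem_ker, map_pow] at h4
  have h5 : eval₂Hom ι a (map φ (mnr q)) = 0 := by
    by_contra h6
    exact pow_ne_zero _ h6 h4
  change eval₂ ι a (map φ (mnr q)) = 0 at h5
  rw [eval₂_map] at h5
  exact h1 h5

section clear

attribute [local instance] MvPolynomial.algebraMvPolynomial

/-- clearing denominators -/
theorem clear {B L τ : Type} [CommRing B] [IsDomain B] [Field L] [Algebra B L] [IsFractionRing B L]
    (T : Set (MvPolynomial τ B)) {y : MvPolynomial τ B}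
    (hy : map (algebraMap B L) y ∈ Ideal.span (map (algebraMap B L) '' T)) :
    ∃ b : B, b ≠ 0 ∧ C b * y ∈ Ideal.span T := by
  have h1 : Ideal.span (map (algebraMap B L) '' T) =
      Ideal.map (algebraMap (MvPolynomial τ B) (MvPolynomial τ L)) (Ideal.span T) := by
    rw [Ideal.map_span]
    rfl
  rw [h1] at hy
  have h2 : algebraMap (MvPolynomial τ B) (MvPolynomial τ L) y ∈
      Ideal.map (algebraMap (MvPolynomial τ B) (MvPolynomial τ L)) (Ideal.span T) := hy
  rw [IsLocalization.mem_map_algebraMap_iff ((nonZeroDivisors B).map (C (σ := τ)))] at h2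
  obtain ⟨⟨x, s⟩, hx⟩ := h2
  obtain ⟨b, hb, hbs⟩ := s.2
  refine ⟨b, nonZeroDivisors.ne_zero hb, ?_⟩
  have h3 : C b * y = x.1 := by
    apply map_injective (algebraMap B L) (IsFractionRing.injective B L)
    have h4 : map (algebraMap B L) y * map (algebraMap B L) s.1 = map (algebraMap B L) x.1 := hx
    rw [← hbs] at h4
    rw [map_mul, mul_comm]
    exact h4
  rw [h3]
  exact x.2

end clear

/-- evaluation of polynomials over `k` at a point over `K` -/
noncomputable abbrev ev {k K σ : Type} [Field k] [Field K] [Algebra k K] (t : σ → K) :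
    MvPolynomial σ k →+* K := (aeval t : MvPolynomial σ k →ₐ[k] K).toRingHom

/-- the parameters with rational curves of degree at most `δ` -/
def RatPar {k σ : Type} (K : Type) [Field k] [Field K] [Algebra k K]
    (S : Set (MvPolynomial (Fin N) (MvPolynomial σ k))) (δ : ℕ) :
    Set (σ → K) := {t | HasRat (ev t : MvPolynomial σ k →+* K) S δ}

variable {k σ : Type} [Field k]

/-- In an irreducible closed set `V(P')`, in which the parameters with rational curves of degree at
most `δ` are dense, the geometric generic fibre contains such a rational curve. -/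
theorem generic_curve {F : Type} [Field F] [Infinite F] [Algebra k F]
    (S : Set (MvPolynomial (Fin N) (MvPolynomial σ k))) (δ : ℕ) (P' : Ideal (MvPolynomial σ k))
    [P'.IsPrime] {L K : Type} [Field L] [Algebra (MvPolynomial σ k ⧸ P') L]
    [IsFractionRing (MvPolynomial σ k ⧸ P') L] [Field K] [IsAlgClosed K] [Algebra L K]
    (h : ∀ Ψ : MvPolynomial σ k, (∀ t ∈ RatPar F S δ, (∀ Φ ∈ P', ev t Φ = 0) → ev t Ψ = 0) →
      Ψ ∈ P') :
    HasRat ((algebraMap L K).comp ((algebraMap (MvPolynomial σ k ⧸ P') L).comp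
      (Ideal.Quotient.mk P'))) S δ := by
  classical
  by_contra hcon
  have h1 := nss (K := K) ((algebraMap (MvPolynomial σ k ⧸ P') L).comp
      (Ideal.Quotient.mk P')) S δ hcon
  have h2 : ∀ q : Qi N δ, ∃ (n : ℕ) (b : MvPolynomial σ k ⧸ P'), b ≠ 0 ∧
      C b * (map (Ideal.Quotient.mk P') (mnr q)) ^ n ∈ Ideal.span
        (map (Ideal.Quotient.mk P') '' {E | ∃ F ∈ S, ∃ m, E = eqn δ F m}) := by
    intro q
    obtain ⟨n, hn⟩ := h1 q
    obtain ⟨b, hb, hb'⟩ := clear (L := L)
      (map (Ideal.Quotient.mk P') '' {E | ∃ F ∈ S, ∃ m, E = eqn δ F m})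
      (y := (map (Ideal.Quotient.mk P') (mnr q)) ^ n) (by
        rw [map_pow, map_map, Set.image_image]
        simp only [map_map]
        exact hn)
    exact ⟨n, b, hb, hb'⟩
  choose n b hb hmem using h2
  obtain ⟨Ψ, hΨ⟩ := Ideal.Quotient.mk_surjective (∏ q, b q)
  have hprod : (∏ q, b q) ≠ 0 := Finset.prod_ne_zero_iff.2 fun q _ => hb q
  apply hprod
  rw [← hΨ, Ideal.Quotient.eq_zero_iff_mem]
  apply h
  intro t ht hΦ
  have ht' : HasRat (ev t : MvPolynomial σ k →+* F) S δ := ht
  rw [hasRat_iff] at ht'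
  obtain ⟨q, a, h3, h4⟩ := ht'
  let e0 : MvPolynomial σ k ⧸ P' →+* F := Ideal.Quotient.lift P' (ev t) hΦ
  have hev : e0.comp (Ideal.Quotient.mk P') = ev t := by
    apply RingHom.ext
    intro x
    exact Ideal.Quotient.lift_mk P' (ev t) hΦ
  have h5 : Ideal.span (map (Ideal.Quotient.mk P') '' {E | ∃ F ∈ S, ∃ m, E = eqn δ F m}) ≤
      RingHom.ker (eval₂Hom e0 a) := by
    rw [Ideal.span_le]
    rintro _ ⟨_, ⟨F, hF, m, rfl⟩, rfl⟩
    change eval₂ e0 a (map (Ideal.Quotient.mk P') (eqn δ F m)) = 0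
    rw [eval₂_map, hev]
    exact h4 F hF m
  have h6 := h5 (hmem q)
  rw [RingHom.mem_ker, map_mul, map_pow] at h6
  have h7 : eval₂Hom e0 a (map (Ideal.Quotient.mk P') (mnr q)) ≠ 0 := by
    change eval₂ e0 a (map (Ideal.Quotient.mk P') (mnr q)) ≠ 0
    rw [eval₂_map, hev]
    exact h3
  have h8 : e0 (b q) = 0 := by
    have h9 := (mul_eq_zero.1 h6).resolve_right (pow_ne_zero _ h7)
    simpa using h9
  have h9 : e0 (∏ q, b q) = 0 := by
    rw [map_prod]
    exact Finset.prod_eq_zero (Finset.mem_univ q) h8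
  rw [← hΨ] at h9
  have h10 := congrArg (fun f : MvPolynomial σ k →+* F => f Ψ) hev
  simp only [RingHom.comp_apply] at h10
  rw [← h10, h9]

/-- **Specialisation of rational curves.** If the geometric generic fibre over `V(P')` contains a
rational curve of degree at most `δ`, then all fibres over `V(P')` do. -/
theorem special_curve {F : Type} [Field F] [IsAlgClosed F] [Algebra k F]
    (S : Set (MvPolynomial (Fin N) (MvPolynomial σ k))) (hS : ∀ F ∈ S, ∃ d, F.IsHomogeneous d)
    (δ : ℕ) (P' : Ideal (MvPolynomial σ k)) [P'.IsPrime] {L K : Type} [Field L]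
    [Algebra (MvPolynomial σ k ⧸ P') L]
    [IsFractionRing (MvPolynomial σ k ⧸ P') L] [Field K] [IsAlgClosed K] [Algebra L K]
    (h : HasRat ((algebraMap L K).comp ((algebraMap (MvPolynomial σ k ⧸ P') L).comp
      (Ideal.Quotient.mk P'))) S δ) (t0 : σ → F) (ht0 : ∀ Φ ∈ P', ev t0 Φ = 0) :
    HasRat (ev t0 : MvPolynomial σ k →+* F) S δ := by
  classical
  let e0 : MvPolynomial σ k ⧸ P' →+* F := Ideal.Quotient.lift P' (ev t0) ht0
  have hev : ∀ Ψ, e0 (Ideal.Quotient.mk P' Ψ) = ev t0 Ψ := fun Ψ =>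
    Ideal.Quotient.lift_mk P' (ev t0) ht0
  let m' : Ideal (MvPolynomial σ k ⧸ P') := RingHom.ker e0
  have : m'.IsPrime := RingHom.ker_isPrime e0
  let Rm := Localization.AtPrime m'
  let g : MvPolynomial σ k ⧸ P' →+* K := (algebraMap L K).comp
    (algebraMap (MvPolynomial σ k ⧸ P') L)
  have hg : Function.Injective g := (algebraMap L K).injective.comp
    (IsFractionRing.injective (MvPolynomial σ k ⧸ P') L)
  let f : Rm →+* K := IsLocalization.lift (M := m'.primeCompl) (g := g) (by
    intro y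
    rw [isUnit_iff_ne_zero]
    intro h0
    apply y.2
    have h1 : (y : MvPolynomial σ k ⧸ P') = 0 := hg (by rw [h0, map_zero])
    rw [h1]
    exact m'.zero_mem)
  let f0 : Rm →+* F := IsLocalization.lift (M := m'.primeCompl) (g := e0) (by
    intro y
    rw [isUnit_iff_ne_zero]
    intro h0
    exact y.2 h0)
  have hf0 : ∀ x, f0 (algebraMap _ Rm x) = e0 x := fun x => IsLocalization.lift_eq _ _
  have hloc0 : IsLocalHom f0 := by
    constructor
    intro x hx
    obtain ⟨y, s, rfl⟩ := IsLocalization.exists_mk'_eq m'.primeCompl x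
    rw [isUnit_iff_ne_zero] at hx
    have h1 : y ∉ m' := by
      intro hy
      apply hx
      have h2 : f0 (IsLocalization.mk' Rm y s) * f0 (algebraMap (MvPolynomial σ k ⧸ P') Rm s) =
        f0 (algebraMap (MvPolynomial σ k ⧸ P') Rm y) := by
        rw [← map_mul, IsLocalization.mk'_spec]
      have h3 : e0 y = 0 := hy
      rw [hf0 y, h3, hf0] at h2
      exact (mul_eq_zero.1 h2).resolve_right fun h4 => s.2 h4
    rw [IsLocalization.AtPrime.isUnit_mk'_iff Rm m' y s]
    exact h1
  obtain ⟨O, hO, hloc⟩ := IsLocalRing.exists_factor_valuationRing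
    (R := Localization.AtPrime m') (K := K) f
  let φO : Rm →+* O := f.codRestrict O.toSubring hO
  have hlocO : IsLocalHom φO := hloc
  let φ1 : MvPolynomial σ k →+* Rm := (algebraMap _ Rm).comp (Ideal.Quotient.mk P')
  have hφ : (algebraMap O K).comp (φO.comp φ1) = (algebraMap L K).comp
      ((algebraMap (MvPolynomial σ k ⧸ P') L).comp (Ideal.Quotient.mk P')) := by
    apply RingHom.ext
    intro x
    change f (algebraMap _ _ (Ideal.Quotient.mk P' x)) = g (Ideal.Quotient.mk P' x)
    exact IsLocalization.lift_eq _ _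
  let ι : ResidueField Rm →+* ResidueField O := ResidueField.map φO
  let a0 : ResidueField Rm →+* F := ResidueField.lift f0
  let _ : Algebra (ResidueField Rm) F := a0.toAlgebra
  obtain ⟨p, hp1, hp2, hp3⟩ := h
  obtain ⟨P, h1, h2, h3⟩ := limit_on O hp1 hp2
  have := algClosed_residue O
  have hinf : Infinite (ResidueField O) := IsAlgClosed.instInfinite
  have hres : (residue O).comp (φO.comp φ1) = ι.comp ((residue Rm).comp φ1) := by
    apply RingHom.ext
    intro Ψ
    rfl
  have hfin : HasRat ((algebraMap (ResidueField Rm) F).comp ((residue Rm).comp φ1)) S δ := by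
    refine descend _ ι S δ ⟨P, h1, h2, fun F hF => ?_⟩
    obtain ⟨d, hd⟩ := hS F hF
    have h4 := h3 (map (φO.comp φ1) F) d (hd.map _) (by
      rw [map_map, hφ]
      exact hp3 F hF)
    rw [map_map, hres] at h4
    exact h4
  have hfin2 : (algebraMap (ResidueField Rm) F).comp ((residue Rm).comp φ1) = ev t0 := by
    apply RingHom.ext
    intro Ψ
    change f0 (algebraMap _ Rm (Ideal.Quotient.mk P' Ψ)) = _
    rw [hf0, hev]
  rw [hfin2] at hfin
  exact hfin

/-- **Closedness.** In an algebraic family of projective varieties over a field `k`, the fibres, over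
an algebraically closed field `K ⊇ k`, with a rational curve of degree at most `δ` form a closed set
in the Zariski topology given by polynomials over `k`. -/
theorem closed [Finite σ] {K : Type} [Field K] [IsAlgClosed K] [Algebra k K]
    (S : Set (MvPolynomial (Fin N) (MvPolynomial σ k))) (hS : ∀ F ∈ S, ∃ d, F.IsHomogeneous d)
    (δ : ℕ) {t0 : σ → K} (h0 : t0 ∉ RatPar K S δ) :
    ∃ Ψ : MvPolynomial σ k, aeval t0 Ψ ≠ 0 ∧ ∀ t ∈ RatPar K S δ, aeval t Ψ = 0 := by
  classical
  have : Infinite K := IsAlgClosed.instInfinite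
  by_contra hcon
  push Not at hcon
  have hcon' : ∀ Ψ : MvPolynomial σ k, (∀ t ∈ RatPar K S δ, ev t Ψ = 0) → ev t0 Ψ = 0 := by
    intro Ψ hΨ
    by_contra h
    obtain ⟨t, ht, ht'⟩ := hcon Ψ h
    exact ht' (hΨ t ht)
  set P : Ideal (MvPolynomial σ k) := vanishingIdeal k (RatPar K S δ) with hP
  have hPm : ∀ Ψ, Ψ ∈ P ↔ ∀ t ∈ RatPar K S δ, ev t Ψ = 0 := by
    intro Ψ
    rw [hP, mem_vanishingIdeal_iff]
    rfl
  have hle : P ≤ RingHom.ker (ev t0 : MvPolynomial σ k →+* K) := fun Ψ hΨ =>
    hcon' Ψ ((hPm Ψ).1 hΨ)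
  have hpr : (RingHom.ker (ev t0 : MvPolynomial σ k →+* K)).IsPrime := RingHom.ker_isPrime _
  obtain ⟨P', hP', hP'm⟩ := Ideal.exists_minimalPrimes_le hle
  have hP'p : P'.IsPrime := hP'.1.1
  have hfin : (P.minimalPrimes).Finite := Ideal.finite_minimalPrimes_of_isNoetherianRing _ P
  -- an element of the other minimal primes
  obtain ⟨g, hg, hg'⟩ : ∃ g : MvPolynomial σ k, g ∉ P' ∧ ∀ Q ∈ P.minimalPrimes, Q ≠ P' → g ∈ Q := by
    have h1 : ∀ Q ∈ P.minimalPrimes, Q ≠ P' → ∃ g ∈ Q, g ∉ P' := by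
      intro Q hQ hne
      by_contra h2
      push Not at h2
      exact hne (le_antisymm h2 (hP'.2 hQ.1 h2))
    choose! g hg1 hg2 using h1
    refine ⟨∏ Q ∈ hfin.toFinset.filter (· ≠ P'), g Q, ?_, ?_⟩
    · intro h
      obtain ⟨Q, hQ, hQ'⟩ := (hP'p.prod_mem_iff).1 h
      rw [Finset.mem_filter, Set.Finite.mem_toFinset] at hQ
      exact hg2 Q hQ.1 hQ.2 hQ'
    · intro Q hQ hne
      have h3 : Q ∈ hfin.toFinset.filter (· ≠ P') := by
        rw [Finset.mem_filter, Set.Finite.mem_toFinset]
        exact ⟨hQ, hne⟩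
      rw [← Finset.mul_prod_erase _ _ h3]
      exact Q.mul_mem_right _ (hg1 Q hQ hne)
  have hgen := generic_curve (F := K) S δ P' (L := FractionRing (MvPolynomial σ k ⧸ P'))
    (K := AlgebraicClosure (FractionRing (MvPolynomial σ k ⧸ P'))) (by
      intro Ψ hΨ
      have h1 : g * Ψ ∈ P := by
        rw [hPm]
        intro t ht
        rw [map_mul]
        by_cases hV : ∀ Φ ∈ P', ev t Φ = 0
        · rw [hΨ t ht hV, mul_zero]
        · have hpr' : (RingHom.ker (ev t : MvPolynomial σ k →+* K)).IsPrime :=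
            RingHom.ker_isPrime _
          have hle' : P ≤ RingHom.ker (ev t : MvPolynomial σ k →+* K) := fun Φ hΦ =>
            (hPm Φ).1 hΦ t ht
          obtain ⟨Q, hQ, hQ'⟩ := Ideal.exists_minimalPrimes_le hle'
          have hne : Q ≠ P' := by
            rintro rfl
            exact hV fun Φ hΦ => hQ' hΦ
          have h2 : ev t g = 0 := hQ' (hg' Q hQ hne)
          rw [h2, zero_mul]
      exact (hP'p.mem_or_mem (hP'.1.2 h1)).resolve_left hg)
  exact h0 (special_curve S hS δ P' hgen t0 fun Φ hΦ => hP'm hΦ)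

end Pool.Agent.Q171.RC
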