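import Pool.Agent.Q171.RC.Torus
import Pool.Agent.Q309.DU.UniF

/-!
Sequences of points and entire curves given by linear difference and functional equations: points on
rational curves of bounded degree, uniformly in the variety.
-/

set_option autoImplicit false

namespace Pool.Agent.Q171.RC

open Filter Set MvPolynomial Pool.Agent.Q1.SL Pool.Agent.Q309.DU Pool.Agent.TH143.EL
open scoped LinearAlgebra.Projectivization

theorem OnRat.mono' {n : ℕ} {S : Set (MvPolynomial (Fin n) ℂ)} {d d' : ℕ} (h : d ≤ d')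
    {x : Fin n → ℂ} (hx : OnRat S d x) : OnRat S d' x := by
  obtain ⟨p, h1, h2, h3⟩ := hx
  exact ⟨p, h1, fun j => (h2 j).trans h, h3⟩

/-- forms containing the rational curves vanish at the points on rational curves -/
theorem OnRat.zero {n : ℕ} {S : Set (MvPolynomial (Fin n) ℂ)} {d : ℕ} {x : Fin n → ℂ}
    (hx : OnRat S d x) {G : MvPolynomial (Fin n) ℂ} (hG : RatInG S d G) : eval x G = 0 := by
  obtain ⟨p, h1, h2, h3, h4⟩ := hx
  have h5 := congrArg (Polynomial.eval 0) (hG p h1 h2 h3)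
  rw [eval_aeval_poly, Polynomial.eval_zero] at h5
  have h6 : (fun j => (p j).eval 0) = x := funext h4
  rwa [h6] at h5

/-- **Sequences.** Among `d + 1` consecutive points one lies on a rational curve of degree at most
`d`. -/
theorem seq_strong (n D r e : ℕ) : ∃ d : ℕ, ∀ S : Set (MvPolynomial (Fin (n + 1)) ℂ),
    (∀ F ∈ S, ∃ e, e ≤ D ∧ F.IsHomogeneous e) → ∀ (t : ℕ → ℂ) (x : ℕ → Fin (n + 1) → ℂ),
      PSeq r e S d t x → ∃ m ≤ d, OnRat S d (x m) := by
  classical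
  by_contra hcon
  push Not at hcon
  choose S hS t x hx hno using hcon
  obtain ⟨d0, m, hm⟩ := ultra_main hS hx
  obtain ⟨e0, he0⟩ := bde (n + 1) D d0
  have hG' : ∀ i, ∃ G' : MvPolynomial (Fin (n + 1)) ℂ, max d0 m ≤ i →
      (∃ e, e ≤ e0 ∧ G'.IsHomogeneous e) ∧ RatInG (S i) d0 G' ∧ eval (x i m) G' ≠ 0 := by
    intro i
    by_cases hi : max d0 m ≤ i
    · have hi1 : d0 ≤ i := (le_max_left _ _).trans hi
      have hi2 : m ≤ i := (le_max_right _ _).trans hi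
      obtain ⟨G', h1⟩ := he0 (S i) (hS i) (x i m) ((hx i).ne m hi2) fun h =>
        hno i m hi2 (h.mono' hi1)
      exact ⟨G', fun _ => h1⟩
    · exact ⟨0, fun h => absurd h hi⟩
  choose G' hG' using hG'
  obtain ⟨e', -, hhe⟩ := exists_deg (F := G') (D := e0) (by
    filter_upwards [hyper_ge (max d0 m)] with i hi
    exact (hG' i hi).1)
  have h1 := hm G' e' hhe (fun h0 => by
    obtain ⟨i, hi1, hi2⟩ := (h0.and (hyper_ge (max d0 m))).exists
    exact (hG' i hi2).2.2 hi1)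
  obtain ⟨i, ⟨p, hp1, hp2, hp3, hp4⟩, hi⟩ := (h1.and (hyper_ge (max d0 m))).exists
  exact hp4 ((hG' i hi).2.1 p hp3 hp1 hp2)

/-- **Entire curves given by functional equations.** -/
theorem fun_locus (n D r e : ℕ) : ∃ d : ℕ, ∀ S : Set (MvPolynomial (Fin (n + 1)) ℂ),
    (∀ F ∈ S, ∃ e, e ≤ D ∧ F.IsHomogeneous e) → ∀ (σ t : ℂ → ℂ) (α β : ℂ), Differentiable ℂ σ →
      (∃ z w, σ z ≠ σ w) → Differentiable ℂ t → (∀ z, t (σ z) = α * t z + β) →
      (∀ k, 0 < k → k ≤ d → ∃ z, t (σ^[k] z) ≠ t z) → ∀ f : ℂ → ℙ ℂ (Fin (n + 1) → ℂ),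
        HolMap f → (∀ z, ∀ F ∈ S, eval (f z).rep F = 0) → LinCurve r e σ t f →
          (∀ z, OnRat S d (f z).rep) ∨ ∃ k, 0 < k ∧ k ≤ d ∧ ∀ z, f (σ^[k] z) = f z := by
  obtain ⟨d, hd⟩ := seq_strong n D r e
  refine ⟨d, ?_⟩
  rintro S hS σ t α β hσ hσn ht hαβ hord f hf hX ⟨h, hm, hfe, hr⟩
  rcases fun_main ⟨hσ, hσn⟩ ht hαβ hord (fun F hF => by
      obtain ⟨e, -, he⟩ := hS F hF
      exact ⟨e, he⟩)
    (A := fun G => RatInG S d G)
    (fun t x hx => by
      obtain ⟨m, hm1, hm2⟩ := hd S hS t x hx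
      exact ⟨m, hm1, fun G _ hG => hm2.zero hG⟩) hf hX hm hfe hr with h1 | h1
  · left
    intro z
    by_contra hno
    obtain ⟨e0, he0⟩ := bde (n + 1) D d
    obtain ⟨G, ⟨e1, -, he1⟩, h4, h5⟩ := he0 S hS (f z).rep (f z).rep_nonzero hno
    exact h5 (h1 z G ⟨e1, he1⟩ h4)
  · exact Or.inr h1

end Pool.Agent.Q171.RC
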