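import Pool.Agent.Q171.RC.Base
import Pool.Agent.Q171.RC.Seq
import Pool.Agent.Q139.EB.GT

/-!
Varieties of general type: the union of the rational curves of bounded degree is a proper closed
subset, given by forms of bounded degree.
-/

set_option autoImplicit false

namespace Pool.Agent.Q171.RC

open Filter Topology Set MvPolynomial
open scoped LinearAlgebra.Projectivization
open Pool.Agent.TH143.EL Pool.Agent.Q1.SL Pool.Agent.H533R3.SL Pool.Agent.Q139.EB
open Pool.Agent.TH143.GT (FunField)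
open Pool.Agent.W602.GT (GeneralType)

variable {N : ℕ}

/-- the forms of degree at most `D` in `p` -/
def formsLe (p : Ideal (MvPolynomial (Fin (N + 1)) ℂ)) (D : ℕ) :
    Set (MvPolynomial (Fin (N + 1)) ℂ) :=
  {F | F ∈ p ∧ ∃ e, e ≤ D ∧ F.IsHomogeneous e}

/-- The projective variety of `p` is given by the forms of degree at most `D` in `p`. -/
def GivenBy (p : Ideal (MvPolynomial (Fin (N + 1)) ℂ)) (D : ℕ) : Prop :=
  ∀ x : Fin (N + 1) → ℂ, (∀ F ∈ formsLe p D, eval x F = 0) →
    ∀ F ∈ p, (∃ e, F.IsHomogeneous e) → eval x F = 0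

/-- a point of a variety of general type outside of the rational curves -/
theorem gt_point {p : Ideal (MvPolynomial (Fin (N + 1)) ℂ)} {K : Type} [Field K]
    [Algebra ℂ K] {w : ℕ} {y : Fin (N + 1) → K} (hy : FunField p 1 K w y)
    (hL : GeneralType ℂ K w) {D : ℕ} (hD : GivenBy p D) (δ : ℕ) :
    ∃ x : Fin (N + 1) → ℂ, x ≠ 0 ∧ (∀ F ∈ p, (∃ e, F.IsHomogeneous e) → eval x F = 0) ∧
      ¬ OnRat (formsLe p D) δ x := by
  classical
  let S : Set (MvPolynomial (Fin (N + 1)) ℂ) := {F | F ∈ p ∧ ∃ k, F.IsHomogeneous k}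
  let I : Ideal (MvPolynomial (Fin (N + 1)) ℂ) := RingHom.ker (cone y)
  have hprime : I.IsPrime := RingHom.ker_isPrime _
  have hform : ∀ F : MvPolynomial (Fin (N + 1)) ℂ, (∃ k, F.IsHomogeneous k) →
      (F ∈ I ↔ aeval y F = 0) := by
    rintro F ⟨k, hk⟩
    change cone y F = 0 ↔ _
    rw [cone_form y hk]
    constructor
    · intro h
      exact Polynomial.C_eq_zero.1 ((mul_eq_zero.1 h).resolve_left
        (pow_ne_zero _ Polynomial.X_ne_zero))
    · intro h
      rw [h, Polynomial.C_0, mul_zero]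
  have hspan : Ideal.span S = I := by
    apply le_antisymm
    · rw [Ideal.span_le]
      intro F hF
      exact (hform F hF.2).2 (hy.sub.mem F hF.1)
    · intro F hF
      rw [← sum_homogeneousComponent F]
      refine Ideal.sum_mem _ fun i _ => Ideal.subset_span ?_
      have h1 : aeval y (homogeneousComponent i F) = 0 := by
        rw [← cone_coeff]
        have h2 : cone y F = 0 := hF
        rw [h2, Polynomial.coeff_zero]
      exact ⟨hy.mem _ ⟨i, homogeneousComponent_isHomogeneous i F⟩ h1,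
        i, homogeneousComponent_isHomogeneous i F⟩
  have hy' : FunField I 1 K w y := by
    refine ⟨⟨hy.sub.ne, fun H hH => ?_, hy.sub.off, hy.sub.gen, hy.sub.dim⟩, fun H hH h =>
      (hform H hH).2 h⟩
    change aeval y H = 0
    rw [← sum_homogeneousComponent H, map_sum]
    refine Finset.sum_eq_zero fun i _ => ?_
    rw [← cone_coeff]
    have h2 : cone y H = 0 := hH
    rw [h2, Polynomial.coeff_zero]
  have hR : RatDeg I := (not_uniruled_iff hprime).1 (not_uniruled_of_gt hy' hL)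
  obtain ⟨G, ⟨e1, hG1⟩, hG2, hG3⟩ := hR δ
  obtain ⟨j0, hj0⟩ := Function.ne_iff.1 hy.sub.ne
  have hXj : (X j0 : MvPolynomial (Fin (N + 1)) ℂ) ∉ I := by
    rw [hform _ ⟨1, isHomogeneous_X _ _⟩, aeval_X]
    exact hj0
  have hprod : G * X j0 ∉ I := fun h => (hprime.mem_or_mem h).elim hG2 hXj
  obtain ⟨x, hx1, hx2⟩ : ∃ x : Fin (N + 1) → ℂ, (∀ F ∈ I, eval x F = 0) ∧
      eval x (G * X j0) ≠ 0 := by
    by_contra hcon
    push Not at hcon
    apply hprod
    have h1 : G * X j0 ∈ vanishingIdeal ℂ (zeroLocus ℂ I) := by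
      intro x hx
      have h2 := hcon x fun F hF => by
        have h3 := hx F hF
        rwa [MvPolynomial.aeval_def, Algebra.algebraMap_self] at h3
      rw [MvPolynomial.aeval_def, Algebra.algebraMap_self]
      exact h2
    rw [vanishingIdeal_zeroLocus_eq_radical, hprime.isRadical.radical] at h1
    exact h1
  rw [map_mul, eval_X] at hx2
  have hxG : eval x G ≠ 0 := fun h => hx2 (by rw [h, zero_mul])
  have hxp : ∀ F ∈ p, (∃ e, F.IsHomogeneous e) → eval x F = 0 := fun F hF hFh =>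
    hx1 F ((hform F hFh).2 (hy.sub.mem F hF))
  refine ⟨x, fun h0 => hx2 (by rw [h0]; simp), hxp, fun hon => hxG ?_⟩
  refine hon.zero fun q hq1 hq2 hq3 => ?_
  refine hG3 q hq2 (fun F hF => ?_) hq1
  have h1 : Ideal.span S ≤ RingHom.ker (aeval q : MvPolynomial (Fin (N + 1)) ℂ →ₐ[ℂ] _) := by
    rw [Ideal.span_le]
    rintro F ⟨hF, hFh⟩
    change aeval q F = 0
    apply Polynomial.funext
    intro t
    rw [eval_aeval_poly, Polynomial.eval_zero]
    refine hD _ (fun F' hF' => ?_) F hF hFh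
    rw [← eval_aeval_poly, hq3 F' hF', Polynomial.eval_zero]
  rw [hspan] at h1
  exact h1 hF

/-- The vector `x` lies on a nonconstant rational curve of degree at most `δ` on the projective
variety of `p`: there are polynomials `P_0, ..., P_N` in one variable of degree at most `δ`, such
that the point `P(t)` is not the same for all `t`, with `F(P_0, ..., P_N) = 0` for all forms `F ∈ p`
and `P(0) = x`. -/
def OnR (p : Ideal (MvPolynomial (Fin (N + 1)) ℂ)) (δ : ℕ) (x : Fin (N + 1) → ℂ) : Prop :=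
  ∃ P : Fin (N + 1) → Polynomial ℂ,
    (∃ s t i j, (P i).eval s * (P j).eval t ≠ (P j).eval s * (P i).eval t) ∧
    (∀ j, (P j).natDegree ≤ δ) ∧ (∀ F ∈ p, (∃ e, F.IsHomogeneous e) → aeval P F = 0) ∧
    ∀ j, (P j).eval 0 = x j

theorem onR_iff {p : Ideal (MvPolynomial (Fin (N + 1)) ℂ)} {D : ℕ} (hD : GivenBy p D) (δ : ℕ)
    (x : Fin (N + 1) → ℂ) : OnRat (formsLe p D) δ x ↔ OnR p δ x := by
  constructor
  · rintro ⟨P, h1, h2, h3, h4⟩
    refine ⟨P, h1, h2, fun F hF hFh => ?_, h4⟩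
    apply Polynomial.funext
    intro t
    rw [eval_aeval_poly, Polynomial.eval_zero]
    refine hD _ (fun F' hF' => ?_) F hF hFh
    rw [← eval_aeval_poly, h3 F' hF', Polynomial.eval_zero]
  · rintro ⟨P, h1, h2, h3, h4⟩
    refine ⟨P, h1, h2, ?_, h4⟩
    rintro F ⟨hF, e, -, he⟩
    exact h3 F hF ⟨e, he⟩

/-- the union of the rational curves of bounded degree is given by forms of bounded degree -/
theorem exc_closed (N D δ : ℕ) : ∃ E : ℕ, ∀ p : Ideal (MvPolynomial (Fin (N + 1)) ℂ),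
    GivenBy p D → ∃ Gs : Set (MvPolynomial (Fin (N + 1)) ℂ),
      (∀ G ∈ Gs, ∃ e, e ≤ E ∧ G.IsHomogeneous e) ∧ ∀ x : Fin (N + 1) → ℂ, x ≠ 0 →
        (OnR p δ x ↔ (∀ F ∈ p, (∃ e, F.IsHomogeneous e) → eval x F = 0) ∧
          ∀ G ∈ Gs, eval x G = 0) := by
  obtain ⟨E, hE⟩ := bde (N + 1) D δ
  refine ⟨E, fun p hD => ⟨{G | (∃ e, e ≤ E ∧ G.IsHomogeneous e) ∧ RatInG (formsLe p D) δ G},
    fun G hG => hG.1, fun x hx => ⟨fun h => ⟨?_, fun G hG => ?_⟩, fun h => ?_⟩⟩⟩
  · intro F hF hFh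
    obtain ⟨P, -, -, h3, h4⟩ := h
    have h5 := congrArg (Polynomial.eval 0) (h3 F hF hFh)
    rw [eval_aeval_poly, Polynomial.eval_zero] at h5
    have h6 : (fun j => (P j).eval 0) = x := funext h4
    rwa [h6] at h5
  · rw [← onR_iff hD] at h
    exact h.zero hG.2
  · rw [← onR_iff hD]
    by_contra hno
    obtain ⟨G, h1, h2, h3⟩ := hE (formsLe p D) (fun F hF => hF.2) x hx hno
    exact h3 (h.2 G ⟨h1, h2⟩)

end Pool.Agent.Q171.RC
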