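import Pool.Agent.Q171.RC.Fam
import Pool.Agent.TH182.VD.Main

/-!
Hypersurfaces of degree at least `2 n + 2` in projective space of dimension `n + 1` without rational
curves.
-/

set_option autoImplicit false

namespace Pool.Agent.Q171.RC

open MvPolynomial

/-- algebraically independent families over countable subfields -/
theorem exists_ai (k₁ : Subfield ℂ) [Countable k₁] (σ : Type) [Countable σ] :
    ∃ c : σ → ℂ, AlgebraicIndependent k₁ c := by
  obtain ⟨s, hs⟩ := exists_isTranscendenceBasis k₁ ℂ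
  have h1 := IsAlgClosed.cardinal_le_max_transcendence_basis' (R := k₁) (K' := ℂ)
    (v' := ((↑) : s → ℂ)) hs
  have h2 : Infinite s := by
    by_contra hfin
    rw [not_infinite_iff_finite] at hfin
    have h3 : Cardinal.mk ℂ ≤ Cardinal.aleph0 := by
      refine h1.trans ?_
      rw [max_le_iff, max_le_iff]
      exact ⟨⟨Cardinal.mk_le_aleph0, Cardinal.mk_le_aleph0⟩, le_rfl⟩
    rw [Cardinal.mk_complex] at h3
    exact absurd h3 (not_le.2 Cardinal.aleph0_lt_continuum)
  obtain ⟨e, he⟩ := exists_injective_nat σ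
  refine ⟨fun x => ((Infinite.natEmbedding s) (e x) : ℂ), ?_⟩
  exact hs.1.comp (fun x => (Infinite.natEmbedding s) (e x))
    ((Infinite.natEmbedding s).injective.comp he)

/-- nonzero parameters -/
theorem NC.ne_zero {N : ℕ} {q : Fin N → Polynomial ℂ} (h : NC q) :
    ∃ s t, s ≠ 0 ∧ t ≠ 0 ∧ ∃ i j, (q i).eval s * (q j).eval t ≠ (q j).eval s * (q i).eval t := by
  have key : ∀ E : Polynomial ℂ, E ≠ 0 → ∃ s, s ≠ 0 ∧ E.eval s ≠ 0 := by
    intro E hE
    by_contra hcon
    push Not at hcon
    have h1 : E * Polynomial.X = 0 := by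
      apply Polynomial.funext
      intro s
      rw [Polynomial.eval_mul, Polynomial.eval_X, Polynomial.eval_zero]
      by_cases hs : s = 0
      · rw [hs, mul_zero]
      · rw [hcon s hs, zero_mul]
    exact hE ((mul_eq_zero.1 h1).resolve_right Polynomial.X_ne_zero)
  obtain ⟨s, t, i, j, hst⟩ := h
  obtain ⟨s', hs', h1⟩ := key (q i * Polynomial.C ((q j).eval t) - q j * Polynomial.C ((q i).eval t))
    (by
      intro h0
      have h1 := congrArg (fun E => Polynomial.eval s E) h0
      simp only [Polynomial.eval_sub, Polynomial.eval_mul, Polynomial.eval_C,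
        Polynomial.eval_zero] at h1
      exact hst (sub_eq_zero.1 h1))
  simp only [Polynomial.eval_sub, Polynomial.eval_mul, Polynomial.eval_C] at h1
  obtain ⟨t', ht', h2⟩ := key (Polynomial.C ((q i).eval s') * q j - Polynomial.C ((q j).eval s') *
      q i) (by
      intro h0
      have h1' := congrArg (fun E => Polynomial.eval t E) h0
      simp only [Polynomial.eval_sub, Polynomial.eval_mul, Polynomial.eval_C,
        Polynomial.eval_zero] at h1'
      exact h1 h1')
  simp only [Polynomial.eval_sub, Polynomial.eval_mul, Polynomial.eval_C] at h2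
  exact ⟨s', t', hs', ht', i, j, fun h3 => h2 (sub_eq_zero.2 h3)⟩

/-- removing common zeros of a curve on a projective variety -/
theorem coprime_on {k : Type} [Field k] [Infinite k] {N : ℕ} {p : Fin N → Polynomial k} (hp : NC p) :
    ∃ q : Fin N → Polynomial k, NC q ∧ (∀ t, ∃ j, (q j).eval t ≠ 0) ∧
      (∀ j, (q j).natDegree ≤ (p j).natDegree) ∧
      ∀ (F : MvPolynomial (Fin N) k) (d : ℕ), F.IsHomogeneous d → aeval p F = 0 →
        aeval q F = 0 := by
  have hp0 : ∃ j, p j ≠ 0 := by
    obtain ⟨s, t, i, j, h⟩ := hp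
    by_contra hcon
    push Not at hcon
    exact h (by rw [hcon i, hcon j])
  obtain ⟨g, q, hg, hq, hqz⟩ := remove_gcd p hp0
  refine ⟨q, ?_, hqz, fun j => ?_, fun F d hF h0 => ?_⟩
  · obtain ⟨s, t, i, j, h⟩ := hp
    refine ⟨s, t, i, j, fun h1 => h ?_⟩
    rw [hq i, hq j]
    simp only [Polynomial.eval_mul]
    linear_combination g.eval s * g.eval t * h1
  · by_cases h : q j = 0
    · rw [h, Polynomial.natDegree_zero]
      exact Nat.zero_le _
    · rw [hq j, Polynomial.natDegree_mul hg h]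
      exact Nat.le_add_left _ _
  · have h2 : aeval q F * g = 0 := by
      apply Polynomial.funext
      intro t
      rw [Polynomial.eval_mul, Polynomial.eval_zero, eval_aeval_poly]
      by_cases ht : g.eval t = 0
      · rw [ht, mul_zero]
      · have h3 : (fun j => (q j).eval t) = fun j => (g.eval t)⁻¹ * (p j).eval t := by
          funext j
          rw [hq j, Polynomial.eval_mul]
          field_simp
        rw [h3, eval_smul_homog hF, ← eval_aeval_poly, h0, Polynomial.eval_zero, mul_zero, zero_mul]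
    exact (mul_eq_zero.1 h2).resolve_right hg

theorem trdeg_pn (n : ℕ) : Algebra.trdeg ℂ (MvPolynomial (Fin (n + 1)) ℂ ⧸
    Ideal.span (Set.range (fun e : Empty => (e.elim : MvPolynomial (Fin (n + 1)) ℂ)))) ≤ n + 1 := by
  rw [Set.range_eq_empty, Ideal.span_empty]
  have e : (MvPolynomial (Fin (n + 1)) ℂ ⧸ (⊥ : Ideal (MvPolynomial (Fin (n + 1)) ℂ))) ≃ₐ[ℂ]
    MvPolynomial (Fin (n + 1)) ℂ := AlgEquiv.quotientBot ℂ _
  have h1 := e.trdeg_eq
  rw [h1, MvPolynomial.trdeg_of_isDomain]
  simp

theorem finite_exps (N d : ℕ) : Finite {α : Fin N →₀ ℕ // α.degree = d} := by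
  have h1 : {m : Fin N →₀ ℕ | m.degree = d}.Finite := by
    refine (Finsupp.finite_of_degree_le d).subset ?_
    intro m hm
    exact le_of_eq hm
  exact h1

/-- the form with given coefficients -/
theorem form_of (N d : ℕ) (c : {α : Fin N →₀ ℕ // α.degree = d} → ℂ) :
    ∃ F : MvPolynomial (Fin N) ℂ, F.IsHomogeneous d ∧ ∀ α, coeff α.1 F = c α := by
  classical
  have hfin := finite_exps N d
  have := Fintype.ofFinite {α : Fin N →₀ ℕ // α.degree = d}
  refine ⟨∑ α, monomial α.1 (c α), ?_, ?_⟩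
  · apply IsHomogeneous.sum
    intro α _
    exact isHomogeneous_monomial _ α.2
  · intro α
    rw [coeff_sum]
    simp only [coeff_monomial]
    rw [Finset.sum_eq_single α]
    · rw [if_pos rfl]
    · intro β _ hβ
      rw [if_neg]
      intro h
      exact hβ (Subtype.ext h)
    · intro h
      exact absurd (Finset.mem_univ α) h

open Pool.Agent.TH182.VD in
/-- very general complete intersections of large degrees on a projective variety contain no rational
curves -/
theorem exists_noRat_CI {N m q : ℕ} {κ : Type} (G : κ → MvPolynomial (Fin (N + 1)) ℂ)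
    (hG : ∀ i, ∃ n, (G i).IsHomogeneous n)
    (hdim : Algebra.trdeg ℂ (MvPolynomial (Fin (N + 1)) ℂ ⧸ Ideal.span (Set.range G)) ≤ m + 1)
    (d : Fin q → ℕ) (hd : 2 * m + 1 ≤ ∑ i, d i + q) :
    ∃ F : Fin q → MvPolynomial (Fin (N + 1)) ℂ, (∀ i, (F i).IsHomogeneous (d i)) ∧
      ∀ p : Fin (N + 1) → Polynomial ℂ, NC p → (∀ i, aeval p (G i) = 0) →
        ∃ i, aeval p (F i) ≠ 0 := by
  classical
  obtain ⟨k₁, hk₁, hmain⟩ := main G hG hdim
  have : ∀ i, Finite {α : Fin (N + 1) →₀ ℕ // α.degree = d i} := fun i => finite_exps _ _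
  have : Countable (CI N d) := Finite.to_countable
  obtain ⟨c, hc⟩ := exists_ai k₁ (CI N d)
  have hF : ∀ i, ∃ F : MvPolynomial (Fin (N + 1)) ℂ, F.IsHomogeneous (d i) ∧
      ∀ α : {α : Fin (N + 1) →₀ ℕ // α.degree = d i}, coeff α.1 F = c ⟨i, α⟩ :=
    fun i => form_of _ _ fun α => c ⟨i, α⟩
  choose F hF1 hF2 using hF
  refine ⟨F, hF1, fun p hp hGp => ?_⟩
  by_contra hcon
  push Not at hcon
  have hind : AlgebraicIndependent k₁ (fun x : CI N d => coeff x.2.1 (F x.1)) := by
    have h1 : (fun x : CI N d => coeff x.2.1 (F x.1)) = c := by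
      funext x
      exact hF2 x.1 x.2
    rw [h1]
    exact hc
  obtain ⟨P, h1, h2, -, h3⟩ := coprime_on hp
  refine hmain q d F hF1 hind Finset.univ (by rw [Finset.card_univ, Fintype.card_fin]; exact hd) P
    ⟨fun t _ => h2 t, fun t _ => ⟨?_, ?_⟩, ?_⟩
  · rintro (i | i)
    · obtain ⟨e, he⟩ := hG i
      change eval _ (G i) = 0
      rw [← eval_aeval_poly, h3 _ e he (hGp i), Polynomial.eval_zero]
    · change eval _ (F i.1) = 0
      rw [← eval_aeval_poly, h3 _ _ (hF1 i.1) (hcon i.1), Polynomial.eval_zero]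
  · rw [sdiff_self, Finset.bot_eq_empty, Finset.prod_empty, map_one]
    exact one_ne_zero
  · obtain ⟨s, t, hs, ht, i, j, h⟩ := h1.ne_zero
    exact ⟨s, t, hs, ht, i, j, h⟩

/-- very general hypersurfaces of degree at least `2 n + 2` contain no rational curves -/
theorem exists_noRat {n d : ℕ} (hd : 2 * n + 2 ≤ d) :
    ∃ F : MvPolynomial (Fin (n + 2)) ℂ, F.IsHomogeneous d ∧
      ∀ p : Fin (n + 2) → Polynomial ℂ, NC p → aeval p F ≠ 0 := by
  obtain ⟨F, h1, h2⟩ := exists_noRat_CI (N := n + 1) (m := n + 1) (q := 1)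
    (fun e : Empty => (e.elim : MvPolynomial (Fin (n + 2)) ℂ)) (fun e => e.elim)
    (trdeg_pn (n + 1)) (fun _ => d) (by simp; omega)
  refine ⟨F 0, h1 0, fun p hp => ?_⟩
  obtain ⟨i, hi⟩ := h2 p hp fun e => e.elim
  rwa [Subsingleton.elim i 0] at hi

end Pool.Agent.Q171.RC
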