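import Pool.Agent.Q171.RC.NonGT

/-!
General hypersurfaces: Zariski-open conditions on the coefficients.
-/

set_option autoImplicit false

namespace Pool.Agent.Q171.RC

open MvPolynomial

/-- `{F = 0}` contains no rational curve: there is no vector of polynomials `p` with `F (p) = 0` the
points of which (in projective space) are not all the same. -/
def NoRationalCurve {N : ℕ} (F : MvPolynomial (Fin N) ℂ) : Prop :=
  ∀ p : Fin N → Polynomial ℂ, aeval p F = 0 →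
    ∀ s t i j, (p i).eval s * (p j).eval t = (p j).eval s * (p i).eval t

theorem noRatLe_of {N : ℕ} {F : MvPolynomial (Fin N) ℂ} (h : NoRationalCurve F) (δ : ℕ) :
    NoRatLe {F} δ := by
  rintro p ⟨s, t, i, j, hp⟩ -
  exact ⟨F, rfl, fun h0 => hp (h p h0 s t i j)⟩

theorem noRatLe_off {N : ℕ} {F : MvPolynomial (Fin N) ℂ} {d : ℕ} (hF : F.IsHomogeneous d) {δ : ℕ}
    (h : NoRatLe {F} δ) {x : Fin N → ℂ} (hx : x ≠ 0) : ¬ OnRat {F} δ x := by
  rw [noRatLe_iff (fun F' hF' => by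
    rw [Set.mem_singleton_iff] at hF'
    rw [hF']
    exact ⟨d, hF⟩)] at h
  exact h x hx

/-- **General hypersurfaces.** -/
theorem general_open (n d δ : ℕ) : ∃ Ps : Set (MvPolynomial ((Fin (n + 2)) →₀ ℕ) ℚ),
    (2 * n + 2 ≤ d → ∃ P ∈ Ps, ∃ F₀ : MvPolynomial (Fin (n + 2)) ℂ, F₀.IsHomogeneous d ∧
      aeval (fun m => F₀.coeff m) P ≠ 0) ∧
    ∀ F : MvPolynomial (Fin (n + 2)) ℂ, F.IsHomogeneous d →
      ((∃ P ∈ Ps, aeval (fun m => F.coeff m) P ≠ 0) ↔ NoRatLe {F} δ) := by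
  classical
  obtain ⟨G, hG, hGF⟩ := generic_form ℚ (n + 2) d
  have hfin := finite_exps (n + 2) d
  obtain ⟨Qs, h1⟩ := open_locus (k := ℚ) {G} (by
    intro F hF
    rw [Set.mem_singleton_iff] at hF
    rw [hF]
    exact ⟨d, hG⟩) δ
  have hfib : ∀ F : MvPolynomial (Fin (n + 2)) ℂ, F.IsHomogeneous d →
      fibre {G} (fun α : {α : Fin (n + 2) →₀ ℕ // α.degree = d} => F.coeff α.1) = {F} := by
    intro F hF
    unfold fibre
    rw [Set.image_singleton, hGF F hF]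
  have hren : ∀ (F : MvPolynomial (Fin (n + 2)) ℂ)
      (Ψ : MvPolynomial {α : Fin (n + 2) →₀ ℕ // α.degree = d} ℚ),
      aeval (fun m => F.coeff m) (rename Subtype.val Ψ) =
        aeval (fun α : {α : Fin (n + 2) →₀ ℕ // α.degree = d} => F.coeff α.1) Ψ := by
    intro F Ψ
    rw [aeval_rename]
    rfl
  have hiff : ∀ F : MvPolynomial (Fin (n + 2)) ℂ, F.IsHomogeneous d →
      ((∃ P ∈ (rename Subtype.val '' Qs : Set (MvPolynomial ((Fin (n + 2)) →₀ ℕ) ℚ)),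
        aeval (fun m => F.coeff m) P ≠ 0) ↔ NoRatLe {F} δ) := by
    intro F hF
    rw [← hfib F hF, ← h1]
    constructor
    · rintro ⟨_, ⟨Ψ, hΨ, rfl⟩, h2⟩
      exact ⟨Ψ, hΨ, by rwa [hren] at h2⟩
    · rintro ⟨Ψ, hΨ, h2⟩
      exact ⟨_, ⟨Ψ, hΨ, rfl⟩, by rwa [hren]⟩
  refine ⟨rename Subtype.val '' Qs, fun hd => ?_, hiff⟩
  obtain ⟨F₀, hF₀, hp⟩ := exists_noRat hd
  obtain ⟨P, hP, hP'⟩ := (hiff F₀ hF₀).2 fun p hp1 _ => ⟨F₀, rfl, hp p hp1⟩
  exact ⟨P, hP, F₀, hF₀, hP'⟩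

end Pool.Agent.Q171.RC
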