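import Pool.Agent.Q171.RC.Base
import Pool.Agent.Q139.EG.MainA

/-!
Curves given by iterated linear differential equations with coefficients in an arbitrary differential
ring of analytic functions: they are algebraic over the ring, or ALL their points lie on rational
curves of bounded degree.
-/

set_option autoImplicit false

namespace Pool.Agent.Q171.RC

open Filter Set MvPolynomial Pool.Agent.Q1.SL Pool.Agent.TH143 Pool.Agent.TH143.EL Pool.Agent.Y377.EL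
  Pool.Agent.Y377.IL Pool.Agent.Y377.ST Pool.Agent.Q139.EG
open Pool.Agent.Q139.EB (OnV rep_eval)
open scoped LinearAlgebra.Projectivization

/-- **Uniform degrees over a base, for forms of arbitrary degree.** -/
theorem gen_strong_diff (n D s r e : ℕ) : ∃ d : ℕ,
    ∀ (S : Set (MvPolynomial (Fin (n + 1)) ℂ)) (G : MvPolynomial (Fin (n + 1)) ℂ),
      (∀ F ∈ S, ∃ e, e ≤ D ∧ F.IsHomogeneous e) → (∃ e, G.IsHomogeneous e) → RatInG S d G →
      ∀ (K : Type) [Field K] [Algebra ℂ K] (D : Derivation ℂ K K), Cst D →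
        ∀ E : IntermediateField ℂ K, (∀ y ∈ E, D y ∈ E) → ∀ x : Fin (n + 1) → K,
          EVecF D E s r e x →
        (∀ F ∈ S, aeval x F = 0) → (∀ u v, AlgE E d (x u) (x v)) ∨ aeval x G = 0 := by
  classical
  by_contra hcon
  have hC : ∀ d : ℕ, ∃ (S : Set (MvPolynomial (Fin (n + 1)) ℂ))
      (G : MvPolynomial (Fin (n + 1)) ℂ) (K : Type) (_ : Field K) (_ : Algebra ℂ K)
      (D1 : Derivation ℂ K K) (E : IntermediateField ℂ K) (x : Fin (n + 1) → K),
      (∀ F ∈ S, ∃ e, e ≤ D ∧ F.IsHomogeneous e) ∧ (∃ e, G.IsHomogeneous e) ∧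
      RatInG S d G ∧ Cst D1 ∧ (∀ y ∈ E, D1 y ∈ E) ∧ EVecF D1 E s r e x ∧
        (∀ F ∈ S, aeval x F = 0) ∧
        (∃ u v, ¬ AlgE E d (x u) (x v)) ∧ aeval x G ≠ 0 := by
    intro d
    by_contra h1
    refine hcon ⟨d, ?_⟩
    intro S G h2 h3 h4 K _ _ D1 h5 E h6 x h7 h8
    by_contra h9
    rw [not_or] at h9
    obtain ⟨h9, h10⟩ := h9
    push Not at h9
    exact h1 ⟨S, G, K, _, _, D1, E, x, h2, h3, h4, h5, h6, h7, h8, h9, h10⟩
  choose S G K iK jK D1 E x hS hG hrat hCD hE hx hF huv hGne using hC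
  obtain ⟨K', iK', jK', D', π, θ, hC', hD', hal, hker, hk, hs⟩ := exists_ultra2 D1 hCD
  let x' : Fin (n + 1) → K' := fun j => π fun i => x i j
  have hE' := ultraE_der (E := E) hs hal hker hD' hE
  have hx' : EVecF D' (ultraE E hs hal hker) s r e x' := EVecF.ultra hs hal hker hD' hx
  -- a pair of coordinates
  choose u v huv using huv
  obtain ⟨⟨u0, v0⟩, hp⟩ : ∃ p : Fin (n + 1) × Fin (n + 1),
      ∀ᶠ i in (hyperfilter ℕ : Filter ℕ), (u i, v i) = p := by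
    by_contra hno
    push Not at hno
    have h3 : ∀ᶠ i in (hyperfilter ℕ : Filter ℕ), ∀ p : Fin (n + 1) × Fin (n + 1),
        (u i, v i) ≠ p := eventually_all.2 fun p => hno p
    obtain ⟨i, hi⟩ := h3.exists
    exact hi _ rfl
  have hge : ∀ d0 : ℕ, ∀ᶠ i in (hyperfilter ℕ : Filter ℕ), d0 ≤ i := by
    intro d0
    have h1 : ∀ᶠ i : ℕ in cofinite, d0 ≤ i := by
      rw [Nat.cofinite_eq_atTop]
      exact eventually_ge_atTop d0
    exact h1.filter_mono hyperfilter_le_cofinite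
  have hnot : ∀ d0, ¬ AlgE (ultraE E hs hal hker) d0 (x' u0) (x' v0) := by
    intro d0 h0
    have h1 := AlgE.los hs hal hker (u := fun i => x i u0) (v := fun i => x i v0) h0
    obtain ⟨i, ⟨h2, h3⟩, h4⟩ := ((h1.and hp).and (hge d0)).exists
    apply huv i
    have h5 : u i = u0 := congrArg Prod.fst h3
    have h6 : v i = v0 := congrArg Prod.snd h3
    rw [h5, h6]
    exact h2.mono h4
  have hv0 : x' v0 ≠ 0 := by
    intro h0
    apply hnot 1
    rw [h0]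
    exact algE_zero
  have hna : ¬ IsAlgebraic (ultraE E hs hal hker).toSubalgebra (x' u0 / x' v0) := by
    intro h0
    obtain ⟨d0, hd0⟩ := exists_algE hv0 h0
    exact hnot d0 hd0
  obtain ⟨M, j1, j2, p, hq1, hq2⟩ := rat_pointE hC' hE' hx' hv0 hna
  have hev : ∀ (T : Finset (Fin (n + 1) →₀ ℕ)) (F : ℕ → MvPolynomial (Fin (n + 1)) ℂ),
      (∀ᶠ i in (hyperfilter ℕ : Filter ℕ), (F i).support ⊆ T) →
        aeval x' (limT θ T F) = π fun i => aeval (x i) (F i) := fun T F hF =>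
    aeval_limT hal hker hF x
  obtain ⟨d0, hd0⟩ := key_proj hs hk hS p (fun F hF' => by
    obtain ⟨e', he', hhe⟩ := exists_deg (D := D) (by
      filter_upwards [hF'] with i hi
      exact hS i _ hi)
    rw [hq1 _ e' (limT_homog hk hhe), hev _ F (by
      filter_upwards [hhe] with i hi
      exact support_hom hi he'), hker]
    filter_upwards [hF'] with i hi
    exact hF i _ hi) hq2
  obtain ⟨e0, he0⟩ := bde_field (n + 1) D d0
  have hmono : ∀ i, d0 ≤ i → RatInG (S i) d0 (G i) := fun i hi p h1 h2 h3 =>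
    hrat i p h1 (fun j => (h2 j).trans hi) h3
  have hG' : ∀ i, ∃ G' : MvPolynomial (Fin (n + 1)) ℂ, d0 ≤ i →
      (∃ e, e ≤ e0 ∧ G'.IsHomogeneous e) ∧ RatInG (S i) d0 G' ∧ aeval (x i) G' ≠ 0 := by
    intro i
    by_cases hi : d0 ≤ i
    · obtain ⟨G', h1⟩ := he0 (S i) (hS i) (G i) (hG i) (hmono i hi) (K i) (x i) (hGne i)
      exact ⟨G', fun _ => h1⟩
    · exact ⟨0, fun h => absurd h hi⟩
  choose G' hG' using hG'
  obtain ⟨e', he', hhe⟩ := exists_deg (F := G') (D := e0) (by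
    filter_upwards [hge d0] with i hi
    exact (hG' i hi).1)
  have h1 := hd0 G' e' hhe (fun h0 => by
    rw [hq1 _ e' (limT_homog hk hhe), hev _ G' (by
      filter_upwards [hhe] with i hi
      exact support_hom hi le_rfl), hker] at h0
    obtain ⟨i, hi, hi'⟩ := (h0.and (hge d0)).exists
    exact (hG' i hi').2.2 hi)
  obtain ⟨i, ⟨p, hp1, hp2, hp3, hp4⟩, hi⟩ := (h1.and (hge d0)).exists
  exact hp4 ((hG' i hi).2.1 p hp3 hp1 hp2)


/-- **Uniform degrees over an arbitrary differential ring, for forms of arbitrary degree.** -/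
theorem gen_strong (n D s r e : ℕ) : ∃ d : ℕ,
    ∀ (S : Set (MvPolynomial (Fin (n + 1)) ℂ)) (G : MvPolynomial (Fin (n + 1)) ℂ),
      (∀ F ∈ S, ∃ e, e ≤ D ∧ F.IsHomogeneous e) → (∃ e, G.IsHomogeneous e) →
      RatInG S d G → ∀ Ω : Set ℂ, IsOpen Ω → IsPreconnected Ω → ∀ M : Set (ℂ → ℂ),
        CRing Ω M → ∀ f : ℂ → Fin (n + 1) → ℂ, MVec Ω M s r e f →
        (∀ z ∈ Ω, ∀ F ∈ S, eval (f z) F = 0) →
        (∀ z ∈ Ω, eval (f z) G = 0) ∨ ∀ u v, AlgM Ω M d (fun z => f z u) fun z => f z v := by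
  obtain ⟨d, hd⟩ := gen_strong_diff n D s r e
  refine ⟨d, ?_⟩
  intro S G hS hG hrat Ω hΩ hΩc M hM f hf hF
  rcases Ω.eq_empty_or_nonempty with h0 | h0
  · left
    intro z hz
    rw [h0] at hz
    exact absurd hz (notMem_empty z)
  obtain ⟨K, _, _, D, A, i, hA⟩ := exists_amb hΩ hΩc h0
  rcases hd S G hS hG hrat K D hA.con _ (fun y hy => stab_frac (cAlg_stab hA hM) hy) _
    (hf.toF hΩ hA hM) (fun F hFF =>
    (vanish_iff hA.inj (f := f) (fun j => hf.an hΩ hM j) F).2 fun z hz => hF z hz F hFF) with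
    h1 | h1
  · right
    intro u v
    exact (h1 u v).toM hA hM (hf.an hΩ hM u) (hf.an hΩ hM v)
  · left
    exact (vanish_iff hA.inj (f := f) (fun j => hf.an hΩ hM j) G).1 h1

/-- **Curves over an arbitrary differential ring.** The coordinate ratios are algebraic of bounded
degree over the ring, or all points lie on rational curves of bounded degree. -/
theorem gen_locus (n D s r e : ℕ) : ∃ δ : ℕ, ∀ S : Set (MvPolynomial (Fin (n + 1)) ℂ),
    (∀ F ∈ S, ∃ e, e ≤ D ∧ F.IsHomogeneous e) →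
      ∀ Ω : Set ℂ, IsOpen Ω → IsPreconnected Ω → ∀ M : Set (ℂ → ℂ), CRing Ω M →
        ∀ f : ℂ → Fin (n + 1) → ℂ, MVec Ω M s r e f → (∀ z ∈ Ω, ∀ F ∈ S, eval (f z) F = 0) →
        (∀ z ∈ Ω, f z ≠ 0 → OnRat S δ (f z)) ∨
          ∀ u v, AlgM Ω M δ (fun z => f z u) fun z => f z v := by
  obtain ⟨δ, hδ⟩ := gen_strong n D s r e
  refine ⟨δ, fun S hS Ω hΩ hΩc M hM f hf hfS => ?_⟩
  by_contra hno
  rw [not_or] at hno
  obtain ⟨h1, h2⟩ := hno
  push Not at h1
  obtain ⟨z, hz, hfz, hz'⟩ := h1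
  obtain ⟨e0, he0⟩ := bde (n + 1) D δ
  obtain ⟨G, ⟨e1, -, he1⟩, h4, h5⟩ := he0 S hS (f z) hfz hz'
  rcases hδ S G hS ⟨e1, he1⟩ h4 Ω hΩ hΩc M hM f hf hfS with h6 | h6
  · exact h5 (h6 z hz)
  · exact h2 h6

/-- **Entire curves with small coefficients.** All points of a nonconstant entire curve given by
iterated linear differential equations with small coefficients lie on rational curves of bounded
degree. -/
theorem small_locus (n D s r e : ℕ) : ∃ δ : ℕ, ∀ S : Set (MvPolynomial (Fin (n + 1)) ℂ),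
    (∀ F ∈ S, ∃ e, e ≤ D ∧ F.IsHomogeneous e) →
      ∀ f : ℂ → ℙ ℂ (Fin (n + 1) → ℂ), HolMap f → OnV S f → (∃ z w, f z ≠ f w) →
        SmallCurve s r e f → ∀ z, OnRat S δ (f z).rep := by
  obtain ⟨δ, hδ⟩ := gen_strong n D s r e
  refine ⟨δ, fun S hS f hf hfS hnc hE z => ?_⟩
  by_contra hz'
  obtain ⟨e0, he0⟩ := bde (n + 1) D δ
  obtain ⟨G, ⟨e1, -, he1⟩, h4, h5⟩ := he0 S hS (f z).rep (f z).rep_nonzero hz'
  have hS' : ∀ F ∈ S, ∃ e, F.IsHomogeneous e := fun F hF => by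
    obtain ⟨e, -, he⟩ := hS F hF
    exact ⟨e, he⟩
  exact h5 (small_cases hS' ⟨e1, he1⟩ (hδ S G hS ⟨e1, he1⟩ h4) hf hfS hnc hE z)

/-- **Entire curves with periodic coefficients.** They are invariant under a subgroup of bounded
index of the group of the periods, or all their points lie on rational curves of bounded degree. -/
theorem per_locus (n D s r e : ℕ) : ∃ δ : ℕ, ∀ S : Set (MvPolynomial (Fin (n + 1)) ℂ),
    (∀ F ∈ S, ∃ e, e ≤ D ∧ F.IsHomogeneous e) →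
      ∀ (L : AddSubgroup ℂ) (f : ℂ → ℙ ℂ (Fin (n + 1) → ℂ)), HolMap f → OnV S f →
        PerCurve L s r e f → (∀ z, OnRat S δ (f z).rep) ∨
          ∃ Λ : AddSubgroup L, Λ.index ≠ 0 ∧ Λ.index ≤ δ ∧
            ∀ l ∈ Λ, ∀ z, f (z + (l : ℂ)) = f z := by
  obtain ⟨d, hd⟩ := gen_strong n D s r e
  refine ⟨max d (d ^ (n + 1)), fun S hS L f hf hfS hE => ?_⟩
  by_contra hno
  rw [not_or] at hno
  obtain ⟨h1, h2⟩ := hno
  push Not at h1
  obtain ⟨z, hz⟩ := h1
  have hz' : ¬ OnRat S d (f z).rep := by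
    rintro ⟨p, h3, h4, h5⟩
    exact hz ⟨p, h3, fun j => (h4 j).trans (le_max_left _ _), h5⟩
  obtain ⟨e0, he0⟩ := bde (n + 1) D d
  obtain ⟨G, ⟨e1, -, he1⟩, h4, h5⟩ := he0 S hS (f z).rep (f z).rep_nonzero hz'
  have hS' : ∀ F ∈ S, ∃ e, F.IsHomogeneous e := fun F hF => by
    obtain ⟨e, -, he⟩ := hS F hF
    exact ⟨e, he⟩
  rcases per_cases hS' ⟨e1, he1⟩ (hd S G hS ⟨e1, he1⟩ h4) L hf hfS hE with h6 | ⟨h6, h7⟩
  · exact h5 (h6 z)
  · exact h2 ⟨perSub L f, h6, h7.trans (le_max_right _ _), fun l hl z => hl z⟩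

/-- Every point on a rational curve lies on an entire curve with small coefficients. -/
theorem small_of_rat {n : ℕ} {S : Set (MvPolynomial (Fin (n + 1)) ℂ)}
    (hS : ∀ F ∈ S, ∃ e, F.IsHomogeneous e) {δ : ℕ} {x : ℙ ℂ (Fin (n + 1) → ℂ)}
    (h : OnRat S δ x.rep) : ∃ f : ℂ → ℙ ℂ (Fin (n + 1) → ℂ), HolMap f ∧ OnV S f ∧
      (∃ z w, f z ≠ f w) ∧ SmallCurve 1 2 δ f ∧ f 0 = x := by
  obtain ⟨p, h1, h2, h3, h4⟩ := h
  obtain ⟨f, hf, hfS, hnc, hr', ⟨Ω, hΩ, hΩc, hΩne, hr⟩, -⟩ := rat_entire hS h2 h3 h1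
  refine ⟨f, hf, hfS, hnc, ⟨Ω, fun z j => (p j).eval z, hΩ, hΩc, hΩne,
    mvec_poly (ring_small (TP_tendsto hf hnc) Ω).const p h2, hr⟩, ?_⟩
  have h5 : (fun j => (p j).eval 0) = x.rep := funext h4
  have h6 := hr' 0 (by
    rw [h5]
    exact x.rep_nonzero)
  rw [h5] at h6
  exact rep_eq h6 (rep_rep x)

end Pool.Agent.Q171.RC
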