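import Pool.Agent.Q171.RC.Gen
import Pool.Agent.Q1.SL.Unif
import Pool.Agent.Q1.SL.UnifR

/-!
Algebraic families of projective varieties: curves given by iterated linear differential equations
and points given by iterated recurrences, of bounded complexity.
-/

set_option autoImplicit false

namespace Pool.Agent.Q171.RC

open MvPolynomial Pool.Agent.Q1.SL Pool.Agent.Y377.ST

/-- All curves `f : Ω → X`, on all domains `Ω` of the plane, on the projective variety `X` of `S`,
given by `s` iterated linear differential equations with matrices of size `r` and polynomials of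
degree at most `e` (`DVec`), are constant. -/
def OdeConst {N : ℕ} (S : Set (MvPolynomial (Fin N) ℂ)) (s r e : ℕ) : Prop :=
  ∀ Ω : Set ℂ, IsOpen Ω → IsPreconnected Ω → ∀ f : ℂ → Fin N → ℂ, DVec Ω s r e f →
    (∀ z ∈ Ω, ∀ F ∈ S, eval (f z) F = 0) →
    ∀ z ∈ Ω, ∀ w ∈ Ω, ∀ i j, f z i * f w j = f z j * f w i

/-- All families of points of the projective variety `X` of `S` over groups `H`, given by `s`
iterated recurrences with matrices of size `r` and polynomials of degree at most `e` (`IterVec`),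
consist of at most `B` points. -/
def RecBound {n : ℕ} (S : Set (MvPolynomial (Fin (n + 1)) ℂ)) (s r e B : ℕ) : Prop :=
  ∀ (H : Type) [Group H] (x : H → Fin (n + 1) → ℂ), IterVec s r e x →
    (∀ h, ∀ F ∈ S, eval (x h) F = 0) →
    {P | ∃ (h : H) (h0 : x h ≠ 0), P = Projectivization.mk ℂ (x h) h0}.encard ≤ (B : ℕ∞)

/-- There is no nonconstant rational curve of degree at most `δ` on the variety of `S`. -/
def NoRatLe {N : ℕ} (S : Set (MvPolynomial (Fin N) ℂ)) (δ : ℕ) : Prop :=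
  ∀ p : Fin N → Polynomial ℂ, NC p → (∀ j, (p j).natDegree ≤ δ) → ∃ F ∈ S, aeval p F ≠ 0

/-- The projective variety of `S` is hyperbolic: all holomorphic maps from the plane to it are
constant. -/
def Brody {N : ℕ} (S : Set (MvPolynomial (Fin N) ℂ)) : Prop :=
  ∀ g : ℂ → Fin N → ℂ, Differentiable ℂ g → (∀ z, g z ≠ 0) →
    (∀ z, ∀ F ∈ S, eval (g z) F = 0) → ∀ z, ∃ c : ℂ, g z = c • g 0

theorem noRat_of_brody {N : ℕ} {S : Set (MvPolynomial (Fin N) ℂ)}
    (hS : ∀ F ∈ S, ∃ d, F.IsHomogeneous d) (h : Brody S) (δ : ℕ) : NoRatLe S δ := by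
  intro p hp _
  by_contra hcon
  push Not at hcon
  obtain ⟨q, h1, h2, -, h3⟩ := coprime_on hp
  have h4 := h (fun z j => (q j).eval z) (by
    rw [differentiable_pi]
    intro j
    exact (q j).differentiable) (fun z h0 => by
      obtain ⟨j, hj⟩ := h2 z
      exact hj (congrFun h0 j)) (fun z F hF => by
      obtain ⟨d, hd⟩ := hS F hF
      rw [← eval_aeval_poly, h3 F d hd (hcon F hF), Polynomial.eval_zero])
  obtain ⟨s, t, i, j, hst⟩ := h1
  obtain ⟨c, hc⟩ := h4 s
  obtain ⟨c', hc'⟩ := h4 t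
  apply hst
  have e1 : ∀ j, (q j).eval s = c * (q j).eval 0 := fun j => congrFun hc j
  have e2 : ∀ j, (q j).eval t = c' * (q j).eval 0 := fun j => congrFun hc' j
  rw [e1, e1, e2, e2]
  ring

/-- **Uniform degrees.** -/
theorem bounded_of_noRat (n D s r e : ℕ) : ∃ δ B : ℕ, ∀ S : Set (MvPolynomial (Fin (n + 1)) ℂ),
    (∀ F ∈ S, ∃ e, e ≤ D ∧ F.IsHomogeneous e) → NoRatLe S δ → OdeConst S s r e ∧ RecBound S s r e B := by
  obtain ⟨δ1, h1⟩ := ode_uniform n D s r e
  obtain ⟨δ2, B, h2⟩ := rec_uniform n D s r e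
  refine ⟨max δ1 δ2, B, fun S hS h => ⟨?_, ?_⟩⟩
  · have h3 := h1 S 1 hS ⟨0, Nat.zero_le _, isHomogeneous_one _ _⟩ (by
      intro p hp1 hp2 hp3
      obtain ⟨F, hF, hF'⟩ := h p hp3 fun j => (hp1 j).trans (le_max_left _ _)
      exact absurd (hp2 F hF) hF')
    intro Ω hΩ hΩc f hf hfS z hz w hw i j
    by_contra hne
    have h4 := h3 Ω hΩ hΩc f hf hfS ⟨z, hz, w, hw, i, j, hne⟩ z hz
    rw [map_one] at h4
    exact one_ne_zero h4
  · intro H _ x hx hxS
    have h3 := h2 S 1 hS ⟨0, Nat.zero_le _, isHomogeneous_one _ _⟩ (by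
      intro p hp1 hp2 hp3
      obtain ⟨F, hF, hF'⟩ := h p hp3 fun j => (hp1 j).trans (le_max_right _ _)
      exact absurd (hp2 F hF) hF') H x hx hxS
    refine le_trans (Set.encard_le_encard ?_) h3
    rintro P ⟨h, h0, rfl⟩
    exact ⟨h, h0, by rw [map_one]; exact one_ne_zero, rfl⟩

/-- the equations of the member of the family with the parameter `t` -/
def fibre {N : ℕ} {k σ : Type} [Field k] [Algebra k ℂ]
    (S : Set (MvPolynomial (Fin N) (MvPolynomial σ k))) (t : σ → ℂ) :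
    Set (MvPolynomial (Fin N) ℂ) := map (aeval t : MvPolynomial σ k →ₐ[k] ℂ).toRingHom '' S

/-- **Families.** -/
theorem family {n D : ℕ} (s r e : ℕ) : ∃ δ B : ℕ, ∀ {k σ : Type} [Field k] [Algebra k ℂ] [Finite σ]
    (S : Set (MvPolynomial (Fin (n + 1)) (MvPolynomial σ k))),
    (∀ F ∈ S, ∃ e, e ≤ D ∧ F.IsHomogeneous e) →
    ∃ Ps : Set (MvPolynomial σ k),
      (∀ t : σ → ℂ, (∃ Ψ ∈ Ps, aeval t Ψ ≠ 0) ↔ NoRatLe (fibre S t) δ) ∧
      ∀ t : σ → ℂ, (∃ Ψ ∈ Ps, aeval t Ψ ≠ 0) →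
        OdeConst (fibre S t) s r e ∧ RecBound (fibre S t) s r e B := by
  obtain ⟨δ, B, h1⟩ := bounded_of_noRat n D s r e
  refine ⟨δ, B, fun {k σ} _ _ _ S hS => ?_⟩
  have hh : ∀ t, ∀ F ∈ fibre S t, ∃ e, e ≤ D ∧ F.IsHomogeneous e := by
    rintro t _ ⟨F, hF, rfl⟩
    obtain ⟨e, he, he'⟩ := hS F hF
    exact ⟨e, he, he'.map _⟩
  have hrat : ∀ t, t ∈ RatPar ℂ S δ ↔ ¬ NoRatLe (fibre S t) δ := by
    intro t
    constructor
    · rintro ⟨p, hp1, hp2, hp3⟩ h
      obtain ⟨_, ⟨F, hF, rfl⟩, hF'⟩ := h p hp1 hp2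
      exact hF' (hp3 F hF)
    · intro h
      unfold NoRatLe at h
      push Not at h
      obtain ⟨p, hp1, hp2, hp3⟩ := h
      exact ⟨p, hp1, hp2, fun F hF => hp3 _ ⟨F, hF, rfl⟩⟩
  have key : ∀ t : σ → ℂ, (∃ Ψ ∈ {Ψ : MvPolynomial σ k | ∀ t ∈ RatPar ℂ S δ, aeval t Ψ = 0},
      aeval t Ψ ≠ 0) ↔ NoRatLe (fibre S t) δ := by
    intro t
    constructor
    · rintro ⟨Ψ, h2, h3⟩
      by_contra h4
      exact h3 (h2 t ((hrat t).2 h4))
    · intro h2
      obtain ⟨Ψ, h3, h4⟩ := closed S (fun F hF => by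
        obtain ⟨e, -, he⟩ := hS F hF
        exact ⟨e, he⟩) δ (t0 := t) (fun h => (hrat t).1 h h2)
      exact ⟨Ψ, h4, h3⟩
  exact ⟨_, key, fun t ht => h1 _ (hh t) ((key t).1 ht)⟩

/-- the generic form -/
theorem generic_form (k : Type) [Field k] [Algebra k ℂ] (N d : ℕ) : ∃ G : MvPolynomial (Fin N)
    (MvPolynomial {α : Fin N →₀ ℕ // α.degree = d} k), G.IsHomogeneous d ∧
      ∀ F : MvPolynomial (Fin N) ℂ, F.IsHomogeneous d →
        map (aeval fun α : {α : Fin N →₀ ℕ // α.degree = d} => F.coeff α.1 :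
          MvPolynomial {α : Fin N →₀ ℕ // α.degree = d} k →ₐ[k] ℂ).toRingHom G = F := by
  classical
  have hfin := finite_exps N d
  have := Fintype.ofFinite {α : Fin N →₀ ℕ // α.degree = d}
  refine ⟨∑ α : {α : Fin N →₀ ℕ // α.degree = d}, monomial α.1 (X α), ?_, fun F hF => ?_⟩
  · apply IsHomogeneous.sum
    intro α _
    exact isHomogeneous_monomial _ α.2
  · rw [map_sum]
    simp only [map_monomial, AlgHom.toRingHom_eq_coe, RingHom.coe_coe, aeval_X]
    ext α
    rw [coeff_sum]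
    simp only [coeff_monomial]
    by_cases hα : α.degree = d
    · rw [Finset.sum_eq_single ⟨α, hα⟩]
      · rw [if_pos rfl]
      · intro β _ hβ
        rw [if_neg]
        intro h
        exact hβ (Subtype.ext h)
      · intro h
        exact absurd (Finset.mem_univ _) h
    · rw [Finset.sum_eq_zero]
      · symm
        by_contra h
        apply hα
        have := hF h
        rw [Finsupp.degree_eq_weight_one]
        exact this
      · intro β _
        rw [if_neg]
        rintro rfl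
        exact hα β.2

end Pool.Agent.Q171.RC
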