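import Pool.Agent.Q171.RC.GT
import Pool.Agent.TH143.GT.Kod
import Pool.Agent.TH143.GT.Desc

/-!
Varieties of nonnegative Kodaira dimension: the union of the rational curves of bounded degree is a
proper closed subset.
-/

set_option autoImplicit false

namespace Pool.Agent.Q171.RC

open Filter Topology Set MvPolynomial
open scoped LinearAlgebra.Projectivization
open Pool.Agent.TH143.EL Pool.Agent.Q1.SL Pool.Agent.H533R3.SL Pool.Agent.Q139.EB
open Pool.Agent.TH143.GT (FunField Pluricanonical desc Fam)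

variable {N : ℕ}

/-- A variety with a nonzero pluricanonical form is not uniruled. -/
theorem not_uniruled_of_kappa {p : Ideal (MvPolynomial (Fin (N + 1)) ℂ)} {K : Type} [Field K]
    [Algebra ℂ K] {w : ℕ} {y : Fin (N + 1) → K} (hy : FunField p 1 K w y) {m : ℕ} (hm : 0 < m)
    {ω : (Fin w → Derivation ℂ K K) → K} (hω : Pluricanonical w m ω) (hne : ω ≠ 0) :
    ¬ Uniruled p := by
  rintro ⟨L, _, _, P, h1, h2, i, j, hij⟩
  have hL0 : CharZero L := charZero_of_injective_algebraMap (algebraMap ℂ L).injective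
  have hrel : ∀ G : MvPolynomial (Fin (N + 1)) ℂ, Pool.Agent.W602.GT.IsForm G →
      (Pool.Agent.W602.GT.val y G = 0 ↔ aeval P G = 0) := by
    refine fun G hG => ⟨fun h => h1 G (hy.mem G hG h), fun h => ?_⟩
    by_contra h3
    apply h2 G hG
    · intro h4
      exact h3 (hy.sub.mem G h4)
    · have h5 := MvPolynomial.comp_aeval_apply (f := P)
        ((Polynomial.aeval (1 : L) : Polynomial L →ₐ[L] L).restrictScalars ℂ) G
      rw [h, map_zero] at h5
      have h6 : (fun i => ((Polynomial.aeval (1 : L) : Polynomial L →ₐ[L] L).restrictScalars ℂ)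
          (P i)) = fun i => (P i).eval 1 := by
        funext i
        change Polynomial.aeval (1 : L) (P i) = _
        rw [Polynomial.coe_aeval_eq_eval]
      rw [h6] at h5
      exact h5.symm
  have hw : ∃ j k, Polynomial.derivative (P j) * P k ≠ P j * Polynomial.derivative (P k) := by
    by_contra hcon
    push Not at hcon
    exact hij (wr_const (hcon i j))
  obtain ⟨j, k, hjk⟩ := hw
  have hPk : P k ≠ 0 := by
    intro h0
    apply hjk
    rw [h0, mul_zero, Polynomial.derivative_zero, mul_zero]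
  obtain ⟨M', _, _, m', hm', W', hW1, ⟨c', e', hc', hce'⟩, hW3⟩ := desc P (X k) (X j) 1
    ⟨1, 1, 0, one_ne_zero, by simp⟩ (by
      rw [aeval_X, aeval_X]
      exact hjk)
  have hF : Fam y 1 W' e' := ⟨fun H hH => by rw [hrel H hH, hW1 H], c', hc', hce'⟩
  have hvk : Pool.Agent.W602.GT.val y (X k : MvPolynomial (Fin (N + 1)) ℂ) ≠ 0 := by
    intro h0
    rw [hrel (X k : MvPolynomial (Fin (N + 1)) ℂ) ⟨1, isHomogeneous_X ℂ k⟩, aeval_X] at h0
    exact hPk h0
  have hl : e' = 0 := by
    have h1 := hce'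
    rw [map_one] at h1
    have h2 := congrArg Polynomial.natDegree h1
    rw [Polynomial.natDegree_one, Polynomial.natDegree_C_mul_X_pow e' c' hc'] at h2
    exact h2.symm
  apply hne
  funext D
  exact (hF.main hy.sub.dim hm' hy.sub.ne hy.sub.gen (isHomogeneous_one _ _)).2.2.2 hl
    ⟨Pool.Agent.W602.GT.val y (X j) / Pool.Agent.W602.GT.val y (X k), fun h => hW3 (h 1 (X j) (X k)
      (isHomogeneous_X _ _) (isHomogeneous_X _ _) hvk rfl)⟩ m hm ω (hω.logSec _) D

/-- The Kodaira dimension is `-∞`: for all `m > 0` there is no nonzero rational `m`-canonical form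
which is regular at all prime divisors, for the variety of dimension `w` with function field `K`. -/
def KappaNeg (K : Type) [Field K] [Algebra ℂ K] (w : ℕ) : Prop :=
  ∀ m : ℕ, 0 < m → ∀ ω : (Fin w → Derivation ℂ K K) → K, Pluricanonical w m ω → ω = 0

/-- If every point of a bounded part lies on rational curves of bounded degree, then the Kodaira
dimension is `-∞`. -/
theorem kappa_of_cover {p : Ideal (MvPolynomial (Fin (N + 1)) ℂ)} {K : Type} [Field K]
    [Algebra ℂ K] {w : ℕ} {y : Fin (N + 1) → K} (hy : FunField p 1 K w y) {D : ℕ}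
    (hD : GivenBy p D) {δ : ℕ} (hcov : ∀ x : Fin (N + 1) → ℂ, x ≠ 0 →
      (∀ F ∈ p, (∃ e, F.IsHomogeneous e) → eval x F = 0) → OnR p δ x) : KappaNeg K w := by
  classical
  intro m hm ω hω
  by_contra hne
  let S : Set (MvPolynomial (Fin (N + 1)) ℂ) := {F | F ∈ p ∧ ∃ k, F.IsHomogeneous k}
  let I : Ideal (MvPolynomial (Fin (N + 1)) ℂ) := RingHom.ker (cone y)
  have hprime : I.IsPrime := RingHom.ker_isPrime _
  have hform : ∀ F : MvPolynomial (Fin (N + 1)) ℂ, (∃ k, F.IsHomogeneous k) →
      (F ∈ I ↔ aeval y F = 0) := by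
    rintro F ⟨k, hk⟩
    change cone y F = 0 ↔ _
    rw [cone_form y hk]
    constructor
    · intro h
      exact Polynomial.C_eq_zero.1 ((mul_eq_zero.1 h).resolve_left
        (pow_ne_zero _ Polynomial.X_ne_zero))
    · intro h
      rw [h, Polynomial.C_0, mul_zero]
  have hspan : Ideal.span S = I := by
    apply le_antisymm
    · rw [Ideal.span_le]
      intro F hF
      exact (hform F hF.2).2 (hy.sub.mem F hF.1)
    · intro F hF
      rw [← sum_homogeneousComponent F]
      refine Ideal.sum_mem _ fun i _ => Ideal.subset_span ?_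
      have h1 : aeval y (homogeneousComponent i F) = 0 := by
        rw [← cone_coeff]
        have h2 : cone y F = 0 := hF
        rw [h2, Polynomial.coeff_zero]
      exact ⟨hy.mem _ ⟨i, homogeneousComponent_isHomogeneous i F⟩ h1,
        i, homogeneousComponent_isHomogeneous i F⟩
  have hy' : FunField I 1 K w y := by
    refine ⟨⟨hy.sub.ne, fun H hH => ?_, hy.sub.off, hy.sub.gen, hy.sub.dim⟩, fun H hH h =>
      (hform H hH).2 h⟩
    change aeval y H = 0
    rw [← sum_homogeneousComponent H, map_sum]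
    refine Finset.sum_eq_zero fun i _ => ?_
    rw [← cone_coeff]
    have h2 : cone y H = 0 := hH
    rw [h2, Polynomial.coeff_zero]
  have hR : RatDeg I := (not_uniruled_iff hprime).1 (not_uniruled_of_kappa hy' hm hω hne)
  obtain ⟨G, ⟨e1, hG1⟩, hG2, hG3⟩ := hR δ
  obtain ⟨j0, hj0⟩ := Function.ne_iff.1 hy.sub.ne
  have hXj : (X j0 : MvPolynomial (Fin (N + 1)) ℂ) ∉ I := by
    rw [hform _ ⟨1, isHomogeneous_X _ _⟩, aeval_X]
    exact hj0
  have hprod : G * X j0 ∉ I := fun h => (hprime.mem_or_mem h).elim hG2 hXj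
  obtain ⟨x, hx1, hx2⟩ : ∃ x : Fin (N + 1) → ℂ, (∀ F ∈ I, eval x F = 0) ∧
      eval x (G * X j0) ≠ 0 := by
    by_contra hcon
    push Not at hcon
    apply hprod
    have h1 : G * X j0 ∈ vanishingIdeal ℂ (zeroLocus ℂ I) := by
      intro x hx
      have h2 := hcon x fun F hF => by
        have h3 := hx F hF
        rwa [MvPolynomial.aeval_def, Algebra.algebraMap_self] at h3
      rw [MvPolynomial.aeval_def, Algebra.algebraMap_self]
      exact h2
    rw [vanishingIdeal_zeroLocus_eq_radical, hprime.isRadical.radical] at h1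
    exact h1
  rw [map_mul, eval_X] at hx2
  have hxG : eval x G ≠ 0 := fun h => hx2 (by rw [h, zero_mul])
  have hxp : ∀ F ∈ p, (∃ e, F.IsHomogeneous e) → eval x F = 0 := fun F hF hFh =>
    hx1 F ((hform F hFh).2 (hy.sub.mem F hF))
  have hx0 : x ≠ 0 := fun h0 => hx2 (by rw [h0]; simp)
  have hon : OnRat (formsLe p D) δ x := (onR_iff hD δ x).2 (hcov x hx0 hxp)
  refine hxG (hon.zero fun q hq1 hq2 hq3 => ?_)
  refine hG3 q hq2 (fun F hF => ?_) hq1
  have h1 : Ideal.span S ≤ RingHom.ker (aeval q : MvPolynomial (Fin (N + 1)) ℂ →ₐ[ℂ] _) := by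
    rw [Ideal.span_le]
    rintro F ⟨hF, hFh⟩
    change aeval q F = 0
    apply Polynomial.funext
    intro t
    rw [eval_aeval_poly, Polynomial.eval_zero]
    refine hD _ (fun F' hF' => ?_) F hF hFh
    rw [← eval_aeval_poly, hq3 F' hF', Polynomial.eval_zero]
  rw [hspan] at h1
  exact h1 hF

/-- a point outside of the rational curves, for nonnegative Kodaira dimension -/
theorem kappa_point {p : Ideal (MvPolynomial (Fin (N + 1)) ℂ)} {K : Type} [Field K]
    [Algebra ℂ K] {w : ℕ} {y : Fin (N + 1) → K} (hy : FunField p 1 K w y)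
    (hL : ¬ KappaNeg K w) {D : ℕ} (hD : GivenBy p D) (δ : ℕ) :
    ∃ x : Fin (N + 1) → ℂ, x ≠ 0 ∧ (∀ F ∈ p, (∃ e, F.IsHomogeneous e) → eval x F = 0) ∧
      ¬ OnR p δ x := by
  by_contra hcon
  push Not at hcon
  exact hL (kappa_of_cover hy hD hcon)

/-- **Covering.** If the points on rational curves of degree at most `δ` lie in no hypersurface of
degree at most `E` which does not contain `X`, then they are all points of `X`. -/
theorem cover_of_dense (N D δ : ℕ) : ∃ E : ℕ, ∀ p : Ideal (MvPolynomial (Fin (N + 1)) ℂ),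
    GivenBy p D → (∀ G : MvPolynomial (Fin (N + 1)) ℂ, (∃ k, k ≤ E ∧ G.IsHomogeneous k) →
      (∃ x, (∀ F ∈ p, (∃ e, F.IsHomogeneous e) → eval x F = 0) ∧ eval x G ≠ 0) →
      ∃ x, x ≠ 0 ∧ OnR p δ x ∧ eval x G ≠ 0) →
      ∀ x : Fin (N + 1) → ℂ, x ≠ 0 →
        (∀ F ∈ p, (∃ e, F.IsHomogeneous e) → eval x F = 0) → OnR p δ x := by
  obtain ⟨E, hE⟩ := exc_closed N D δ
  refine ⟨E, fun p hD hdense x hx hxp => ?_⟩
  obtain ⟨Gs, hGs, hiff⟩ := hE p hD
  refine (hiff x hx).2 ⟨hxp, fun G hG => ?_⟩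
  by_contra hne
  obtain ⟨x', hx0, hon, hx'⟩ := hdense G (hGs G hG) ⟨x, hxp, hne⟩
  exact hx' (((hiff x' hx0).1 hon).2 G hG)

end Pool.Agent.Q171.RC
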