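import Pool.Agent.Q171.RC.Hyp
import Pool.Agent.Y719.SU.Main

/-!
Algebraic families of projective varieties over number fields: the members with finitely many
rational points contain no rational curves.
-/

set_option autoImplicit false

namespace Pool.Agent.Q171.RC

open MvPolynomial Pool.Agent.Y719.SU
open scoped LinearAlgebra.Projectivization
open Pool.Agent.TH143.HE (RCur)

/-- The projective variety of `S` over the field `L` has only finitely many points with coordinates
in `M`, for all finite extensions `M` of `L`. -/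
def FinPts {N : ℕ} {L : Type} [Field L] (S : Set (MvPolynomial (Fin N) L)) : Prop :=
  ∀ (M : Type) [Field M] [NumberField M] [Algebra L M],
    {P : ℙ M (Fin N → M) | ∀ F ∈ S, aeval P.rep F = 0}.Finite

theorem noRat_of_finPts {n : ℕ} {L : Type} [Field L] [NumberField L] (τ : L →+* ℂ)
    {S : Set (MvPolynomial (Fin (n + 1)) L)} (hS : ∀ F ∈ S, ∃ d, F.IsHomogeneous d)
    (h : FinPts S) (δ : ℕ) : NoRatLe (map τ '' S) δ := by
  classical
  have h1 : Finiteness (Ideal.span S) (⊤ : Ideal (MvPolynomial (Fin (n + 1)) L)) := by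
    intro M _ _ _
    refine (h M).subset ?_
    rintro P ⟨hP, -⟩ F hF
    have h2 := hP F (Ideal.subset_span hF) (hS F hF)
    rw [aeval_def]
    exact h2
  obtain ⟨hm, -, hfin⟩ := main τ (Ideal.span S) (⊤ : Ideal (MvPolynomial (Fin (n + 1)) L))
  have e3 : NoRat τ (Ideal.span S) ⊤ ↔ HtBound (Ideal.span S) ⊤ := hm.out 0 3
  have h2 : NoRat τ (Ideal.span S) ⊤ := e3.2 (hfin h1)
  intro p hp _
  by_contra hcon
  push Not at hcon
  apply h2 p
  refine ⟨?_, ⟨1, Submodule.mem_top, ⟨0, isHomogeneous_one _ _⟩, ?_⟩, ?_⟩
  · intro G hG _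
    have h3 : Ideal.span S ≤ RingHom.ker (eval₂Hom (Polynomial.C.comp τ) p) := by
      rw [Ideal.span_le]
      intro F hF
      change eval₂ (Polynomial.C.comp τ) p F = 0
      have h4 := hcon _ ⟨F, hF, rfl⟩
      rw [aeval_def, eval₂_map] at h4
      exact h4
    exact h3 hG
  · rw [← coe_eval₂Hom, map_one]
    exact one_ne_zero
  · by_contra hno
    push Not at hno
    obtain ⟨s, t, i, j, hne⟩ := hp
    apply hne
    rw [Polynomial.eval_eq_sum_range' (n := max (p i).natDegree (p j).natDegree + 1) (by omega),
      Polynomial.eval_eq_sum_range' (p := p j) (n := max (p i).natDegree (p j).natDegree + 1)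
        (by omega),
      Polynomial.eval_eq_sum_range' (p := p j) (n := max (p i).natDegree (p j).natDegree + 1)
        (by omega) s,
      Polynomial.eval_eq_sum_range' (p := p i) (n := max (p i).natDegree (p j).natDegree + 1)
        (by omega) t, Finset.sum_mul_sum, Finset.sum_mul_sum]
    refine Finset.sum_congr rfl fun a _ => Finset.sum_congr rfl fun b _ => ?_
    linear_combination s ^ a * t ^ b * hno i j a b

end Pool.Agent.Q171.RC
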