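import Mathlib

/-!
Rational curves over the quotient field of a valuation ring: limits in the special fibre.
-/

set_option autoImplicit false

namespace Pool.Agent.Q171.RC

open Polynomial IsLocalRing

/-- Nonconstant polynomial vector in homogeneous coordinates. -/
def NC {k : Type} [Field k] {N : ℕ} (p : Fin N → Polynomial k) : Prop :=
  ∃ s t i j, (p i).eval s * (p j).eval t ≠ (p j).eval s * (p i).eval t

theorem const_of_not_NC {k : Type} [Field k] [Infinite k] {N : ℕ} {p : Fin N → Polynomial k}
    (h : ¬ NC p) {j0 : Fin N} (hj0 : p j0 ≠ 0) :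
    ∃ (i0 : Fin N) (c : Fin N → k), p i0 ≠ 0 ∧ c i0 = 1 ∧ ∀ j, p j = C (c j) * p i0 := by
  obtain ⟨s, hs⟩ : ∃ s, (p j0).eval s ≠ 0 := by
    by_contra hcon
    push Not at hcon
    exact hj0 (Polynomial.funext fun s => by rw [hcon s, eval_zero])
  refine ⟨j0, fun j => (p j).eval s / (p j0).eval s, hj0, div_self hs, fun j => ?_⟩
  apply Polynomial.funext
  intro t
  rw [eval_mul, eval_C]
  have h1 : (p j0).eval s * (p j).eval t = (p j).eval s * (p j0).eval t := by
    by_contra h2
    exact h ⟨s, t, j0, j, h2⟩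
  field_simp
  linear_combination h1

variable {K : Type} [Field K] [IsAlgClosed K] {O : ValuationSubring K}

theorem algClosed_residue (O : ValuationSubring K) : IsAlgClosed (ResidueField O) := by
  refine IsAlgClosed.of_exists_root _ fun p hmon hirr => ?_
  obtain ⟨q, hq, hdeg, hqm⟩ := Polynomial.lifts_and_natDegree_eq_and_monic
    (f := residue O) (p := p) (by
      rw [Polynomial.lifts_iff_ringHom_rangeS]
      exact (Polynomial.mem_map_rangeS _).2 fun n => residue_surjective _) hmon
  have hd0 : (q.map (algebraMap O K)).degree ≠ 0 := by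
    rw [hqm.degree_map, Polynomial.degree_eq_natDegree hqm.ne_zero, hdeg]
    have := hirr.natDegree_pos
    exact_mod_cast this.ne'
  obtain ⟨x, hx⟩ := IsAlgClosed.exists_root _ hd0
  have hx' : IsIntegral O x := ⟨q, hqm, by
    rwa [IsRoot.def, eval_map] at hx⟩
  obtain ⟨y, rfl⟩ := (IsIntegrallyClosed.isIntegral_iff (R := O) (K := K)).1 hx'
  refine ⟨residue O y, ?_⟩
  have h1 : q.eval y = 0 := by
    have h2 : algebraMap O K (q.eval y) = 0 := by
      rw [← Polynomial.eval_map_apply]
      exact hx
    exact (map_eq_zero_iff _ (IsFractionRing.injective O K)).1 h2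
  rw [← hq, Polynomial.eval_map_apply, h1, map_zero]

omit [IsAlgClosed K] in
/-- polynomials with given coefficients in the valuation ring -/
theorem exists_poly {p : Polynomial O} {c : ℕ → K} (hc : ∀ l, c l ∈ O)
    (h0 : ∀ l, p.coeff l = 0 → c l = 0) :
    ∃ q : Polynomial O, ∀ l, (q.coeff l : K) = c l := by
  classical
  refine ⟨∑ l ∈ p.support, monomial l ⟨c l, hc l⟩, fun l => ?_⟩
  rw [finsetSum_coeff]
  simp only [coeff_monomial]
  rw [Finset.sum_ite_eq']
  split_ifs with h
  · rfl
  · rw [notMem_support_iff] at h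
    rw [h0 l h]
    rfl

omit [IsAlgClosed K] in
theorem v_lt_one {x : O} (h : residue O x = 0) : O.valuation (x : K) < 1 := by
  exact (ValuationSubring.valuation_lt_one_iff O x).1 ((residue_eq_zero_iff x).1 h)

omit [IsAlgClosed K] in
theorem res_zero {x : O} (h : O.valuation (x : K) < 1) : residue O x = 0 := by
  exact (residue_eq_zero_iff x).2 ((ValuationSubring.valuation_lt_one_iff O x).2 h)

theorem inner {N : ℕ} (m : ℕ) : ∀ (P : Fin N → Polynomial O) (i0 : Fin N),
    (P i0).coeff 0 = 0 → (∃ j, (P j).coeff 0 ≠ 0) →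
    (∀ j, j ≠ i0 → ∀ l, residue O ((P j).coeff l) = 0) →
    (∀ l, l < m → residue O ((P i0).coeff l) = 0) → residue O ((P i0).coeff m) ≠ 0 →
    ∃ (P' : Fin N → Polynomial O) (b lam : K), b ≠ 0 ∧ lam ≠ 0 ∧
      (∀ j l, ((P' j).coeff l : K) = lam * b ^ l * ((P j).coeff l : K)) ∧
      NC (fun j => (P' j).map (residue O)) := by
  classical
  induction m using Nat.strong_induction_on with
  | _ m ih =>
  intro P i0 h0 hne hred hlow hm
  have := algClosed_residue O
  have hinf : Infinite (ResidueField O) := IsAlgClosed.instInfinite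
  set v := O.valuation with hv
  have hm0 : 0 < m := by
    rcases Nat.eq_zero_or_pos m with h | h
    · subst h
      rw [h0, map_zero] at hm
      exact absurd rfl hm
    · exact h
  set u : K := ((P i0).coeff m : K) with hu
  have hvu : v u = 1 := by
    have h1 : IsUnit ((P i0).coeff m) := (residue_ne_zero_iff_isUnit _).1 hm
    exact (ValuationSubring.valuation_eq_one_iff O _).1 h1
  have hu0 : u ≠ 0 := by
    intro h
    rw [h, map_zero] at hvu
    exact zero_ne_one hvu
  have hlt : ∀ j l, l < m → v ((P j).coeff l : K) < 1 := by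
    intro j l hl
    by_cases hj : j = i0
    · subst hj
      exact v_lt_one (hlow l hl)
    · exact v_lt_one (hred j hj l)
  have hβ : ∀ x : Fin N × Fin m, ∃ z : K, z ^ (m - x.2.1) = ((P x.1).coeff x.2.1 : K) / u :=
    fun x => IsAlgClosed.exists_pow_nat_eq _ (by have := x.2.2; omega)
  choose β hβ using hβ
  obtain ⟨j1, hj1⟩ := hne
  have : Nonempty (Fin N × Fin m) := ⟨(j1, ⟨0, hm0⟩)⟩
  obtain ⟨x0, hx0⟩ := Finite.exists_max (fun x => v (β x))
  set b := β x0 with hb
  have hβ1 : v (β (j1, ⟨0, hm0⟩)) ≠ 0 := by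
    intro h
    rw [map_eq_zero] at h
    have h1 := hβ (j1, ⟨0, hm0⟩)
    rw [h, zero_pow (by simpa using hm0.ne')] at h1
    have h2 := (div_eq_zero_iff.1 h1.symm).resolve_right hu0
    apply hj1
    exact_mod_cast h2
  have hb0 : b ≠ 0 := by
    intro h
    have h1 := hx0 (j1, ⟨0, hm0⟩)
    rw [h, map_zero, le_zero_iff] at h1
    exact hβ1 h1
  have hvb0 : v b ≠ 0 := (map_ne_zero v).2 hb0
  have hvb : v b < 1 := by
    by_contra h
    rw [not_lt] at h
    have h1 := congrArg v (hβ x0)
    rw [map_pow, map_div₀, hvu, div_one] at h1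
    have h2 : 1 ≤ v b ^ (m - x0.2.1) := one_le_pow₀ h
    have h3 := hlt x0.1 x0.2.1 x0.2.2
    rw [← h1] at h3
    exact absurd h3 (not_lt.2 h2)
  let c : Fin N → ℕ → K := fun j l => (u * b ^ m)⁻¹ * b ^ l * ((P j).coeff l : K)
  have hclow : ∀ j (l : ℕ) (hl : l < m), c j l = (β (j, ⟨l, hl⟩) / b) ^ (m - l) := by
    intro j l hl
    have h1 := hβ (j, ⟨l, hl⟩)
    simp only at h1
    rw [div_pow, h1]
    simp only [c]
    have h2 : b ^ m = b ^ (m - l) * b ^ l := by rw [← pow_add, Nat.sub_add_cancel hl.le]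
    rw [h2]
    have h3 : b ^ (m - l) ≠ 0 := pow_ne_zero _ hb0
    have h4 : b ^ l ≠ 0 := pow_ne_zero _ hb0
    field_simp
  have hchigh : ∀ j (l : ℕ), m ≤ l → c j l = b ^ (l - m) * ((P j).coeff l : K) / u := by
    intro j l hl
    simp only [c]
    have h2 : b ^ l = b ^ (l - m) * b ^ m := by rw [← pow_add, Nat.sub_add_cancel hl]
    rw [h2]
    have h3 : b ^ m ≠ 0 := pow_ne_zero _ hb0
    field_simp
  have hvc : ∀ j l, v (c j l) ≤ 1 := by
    intro j l
    rcases lt_or_ge l m with hl | hl
    · rw [hclow j l hl, map_pow, map_div₀]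
      apply pow_le_one₀ zero_le
      exact div_le_one_of_le₀ (hx0 _) zero_le
    · rw [hchigh j l hl, map_div₀, hvu, div_one, map_mul, map_pow]
      exact mul_le_one' (pow_le_one₀ zero_le hvb.le) (ValuationSubring.valuation_le_one O _)
  have hcO : ∀ j l, c j l ∈ O := fun j l => (ValuationSubring.valuation_le_one_iff O _).1 (hvc j l)
  have hex : ∀ j, ∃ q : Polynomial O, ∀ l, (q.coeff l : K) = c j l := fun j =>
    exists_poly (p := P j) (hcO j) (fun l hl => by simp only [c, hl]; simp)
  choose P' hP' using hex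
  have hlam : (u * b ^ m)⁻¹ ≠ 0 := inv_ne_zero (mul_ne_zero hu0 (pow_ne_zero _ hb0))
  by_cases hNC : NC (fun j => (P' j).map (residue O))
  · exact ⟨P', b, (u * b ^ m)⁻¹, hb0, hlam, hP', hNC⟩
  -- the top coefficient
  have htop : (P' i0).coeff m = 1 := by
    apply Subtype.ext
    rw [hP', hchigh i0 m le_rfl, Nat.sub_self, pow_zero, one_mul]
    exact div_self hu0
  have htop' : ∀ j, j ≠ i0 → residue O ((P' j).coeff m) = 0 := by
    intro j hj
    apply res_zero
    rw [hP', hchigh j m le_rfl, Nat.sub_self, pow_zero, one_mul, map_div₀, ← hv, hvu, div_one]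
    exact v_lt_one (hred j hj m)
  have hne0 : (P' i0).map (residue O) ≠ 0 := by
    intro h
    have h1 := congrArg (fun p => coeff p m) h
    simp only [coeff_map, htop, map_one, coeff_zero] at h1
    exact one_ne_zero h1
  obtain ⟨i1, g, hi1, hg1, hg⟩ := const_of_not_NC hNC hne0
  have hH : g i0 ≠ 0 ∧ ((P' i1).map (residue O)).coeff m ≠ 0 := by
    have h1 := congrArg (fun p => coeff p m) (hg i0)
    simp only [coeff_map, htop, map_one, coeff_C_mul] at h1
    constructor
    · intro h
      rw [h, zero_mul] at h1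
      exact one_ne_zero h1
    · intro h
      rw [coeff_map] at h
      rw [h, mul_zero] at h1
      exact one_ne_zero h1
  have hz : ∀ j, j ≠ i0 → ∀ l, residue O ((P' j).coeff l) = 0 := by
    intro j hj l
    have h1 := congrArg (fun p => coeff p m) (hg j)
    simp only [coeff_map, coeff_C_mul] at h1
    rw [htop' j hj] at h1
    have h2 := hH.2
    rw [coeff_map] at h2
    have h3 : g j = 0 := (mul_eq_zero.1 h1.symm).resolve_right h2
    have h4 := congrArg (fun p => coeff p l) (hg j)
    simp only [coeff_map, coeff_C_mul, h3, zero_mul] at h4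
    exact h4
  have hx1 : (P' x0.1).coeff x0.2.1 = 1 := by
    apply Subtype.ext
    rw [hP', hclow x0.1 x0.2.1 x0.2.2]
    have : (β (x0.1, ⟨x0.2.1, x0.2.2⟩)) = b := rfl
    rw [this, div_self hb0, one_pow]
    rfl
  have hj0 : x0.1 = i0 := by
    by_contra h
    have h1 := hz x0.1 h x0.2.1
    rw [hx1, map_one] at h1
    exact one_ne_zero h1
  have hex2 : ∃ l, residue O ((P' i0).coeff l) ≠ 0 := ⟨x0.2.1, by
    rw [← hj0, hx1, map_one]
    exact one_ne_zero⟩
  have hm' : Nat.find hex2 < m := lt_of_le_of_lt (Nat.find_le (h := hex2) (n := x0.2.1) (by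
    rw [← hj0, hx1, map_one]
    exact one_ne_zero)) x0.2.2
  obtain ⟨P'', b', lam', hb', hlam', hP'', hNC'⟩ := ih (Nat.find hex2) hm' P' i0 (by
      apply Subtype.ext
      rw [hP']
      simp only [c, h0]
      simp) ⟨j1, fun h => hj1 (by
        have h1 := hP' j1 0
        rw [h] at h1
        simp only [c, pow_zero, mul_one] at h1
        have h2 := (mul_eq_zero.1 h1.symm).resolve_left hlam
        exact_mod_cast h2)⟩ hz (fun l hl => by
        have := Nat.find_min hex2 hl
        push Not at this
        exact this) (Nat.find_spec hex2)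
  refine ⟨P'', b' * b, lam' * (u * b ^ m)⁻¹, mul_ne_zero hb' hb0, mul_ne_zero hlam' hlam,
    fun j l => ?_, hNC'⟩
  rw [hP'', hP']
  simp only [c]
  rw [mul_pow]
  ring

/-- the polynomial over the big field -/
noncomputable abbrev PK (P : Polynomial O) : Polynomial K := P.map (algebraMap O K)

omit [IsAlgClosed K] in
theorem PK_coeff (P : Polynomial O) (l : ℕ) : (PK P).coeff l = (P.coeff l : K) := by
  rw [PK, coeff_map]
  rfl

theorem caseA {N : ℕ} (P : Fin N → Polynomial O) (i0 : Fin N) (γ : Fin N → O) (hγ : γ i0 = 0)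
    (hred : ∀ j, j ≠ i0 → (P j).map (residue O) = C (residue O (γ j)) * (P i0).map (residue O))
    (hne : (P i0).map (residue O) ≠ 0) (z : O) (hz : (P i0).eval z = 0)
    (hz' : ∃ j, (P j).eval z ≠ 0) :
    ∃ (S : Fin N → Polynomial O) (b lam : K), b ≠ 0 ∧ lam ≠ 0 ∧
      (∀ j, PK (S j) = C lam * (PK (P j)).comp (C b * X + C (z : K))) ∧
      NC (fun j => (S j).map (residue O)) := by
  classical
  let R : Fin N → Polynomial O := fun j => (P j - C (γ j) * P i0).comp (X + C z)
  have hR0 : ∀ j, (R j).coeff 0 = (P j).eval z := by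
    intro j
    simp only [R]
    rw [coeff_zero_eq_eval_zero, eval_comp, eval_add, eval_X, eval_C, zero_add, eval_sub, eval_mul,
      hz, mul_zero, sub_zero]
  have hRi : R i0 = (P i0).comp (X + C z) := by
    simp only [R, hγ, C_0, zero_mul, sub_zero]
  have hRne : (R i0).map (residue O) ≠ 0 := by
    rw [hRi, map_comp, Polynomial.map_add, map_X, map_C]
    intro h
    apply hne
    have h1 : ((P i0).map (residue O)).comp (X + C (residue O z)) = 0 := h
    have h2 := congrArg (fun q => q.comp (X - C (residue O z))) h1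
    simp only [comp_assoc, zero_comp] at h2
    have h3 : (X + C (residue O z)).comp (X - C (residue O z)) = X := by
      rw [add_comp, X_comp, C_comp, sub_add_cancel]
    rw [h3, comp_X] at h2
    exact h2
  have hex : ∃ l, residue O ((R i0).coeff l) ≠ 0 := by
    by_contra hcon
    push Not at hcon
    apply hRne
    ext l
    rw [coeff_map, hcon l, coeff_zero]
  obtain ⟨j1, hj1⟩ := hz'
  obtain ⟨P', b, lam, hb, hlam, hP', hNC⟩ := inner (Nat.find hex) R i0 (by rw [hR0, hz])
    ⟨j1, by rwa [hR0]⟩ (by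
      intro j hj l
      have h1 : (R j).map (residue O) = 0 := by
        simp only [R]
        rw [map_comp, Polynomial.map_sub, Polynomial.map_mul, map_C, hred j hj, sub_self, zero_comp]
      have h2 := congrArg (fun q => coeff q l) h1
      simpa only [coeff_map, coeff_zero] using h2)
    (fun l hl => by
      have := Nat.find_min hex hl
      push Not at this
      exact this) (Nat.find_spec hex)
  have hPK : ∀ j, PK (P' j) = C lam * (PK (R j)).comp (C b * X) := by
    intro j
    ext l
    rw [PK_coeff, hP', coeff_C_mul, comp_C_mul_X_coeff, PK_coeff]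
    ring
  have hPR : ∀ j, PK (R j) = (PK (P j) - C (γ j : K) * PK (P i0)).comp (X + C (z : K)) := by
    intro j
    simp only [R, PK]
    rw [map_comp, Polynomial.map_sub, Polynomial.map_mul, map_C, Polynomial.map_add, map_X, map_C]
    rfl
  refine ⟨fun j => P' j + C (γ j) * P' i0, b, lam, hb, hlam, fun j => ?_, ?_⟩
  · have h1 : (X + C (z : K)).comp (C b * X) = C b * X + C (z : K) := by
      rw [add_comp, X_comp, C_comp]
    have h2 : PK (P' j + C (γ j) * P' i0) = PK (P' j) + C (γ j : K) * PK (P' i0) := by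
      simp only [PK]
      rw [Polynomial.map_add, Polynomial.map_mul, map_C]
      rfl
    rw [h2, hPK, hPK, hPR, hPR, comp_assoc, comp_assoc, h1, hγ]
    simp only [sub_comp, mul_comp, C_comp, ZeroMemClass.coe_zero, C_0, zero_mul, sub_zero]
    ring
  · by_contra hcon
    obtain ⟨s, t, i, j, hst⟩ := hNC
    apply hst
    have hm : ∀ i j, ((P' i + C (γ i) * P' i0).map (residue O)).eval s *
        ((P' j + C (γ j) * P' i0).map (residue O)).eval t =
        ((P' j + C (γ j) * P' i0).map (residue O)).eval s *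
        ((P' i + C (γ i) * P' i0).map (residue O)).eval t := by
      intro i j
      by_contra h
      exact hcon ⟨s, t, i, j, h⟩
    have h1 := hm i j
    have h2 := hm i i0
    have h3 := hm i0 j
    simp only [hγ, Polynomial.map_add, Polynomial.map_mul, map_C, eval_add, eval_mul, eval_C, map_zero,
      zero_mul, add_zero] at h1 h2 h3
    linear_combination h1 - residue O (γ j) * h2 - residue O (γ i) * h3

theorem remove_gcd {k : Type} [Field k] {N : ℕ} (p : Fin N → Polynomial k) (hp : ∃ j, p j ≠ 0) :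
    ∃ (g : Polynomial k) (q : Fin N → Polynomial k), g ≠ 0 ∧ (∀ j, p j = g * q j) ∧
      ∀ t, ∃ j, (q j).eval t ≠ 0 := by
  classical
  set I := Ideal.span (Set.range p) with hI
  set g := Submodule.IsPrincipal.generator I with hg
  have h1 : ∀ j, g ∣ p j := fun j =>
    (Submodule.IsPrincipal.mem_iff_generator_dvd I).1 (Ideal.subset_span ⟨j, rfl⟩)
  choose q hq using h1
  have hg0 : g ≠ 0 := by
    intro h
    obtain ⟨j, hj⟩ := hp
    apply hj
    rw [hq j, h, zero_mul]
  refine ⟨g, q, hg0, hq, fun t => ?_⟩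
  obtain ⟨c, hc⟩ := (Ideal.mem_span_range_iff_exists_fun).1 (Submodule.IsPrincipal.generator_mem I)
  by_contra hcon
  push Not at hcon
  have h2 : g * (∑ i, c i * q i) = g * 1 := by
    have h3 : g * (∑ i, c i * q i) = ∑ i, c i * p i := by
      rw [Finset.mul_sum]
      refine Finset.sum_congr rfl fun i _ => ?_
      rw [hq i]
      ring
    rw [mul_one, h3, hc]
  have h3 := congrArg (fun r => r.eval t) (mul_left_cancel₀ hg0 h2)
  simp only [eval_finsetSum, eval_mul, hcon, mul_zero, Finset.sum_const_zero, eval_one] at h3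
  exact zero_ne_one h3

omit [IsAlgClosed K] in
theorem exists_int (O : ValuationSubring K) {N : ℕ} (q : Fin N → Polynomial K)
    (hq : ∃ j, q j ≠ 0) :
    ∃ (P : Fin N → Polynomial O) (u : K), u ≠ 0 ∧ (∀ j, PK (P j) = C u * q j) ∧
      ∃ j, (P j).map (residue O) ≠ 0 := by
  classical
  obtain ⟨j1, hj1⟩ := hq
  set T : Finset (Σ _ : Fin N, ℕ) := Finset.univ.sigma fun j => (q j).support with hT
  have hTne : T.Nonempty := ⟨⟨j1, (q j1).natDegree⟩, by
    rw [hT, Finset.mem_sigma]
    exact ⟨Finset.mem_univ _, natDegree_mem_support_of_nonzero hj1⟩⟩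
  obtain ⟨x, hxT, hx⟩ := T.exists_max_image (fun x => O.valuation ((q x.1).coeff x.2)) hTne
  have hx0 : (q x.1).coeff x.2 ≠ 0 := by
    rw [hT, Finset.mem_sigma] at hxT
    exact mem_support_iff.1 hxT.2
  have hv0 : O.valuation ((q x.1).coeff x.2) ≠ 0 := (_root_.map_ne_zero _).2 hx0
  have hmem : ∀ j l, ((q x.1).coeff x.2)⁻¹ * (q j).coeff l ∈ O := by
    intro j l
    rw [← ValuationSubring.valuation_le_one_iff, map_mul, map_inv₀]
    by_cases h : (q j).coeff l = 0
    · rw [h, map_zero, mul_zero]
      exact zero_le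
    · have h1 := hx ⟨j, l⟩ (by
        rw [hT, Finset.mem_sigma]
        exact ⟨Finset.mem_univ _, mem_support_iff.2 h⟩)
      have h2 : (O.valuation ((q x.1).coeff x.2))⁻¹ * O.valuation ((q j).coeff l) ≤
          (O.valuation ((q x.1).coeff x.2))⁻¹ * O.valuation ((q x.1).coeff x.2) :=
        mul_le_mul_right h1 _
      rwa [inv_mul_cancel₀ hv0] at h2
  let P : Fin N → Polynomial O := fun j => ∑ l ∈ (q j).support, monomial l ⟨_, hmem j l⟩
  have hP : ∀ j l, ((P j).coeff l : K) = ((q x.1).coeff x.2)⁻¹ * (q j).coeff l := by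
    intro j l
    simp only [P]
    rw [finsetSum_coeff]
    simp only [coeff_monomial]
    rw [Finset.sum_ite_eq']
    split_ifs with h
    · rfl
    · rw [notMem_support_iff] at h
      rw [h, mul_zero]
      rfl
  refine ⟨P, ((q x.1).coeff x.2)⁻¹, inv_ne_zero hx0, fun j => ?_, x.1, fun h => ?_⟩
  · ext l
    rw [PK_coeff, hP, coeff_C_mul]
  · have h1 := congrArg (fun r => coeff r x.2) h
    simp only [coeff_map, coeff_zero] at h1
    have h2 : (P x.1).coeff x.2 = 1 := by
      apply Subtype.ext
      rw [hP, inv_mul_cancel₀ hx0]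
      rfl
    rw [h2, map_one] at h1
    exact one_ne_zero h1

/-- **Limits of rational curves.** -/
theorem limit (O : ValuationSubring K) {N : ℕ} {p : Fin N → Polynomial K} (hp : NC p) {δ : ℕ}
    (hδ : ∀ j, (p j).natDegree ≤ δ) :
    ∃ S : Fin N → Polynomial O, NC (fun j => (S j).map (residue O)) ∧
      (∀ j, (S j).natDegree ≤ δ) ∧ ∃ E : Polynomial K, E ≠ 0 ∧ ∀ t, E.eval t ≠ 0 →
        ∃ t' μ, ∀ j, (PK (S j)).eval t = μ * (p j).eval t' := by
  classical
  have := algClosed_residue O
  have hinf : Infinite (ResidueField O) := IsAlgClosed.instInfinite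
  have hinjO : Function.Injective (algebraMap O K) := IsFractionRing.injective O K
  have hp0 : ∃ j, p j ≠ 0 := by
    obtain ⟨s, t, i, j, h⟩ := hp
    by_contra hcon
    push Not at hcon
    exact h (by rw [hcon i, hcon j])
  obtain ⟨g, q, hg, hq, hqz⟩ := remove_gcd p hp0
  obtain ⟨j0, hj0⟩ := hp0
  have hq0 : ∃ j, q j ≠ 0 := ⟨j0, fun h => hj0 (by rw [hq, h, mul_zero])⟩
  have hqδ : ∀ j, (q j).natDegree ≤ δ := by
    intro j
    by_cases h : q j = 0
    · rw [h, natDegree_zero]
      exact Nat.zero_le _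
    · refine le_trans ?_ (hδ j)
      rw [hq j, natDegree_mul hg h]
      exact Nat.le_add_left _ _
  obtain ⟨P, u, hu, hPq, j2, hj2⟩ := exists_int O q hq0
  have hdP : ∀ j, (P j).natDegree = (q j).natDegree := by
    intro j
    rw [← natDegree_map_eq_of_injective hinjO (P j)]
    change (PK (P j)).natDegree = _
    rw [hPq, natDegree_C_mul hu]
  by_cases hNC : NC (fun j => (P j).map (residue O))
  · refine ⟨P, hNC, fun j => (hdP j).trans_le (hqδ j), g, hg, fun t ht => ⟨t, u / g.eval t,
      fun j => ?_⟩⟩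
    rw [hPq, eval_mul, eval_C, hq j, eval_mul]
    field_simp
  obtain ⟨i0, c, hi0, hc1, hc⟩ := const_of_not_NC hNC hj2
  have hlift : ∀ j, ∃ y : O, residue O y = c j := fun j => residue_surjective _
  choose γ0 hγ0 using hlift
  let γ : Fin N → O := fun j => if j = i0 then 0 else γ0 j
  have hγi : γ i0 = 0 := if_pos rfl
  have hred : ∀ j, j ≠ i0 → (P j).map (residue O) =
      C (residue O (γ j)) * (P i0).map (residue O) := by
    intro j hj
    simp only [γ, if_neg hj, hγ0]
    exact hc j
  by_cases hroot : ∃ z : O, (P i0).eval z = 0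
  · obtain ⟨z, hz⟩ := hroot
    obtain ⟨j3, hj3⟩ := hqz (z : K)
    have hev : ∀ j, (((P j).eval z : O) : K) = u * (q j).eval (z : K) := by
      intro j
      have h1 : algebraMap O K ((P j).eval z) = (PK (P j)).eval (algebraMap O K z) :=
        (eval_map_apply _ _).symm
      rw [hPq, eval_mul, eval_C] at h1
      exact h1
    obtain ⟨S, b, lam, hb, hlam, hS, hSN⟩ := caseA P i0 γ hγi hred hi0 z hz ⟨j3, fun h => by
      have h1 := hev j3
      rw [h] at h1
      exact (mul_ne_zero hu hj3) h1.symm⟩
    have hlin : (C b * X + C (z : K)).natDegree = 1 := natDegree_linear hb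
    refine ⟨S, hSN, fun j => ?_, g.comp (C b * X + C (z : K)), ?_, fun t ht => ?_⟩
    · rw [← natDegree_map_eq_of_injective hinjO (S j)]
      change (PK (S j)).natDegree ≤ _
      rw [hS, natDegree_C_mul hlam, natDegree_comp, hlin, mul_one,
        natDegree_map_eq_of_injective hinjO, hdP]
      exact hqδ j
    · rw [Ne, comp_eq_zero_iff]
      push Not
      refine ⟨hg, fun _ h => ?_⟩
      rw [h, natDegree_C] at hlin
      exact absurd hlin (by norm_num)
    · rw [eval_comp] at ht
      refine ⟨(C b * X + C (z : K)).eval t, lam * (u / g.eval ((C b * X + C (z : K)).eval t)),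
        fun j => ?_⟩
      rw [hS, eval_mul, eval_C, eval_comp, hPq, eval_mul, eval_C, hq j, eval_mul]
      field_simp
  -- the reversed polynomials
  push Not at hroot
  set δ' := Finset.univ.sup fun j => (P j).natDegree with hδ'
  have hle : ∀ j, (P j).natDegree ≤ δ' := fun j =>
    Finset.le_sup (f := fun j => (P j).natDegree) (Finset.mem_univ j)
  have hδδ : δ' ≤ δ := Finset.sup_le fun j _ => (hdP j).trans_le (hqδ j)
  have hNn : (Finset.univ : Finset (Fin N)).Nonempty := ⟨i0, Finset.mem_univ _⟩
  obtain ⟨j4, -, hj4⟩ := Finset.exists_mem_eq_sup _ hNn fun j => (P j).natDegree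
  have hδ1 : 0 < δ' := by
    rcases Nat.eq_zero_or_pos δ' with h | h
    · exfalso
      have hc0 : ∀ j, (q j).natDegree = 0 := fun j => by
        have := hle j
        rw [h, hdP] at this
        omega
      obtain ⟨s, t, i, j, hst⟩ := hp
      apply hst
      rw [hq i, hq j, eq_C_of_natDegree_eq_zero (hc0 i), eq_C_of_natDegree_eq_zero (hc0 j)]
      simp only [eval_mul, eval_C]
      ring
    · exact h
  have hlead : (P j4).coeff δ' ≠ 0 := by
    rw [hδ', hj4, coeff_natDegree, leadingCoeff_ne_zero]
    intro h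
    have h1 : δ' = 0 := by rw [hδ', hj4, h, natDegree_zero]
    omega
  let P2 : Fin N → Polynomial O := fun j => reflect δ' (P j)
  have hrev : ∀ (j : Fin N) (w : K), w ≠ 0 →
      (PK (P2 j)).eval w = w ^ δ' * (PK (P j)).eval w⁻¹ := by
    intro j w hw
    let _ : Invertible (w⁻¹) := invertibleOfNonzero (inv_ne_zero hw)
    have h1 := eval₂_reflect_mul_pow (algebraMap O K) (w⁻¹) δ' (P j) (hle j)
    rw [invOf_eq_inv, inv_inv] at h1
    rw [PK, PK, eval_map, eval_map, ← h1]
    simp only [P2]
    rw [inv_pow]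
    field_simp
  have hred2 : ∀ j, j ≠ i0 → (P2 j).map (residue O) =
      C (residue O (γ j)) * (P2 i0).map (residue O) := by
    intro j hj
    simp only [P2]
    rw [← reflect_map, ← reflect_map, hred j hj, reflect_C_mul]
  have hne2 : (P2 i0).map (residue O) ≠ 0 := by
    simp only [P2]
    rw [← reflect_map]
    intro h
    exact hi0 (reflect_eq_zero_iff.1 h)
  obtain ⟨z, hz, hz'⟩ : ∃ z : O, (P2 i0).eval z = 0 ∧ ∃ j, (P2 j).eval z ≠ 0 := by
    by_cases hcoef : (P i0).coeff δ' = 0
    · refine ⟨0, ?_, j4, ?_⟩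
      · rw [← coeff_zero_eq_eval_zero]
        simp only [P2]
        rw [coeff_reflect, revAt_le (Nat.zero_le _), Nat.sub_zero, hcoef]
      · rw [← coeff_zero_eq_eval_zero]
        simp only [P2]
        rw [coeff_reflect, revAt_le (Nat.zero_le _), Nat.sub_zero]
        exact hlead
    · have hnd : (P i0).natDegree = δ' := le_antisymm (hle i0) (le_natDegree_of_ne_zero hcoef)
      have hd0 : (PK (P i0)).degree ≠ 0 := by
        intro h
        have h1 : (PK (P i0)).natDegree = 0 := natDegree_eq_of_degree_eq_some (by simpa using h)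
        rw [natDegree_map_eq_of_injective hinjO, hnd] at h1
        omega
      obtain ⟨y, hy⟩ := IsAlgClosed.exists_root _ hd0
      have hyO : y ∉ O := by
        intro hyO
        apply hroot ⟨y, hyO⟩
        apply hinjO
        rw [map_zero, ← eval_map_apply]
        exact hy
      have hy0 : y ≠ 0 := fun h => hyO (h ▸ O.zero_mem)
      have hyi : y⁻¹ ∈ O := (O.mem_or_inv_mem y).resolve_left hyO
      have hevz : ∀ j, algebraMap O K ((P2 j).eval ⟨y⁻¹, hyi⟩) =
          (y⁻¹) ^ δ' * (PK (P j)).eval y := by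
        intro j
        have h1 : algebraMap O K ((P2 j).eval ⟨y⁻¹, hyi⟩) = (PK (P2 j)).eval (y⁻¹) :=
          (eval_map_apply _ _).symm
        rw [h1, hrev j _ (inv_ne_zero hy0), inv_inv]
      refine ⟨⟨y⁻¹, hyi⟩, ?_, ?_⟩
      · apply hinjO
        rw [map_zero, hevz]
        have : (PK (P i0)).eval y = 0 := hy
        rw [this, mul_zero]
      · obtain ⟨j5, hj5⟩ := hqz y
        refine ⟨j5, fun h => ?_⟩
        have h1 := hevz j5
        rw [h, map_zero, hPq, eval_mul, eval_C] at h1
        exact (mul_ne_zero (pow_ne_zero _ (inv_ne_zero hy0)) (mul_ne_zero hu hj5)) h1.symm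
  obtain ⟨S, b, lam, hb, hlam, hS, hSN⟩ := caseA P2 i0 γ hγi hred2 hne2 z hz hz'
  have hlin : (C b * X + C (z : K)).natDegree = 1 := natDegree_linear hb
  have hlin0 : C b * X + C (z : K) ≠ 0 := by
    intro h
    rw [h, natDegree_zero] at hlin
    exact absurd hlin (by norm_num)
  refine ⟨S, hSN, fun j => ?_, (C b * X + C (z : K)) * g.reverse.comp (C b * X + C (z : K)), ?_,
    fun t ht => ?_⟩
  · rw [← natDegree_map_eq_of_injective hinjO (S j)]
    change (PK (S j)).natDegree ≤ _
    rw [hS, natDegree_C_mul hlam, natDegree_comp, hlin, mul_one,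
      natDegree_map_eq_of_injective hinjO]
    simp only [P2]
    refine (natDegree_reflect_le).trans (max_le hδδ ((hle j).trans hδδ))
  · apply mul_ne_zero hlin0
    rw [Ne, comp_eq_zero_iff]
    push Not
    refine ⟨fun h => hg ((reverse_eq_zero).1 h), fun _ h => ?_⟩
    rw [h, natDegree_C] at hlin
    exact absurd hlin (by norm_num)
  · rw [eval_mul, eval_comp] at ht
    set w := (C b * X + C (z : K)).eval t with hw
    have hw0 : w ≠ 0 := left_ne_zero_of_mul ht
    have hgw : g.eval w⁻¹ ≠ 0 := by
      intro h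
      apply right_ne_zero_of_mul ht
      let _ : Invertible (w⁻¹) := invertibleOfNonzero (inv_ne_zero hw0)
      have h1 := eval₂_reverse_mul_pow (RingHom.id K) (w⁻¹) g
      rw [invOf_eq_inv, inv_inv, eval₂_id, eval₂_id, h] at h1
      exact (mul_eq_zero.1 h1).resolve_right (pow_ne_zero _ (inv_ne_zero hw0))
    refine ⟨w⁻¹, lam * w ^ δ' * (u / g.eval w⁻¹), fun j => ?_⟩
    rw [hS, eval_mul, eval_C, eval_comp, ← hw, hrev j w hw0, hPq, eval_mul, eval_C, hq j, eval_mul]
    generalize w⁻¹ = y at hgw ⊢
    field_simp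

theorem map_aeval_poly {A B : Type} [CommRing A] [CommRing B] (φ : A →+* B) {N : ℕ}
    (p : Fin N → Polynomial A) (F : MvPolynomial (Fin N) A) :
    (MvPolynomial.aeval p F).map φ =
      MvPolynomial.aeval (fun j => (p j).map φ) (MvPolynomial.map φ F) := by
  induction F using MvPolynomial.induction_on with
  | C a =>
    rw [MvPolynomial.aeval_C, MvPolynomial.map_C, MvPolynomial.aeval_C]
    exact map_C φ
  | add p q hp hq => rw [map_add, map_add, map_add, Polynomial.map_add, hp, hq]
  | mul_X p i hp =>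
    rw [map_mul, map_mul, map_mul, Polynomial.map_mul, hp, MvPolynomial.aeval_X,
      MvPolynomial.map_X, MvPolynomial.aeval_X]

theorem eval_aeval_poly {A : Type} [CommRing A] {N : ℕ}
    (p : Fin N → Polynomial A) (F : MvPolynomial (Fin N) A) (t : A) :
    (MvPolynomial.aeval p F).eval t = MvPolynomial.eval (fun j => (p j).eval t) F := by
  induction F using MvPolynomial.induction_on with
  | C a =>
    rw [MvPolynomial.aeval_C, MvPolynomial.eval_C]
    exact eval_C
  | add p q hp hq => rw [map_add, map_add, eval_add, hp, hq]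
  | mul_X p i hp => rw [map_mul, map_mul, eval_mul, hp, MvPolynomial.aeval_X, MvPolynomial.eval_X]

theorem eval_smul_homog {A : Type} [CommRing A] {N d : ℕ} {F : MvPolynomial (Fin N) A}
    (hF : F.IsHomogeneous d) (c : A) (v : Fin N → A) :
    MvPolynomial.eval (fun j => c * v j) F = c ^ d * MvPolynomial.eval v F := by
  rw [MvPolynomial.eval_eq, MvPolynomial.eval_eq, Finset.mul_sum]
  refine Finset.sum_congr rfl fun s hs => ?_
  have hd : ∑ i, s i = d := by
    have := hF (MvPolynomial.mem_support_iff.mp hs)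
    rw [← this, Finsupp.weight_apply, Finsupp.sum_fintype _ _ (fun _ => by simp)]
    simp
  simp only [mul_pow]
  rw [Finset.prod_mul_distrib]
  have h1 : ∏ i ∈ s.support, c ^ s i = c ^ d := by
    rw [Finset.prod_pow_eq_pow_sum]
    congr 1
    rw [← hd]
    exact Finset.sum_subset (Finset.subset_univ _) (fun i _ hi => by simpa using hi)
  rw [h1]
  ring

/-- limits of rational curves on projective varieties -/
theorem limit_on (O : ValuationSubring K) {N : ℕ} {p : Fin N → Polynomial K} (hp : NC p) {δ : ℕ}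
    (hδ : ∀ j, (p j).natDegree ≤ δ) :
    ∃ P : Fin N → Polynomial (ResidueField O), NC P ∧ (∀ j, (P j).natDegree ≤ δ) ∧
      ∀ (F : MvPolynomial (Fin N) O) (d : ℕ), F.IsHomogeneous d →
        MvPolynomial.aeval p (MvPolynomial.map (algebraMap O K) F) = 0 →
        MvPolynomial.aeval P (MvPolynomial.map (residue O) F) = 0 := by
  obtain ⟨S, hS1, hS2, E, hE, hE'⟩ := limit O hp hδ
  refine ⟨_, hS1, fun j => natDegree_map_le.trans (hS2 j), fun F d hF h0 => ?_⟩
  rw [← map_aeval_poly]
  have h1 : MvPolynomial.aeval S F = 0 := by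
    apply Polynomial.map_injective (algebraMap O K) (IsFractionRing.injective O K)
    rw [Polynomial.map_zero, map_aeval_poly]
    have h2 : MvPolynomial.aeval (fun j => PK (S j)) (MvPolynomial.map (algebraMap O K) F) * E =
        0 := by
      apply Polynomial.funext
      intro t
      rw [eval_mul, eval_zero]
      by_cases ht : E.eval t = 0
      · rw [ht, mul_zero]
      · obtain ⟨t', μ, h3⟩ := hE' t ht
        rw [eval_aeval_poly]
        have h4 : (fun j => (PK (S j)).eval t) = fun j => μ * (p j).eval t' := funext h3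
        rw [h4, eval_smul_homog (hF.map _), ← eval_aeval_poly, h0, eval_zero, mul_zero, zero_mul]
    exact (mul_eq_zero.1 h2).resolve_right hE
  rw [h1, Polynomial.map_zero]

end Pool.Agent.Q171.RC
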