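import Pool.Agent.Q171.RC.PtFam

/-!
The union of the rational curves of bounded degree in the members of an algebraic family of
projective varieties.
-/

set_option autoImplicit false

namespace Pool.Agent.Q171.RC

open MvPolynomial

section Basic

variable {A K : Type} [CommRing A] [Field K] [Infinite K] {N δ : ℕ} {φ : A →+* K}
  {S : Set (MvPolynomial (Fin N) A)}

omit [Infinite K] in
theorem NC.cmul {p : Fin N → Polynomial K} (hp : NC p) {c : K} (hc : c ≠ 0) :
    NC fun j => Polynomial.C c * p j := by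
  obtain ⟨s, t, i, j, hne⟩ := hp
  refine ⟨s, t, i, j, fun h0 => hne ?_⟩
  simp only [Polynomial.eval_mul, Polynomial.eval_C] at h0
  apply mul_left_cancel₀ (mul_ne_zero hc hc)
  linear_combination h0

theorem HasPt.smul (hS : ∀ F ∈ S, ∃ d, F.IsHomogeneous d) {x : Fin N → K}
    (h : HasPt φ S δ x) {c : K} (hc : c ≠ 0) : HasPt φ S δ fun j => c * x j := by
  obtain ⟨p, h1, h2, h3, h4⟩ := h
  refine ⟨fun j => Polynomial.C c * p j, h1.cmul hc, fun j =>
    (Polynomial.natDegree_C_mul_le _ _).trans (h2 j), fun F hF => ?_, fun j => ?_⟩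
  · obtain ⟨d, hd⟩ := hS F hF
    refine forms_of_sub (p := p) (E := 1) one_ne_zero (fun t _ => ⟨t, c, fun j => ?_⟩) (hd.map _)
      (h3 F hF)
    rw [Polynomial.eval_mul, Polynomial.eval_C]
  · rw [Polynomial.eval_mul, Polynomial.eval_C, h4 j]

theorem HasPt.of_curve (hS : ∀ F ∈ S, ∃ d, F.IsHomogeneous d) {p : Fin N → Polynomial K}
    (hp : NC p) (hdeg : ∀ j, (p j).natDegree ≤ δ) (hF : ∀ F ∈ S, aeval p (map φ F) = 0) (t : K) :
    HasPt φ S δ fun j => (p j).eval t := by
  have hev : ∀ j s, ((p j).comp (Polynomial.X + Polynomial.C t)).eval s = (p j).eval (s + t) := by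
    intro j s
    rw [Polynomial.eval_comp, Polynomial.eval_add, Polynomial.eval_X, Polynomial.eval_C]
  refine ⟨fun j => (p j).comp (Polynomial.X + Polynomial.C t), ?_, fun j => ?_, fun F hFS => ?_,
    fun j => ?_⟩
  · obtain ⟨s, s', i, j, hne⟩ := hp
    refine ⟨s - t, s' - t, i, j, ?_⟩
    simp only [hev, sub_add_cancel]
    exact hne
  · rw [Polynomial.natDegree_comp, Polynomial.natDegree_X_add_C, mul_one]
    exact hdeg j
  · obtain ⟨d, hd⟩ := hS F hFS
    refine forms_of_sub (p := p) (E := 1) one_ne_zero (fun s _ => ⟨s + t, 1, fun j => ?_⟩)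
      (hd.map _) (hF F hFS)
    rw [hev, one_mul]
  · rw [hev, zero_add]

theorem HasPt.mono {x : Fin N → K} {δ' : ℕ} (h : HasPt φ S δ x) (hδ : δ ≤ δ') :
    HasPt φ S δ' x := by
  obtain ⟨p, h1, h2, h3, h4⟩ := h
  exact ⟨p, h1, fun j => (h2 j).trans hδ, h3, h4⟩

end Basic

variable {k σ : Type} [Field k] {N : ℕ}

/-- **The locus.** The union of the rational curves of degree at most `δ` in the members of an
algebraic family of projective varieties is given by finitely many forms. -/
theorem locus [Finite σ] (K : Type) [Field K] [IsAlgClosed K] [Algebra k K]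
    (S : Set (MvPolynomial (Fin N) (MvPolynomial σ k))) (hS : ∀ F ∈ S, ∃ d, F.IsHomogeneous d)
    (δ : ℕ) :
    ∃ Gs : Finset (MvPolynomial (Fin N) (MvPolynomial σ k)), (∀ G ∈ Gs, ∃ d, G.IsHomogeneous d) ∧
      ∀ (t : σ → K) (x : Fin N → K), x ≠ 0 →
        ((∀ G ∈ Gs, eval x (map (ev t) G) = 0) ↔ HasPt (ev t : MvPolynomial σ k →+* K) S δ x) := by
  classical
  have hinf : Infinite K := IsAlgClosed.instInfinite
  set Good : Set (MvPolynomial (Fin N) (MvPolynomial σ k)) := {G | (∃ d, G.IsHomogeneous d) ∧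
    ∀ (t : σ → K) (x : Fin N → K), x ≠ 0 → HasPt (ev t : MvPolynomial σ k →+* K) S δ x →
      eval x (map (ev t) G) = 0} with hGood
  have hfg : (Ideal.span Good).FG := IsNoetherian.noetherian _
  obtain ⟨Gs, hGs1, hGs2⟩ := (Submodule.fg_span_iff_fg_span_finset_subset _).1 hfg
  refine ⟨Gs, fun G hG => (hGs1 hG).1, fun t x hx => ⟨fun h => ?_, fun h G hG =>
    (hGs1 hG).2 t x hx h⟩⟩
  have hall : ∀ G ∈ Good, eval x (map (ev t) G) = 0 := by
    intro G hG
    have h1 : G ∈ Ideal.span (Gs : Set (MvPolynomial (Fin N) (MvPolynomial σ k))) := by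
      have h2 : G ∈ Ideal.span Good := Ideal.subset_span hG
      unfold Ideal.span at h2 ⊢
      rwa [hGs2] at h2
    have h2 : Ideal.span (Gs : Set (MvPolynomial (Fin N) (MvPolynomial σ k))) ≤
        RingHom.ker ((eval x).comp (map (ev t : MvPolynomial σ k →+* K))) := by
      rw [Ideal.span_le]
      intro G' hG'
      exact h G' hG'
    exact h2 h1
  by_contra hno
  -- the family over the product
  let ι : MvPolynomial σ k →+* MvPolynomial (Fin N ⊕ σ) k := (rename Sum.inr).toRingHom
  have hι : ∀ y : Fin N ⊕ σ → K, (ev y : MvPolynomial (Fin N ⊕ σ) k →+* K).comp ι =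
      ev (fun i => y (Sum.inr i)) := by
    intro y
    apply RingHom.ext
    intro Ψ
    change aeval y (rename Sum.inr Ψ) = aeval (fun i => y (Sum.inr i)) Ψ
    rw [aeval_rename]
    rfl
  have hpt : ∀ y : Fin N ⊕ σ → K, HasPt (ev y : MvPolynomial (Fin N ⊕ σ) k →+* K) (map ι '' S) δ
      (fun j => aeval y (X (Sum.inl j) : MvPolynomial (Fin N ⊕ σ) k)) ↔
      HasPt (ev (fun i => y (Sum.inr i)) : MvPolynomial σ k →+* K) S δ
        (fun j => y (Sum.inl j)) := by
    intro y
    constructor
    · rintro ⟨p, h1, h2, h3, h4⟩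
      refine ⟨p, h1, h2, fun F hF => ?_, fun j => ?_⟩
      · have h5 := h3 _ ⟨F, hF, rfl⟩
        rwa [map_map, hι] at h5
      · refine (h4 j).trans ?_
        beta_reduce
        rw [aeval_X]
    · rintro ⟨p, h1, h2, h3, h4⟩
      refine ⟨p, h1, h2, ?_, fun j => ?_⟩
      · rintro _ ⟨F, hF, rfl⟩
        rw [map_map, hι]
        exact h3 F hF
      · refine (h4 j).trans ?_
        beta_reduce
        rw [aeval_X]
  obtain ⟨Ψ, hΨ1, hΨ2⟩ := closed_pt (K := K) (map ι '' S) (by
      rintro _ ⟨F, hF, rfl⟩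
      obtain ⟨d, hd⟩ := hS F hF
      exact ⟨d, hd.map _⟩) δ (fun j => X (Sum.inl j)) (t0 := Sum.elim x t) (by
      obtain ⟨j, hj⟩ := Function.ne_iff.1 hx
      exact ⟨j, by rw [aeval_X]; exact hj⟩) (by
      rw [hpt]
      exact hno)
  -- homogeneous components
  obtain ⟨G, hG⟩ : ∃ G, G = sumToIter k (Fin N) σ Ψ := ⟨_, rfl⟩
  have hev : ∀ (t : σ → K) (x : Fin N → K), eval x (map (ev t) G) = aeval (Sum.elim x t) Ψ := by
    intro t x
    have h1 : ((eval x).comp (map (ev t : MvPolynomial σ k →+* K))).comp (sumToIter k (Fin N) σ) =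
        (aeval (Sum.elim x t) : MvPolynomial (Fin N ⊕ σ) k →ₐ[k] K).toRingHom := by
      apply MvPolynomial.ringHom_ext
      · intro a
        simp only [RingHom.comp_apply, sumToIter_C, map_C, eval_C]
        simp
      · rintro (j | i)
        · simp only [RingHom.comp_apply, sumToIter_Xl, map_X, eval_X]
          simp
        · simp only [RingHom.comp_apply, sumToIter_Xr, map_C, eval_C]
          simp
    rw [hG]
    exact congrArg (fun f : MvPolynomial (Fin N ⊕ σ) k →+* K => f Ψ) h1
  have hcomp : ∀ d, homogeneousComponent d G ∈ Good := by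
    intro d
    refine ⟨⟨d, homogeneousComponent_isHomogeneous d G⟩, fun t' x' hx' hp' => ?_⟩
    -- a polynomial with infinitely many zeros
    let R : Polynomial K := ∑ i ∈ Finset.range (G.totalDegree + 1),
      Polynomial.monomial i (eval x' (map (ev t') (homogeneousComponent i G)))
    have hR : ∀ c : K, R.eval c = eval (fun j => c * x' j) (map (ev t') G) := by
      intro c
      simp only [R, Polynomial.eval_finsetSum, Polynomial.eval_monomial]
      conv_rhs => rw [← sum_homogeneousComponent G]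
      rw [map_sum, map_sum]
      refine Finset.sum_congr rfl fun i _ => ?_
      rw [eval_smul_homog ((homogeneousComponent_isHomogeneous i G).map _)]
      ring
    have hR0 : Polynomial.X * R = 0 := by
      apply Polynomial.funext
      intro c
      rw [Polynomial.eval_mul, Polynomial.eval_X, Polynomial.eval_zero]
      by_cases hc : c = 0
      · rw [hc, zero_mul]
      · have h5 : HasPt (ev t' : MvPolynomial σ k →+* K) S δ (fun j => c * x' j) := hp'.smul hS hc
        have h6 := hΨ2 (Sum.elim (fun j => c * x' j) t')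
          ((hpt (Sum.elim (fun j => c * x' j) t')).2 h5)
        rw [hR, hev, h6, mul_zero]
    have hR1 : R = 0 := (mul_eq_zero.1 hR0).resolve_left Polynomial.X_ne_zero
    by_cases hd : d ∈ Finset.range (G.totalDegree + 1)
    · have h1 := congrArg (fun q => Polynomial.coeff q d) hR1
      simp only [R, Polynomial.finsetSum_coeff, Polynomial.coeff_monomial,
        Polynomial.coeff_zero] at h1
      rw [Finset.sum_ite_eq' , if_pos hd] at h1
      exact h1
    · have hd' : G.totalDegree < d := by
        rw [Finset.mem_range] at hd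
        omega
      have h0 : homogeneousComponent d G = 0 := homogeneousComponent_eq_zero d G hd'
      rw [h0, map_zero, map_zero]
  apply hΨ1
  rw [← hev t x, ← sum_homogeneousComponent G, map_sum, map_sum]
  exact Finset.sum_eq_zero fun d _ => hall _ (hcomp d)

end Pool.Agent.Q171.RC
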