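import Pool.Agent.Q171.RC.Strong
import Pool.Agent.Q171.RC.Hyp
import Pool.Agent.W602.GT.Cls

/-!
Subvarieties which are not of general type through the points of rational curves.
-/

set_option autoImplicit false

namespace Pool.Agent.Q171.RC

open MvPolynomial Pool.Agent.W602.GT

/-- The point `x` lies on an irreducible closed subvariety of dimension one of the projective variety
of `S` which is not of general type. -/
def OnNonGT {n : ℕ} (S : Set (MvPolynomial (Fin (n + 1)) ℂ)) (x : Fin (n + 1) → ℂ) : Prop :=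
  ∃ (K : Type) (_ : Field K) (_ : Algebra ℂ K) (y : Fin (n + 1) → K),
    SubVar (fun F : S => F.1) K 1 y ∧ ¬ GeneralType ℂ K 1 ∧
      ∀ G : MvPolynomial (Fin (n + 1)) ℂ, IsForm G → val y G = 0 → eval x G = 0

theorem nonGT_through {n : ℕ} {S : Set (MvPolynomial (Fin (n + 1)) ℂ)}
    (hS : ∀ F ∈ S, ∃ d, F.IsHomogeneous d) {δ : ℕ} {x : Fin (n + 1) → ℂ} (h : OnRat S δ x) :
    OnNonGT S x := by
  obtain ⟨p, hp1, -, hp3, hp4⟩ := h
  have hp0 : ∃ j, p j ≠ 0 := by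
    obtain ⟨s, t, i, j, h⟩ := hp1
    by_contra hcon
    push Not at hcon
    exact h (by rw [hcon i, hcon j])
  obtain ⟨j0, hj0⟩ := hp0
  let y : Fin (n + 1) → RatFunc ℂ := fun i => algebraMap (Polynomial ℂ) (RatFunc ℂ) (p i)
  have hinj : Function.Injective (algebraMap (Polynomial ℂ) (RatFunc ℂ)) :=
    RatFunc.algebraMap_injective ℂ
  have hy : ∀ G : MvPolynomial (Fin (n + 1)) ℂ,
      val y G = algebraMap (Polynomial ℂ) (RatFunc ℂ) (aeval p G) := by
    intro G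
    unfold val
    exact MvPolynomial.aeval_algebraMap_apply (RatFunc ℂ) p G
  have hj0' : y j0 ≠ 0 := by
    intro h0
    exact hj0 (hinj (by rw [map_zero]; exact h0))
  have hmem : ∀ F : S, val y F.1 = 0 := by
    intro F
    rw [hy, hp3 F.1 F.2, map_zero]
  have hnc : coords ℂ y ≠ ⊥ := by
    intro hbot
    have hc : ∀ i, ∃ c : ℂ, p i = Polynomial.C c * p j0 := by
      intro i
      have h1 : y i / y j0 ∈ coords ℂ y :=
        IntermediateField.subset_adjoin ℂ _ ⟨i, j0, hj0', rfl⟩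
      rw [hbot, IntermediateField.mem_bot] at h1
      obtain ⟨c, hc⟩ := h1
      refine ⟨c, hinj ?_⟩
      rw [map_mul]
      have h2 : algebraMap (Polynomial ℂ) (RatFunc ℂ) (Polynomial.C c) =
          algebraMap ℂ (RatFunc ℂ) c := by
        rw [IsScalarTower.algebraMap_apply ℂ (Polynomial ℂ) (RatFunc ℂ)]
        rfl
      rw [h2, hc]
      change y i = y i / y j0 * y j0
      field_simp
    choose c hc using hc
    obtain ⟨s, t, i, j, hne⟩ := hp1
    apply hne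
    rw [hc i, hc j]
    simp only [Polynomial.eval_mul, Polynomial.eval_C]
    ring
  obtain ⟨y', hs, hgt, hG⟩ := rational_sub (F := fun F : S => F.1) (fun F => hS F.1 F.2) y hj0' hmem
    hnc
  refine ⟨_, _, _, y', hs, hgt, fun G hGf hG0 => ?_⟩
  have h1 := hG G hGf hG0
  rw [hy, ← map_zero (algebraMap (Polynomial ℂ) (RatFunc ℂ))] at h1
  have h2 := hinj h1
  have h3 := congrArg (Polynomial.eval 0) h2
  rw [eval_aeval_poly, Polynomial.eval_zero] at h3
  have h4 : (fun j => (p j).eval 0) = x := funext hp4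
  rwa [h4] at h3

/-- a point on a rational curve -/
theorem exists_onRat {N : ℕ} {S : Set (MvPolynomial (Fin N) ℂ)}
    (hS : ∀ F ∈ S, ∃ d, F.IsHomogeneous d) {δ : ℕ} {p : Fin N → Polynomial ℂ} (hp : NC p)
    (hdeg : ∀ j, (p j).natDegree ≤ δ) (hpS : ∀ F ∈ S, aeval p F = 0) :
    ∃ x : Fin N → ℂ, x ≠ 0 ∧ OnRat S δ x := by
  obtain ⟨t, i, hti⟩ : ∃ t i, (p i).eval t ≠ 0 := by
    obtain ⟨s, t, i, j, hne⟩ := hp
    by_contra h1
    push Not at h1
    exact hne (by rw [h1 s i, h1 s j, zero_mul, zero_mul])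
  refine ⟨fun j => (p j).eval t, fun h0 => hti (congrFun h0 i), ?_⟩
  rw [onRat_iff]
  exact HasPt.of_curve (φ := RingHom.id ℂ) hS hp hdeg (fun F hF => by
    rw [MvPolynomial.map_id]
    exact hpS F hF) t

theorem noRatLe_iff {N : ℕ} {S : Set (MvPolynomial (Fin N) ℂ)}
    (hS : ∀ F ∈ S, ∃ d, F.IsHomogeneous d) (δ : ℕ) :
    NoRatLe S δ ↔ ∀ x : Fin N → ℂ, x ≠ 0 → ¬ OnRat S δ x := by
  constructor
  · rintro h x - ⟨p, h1, h2, h3, -⟩
    obtain ⟨F, hF, hne⟩ := h p h1 h2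
    exact hne (h3 F hF)
  · intro h p hp hdeg
    by_contra hcon
    push Not at hcon
    obtain ⟨x, hx, hx'⟩ := exists_onRat hS hp hdeg hcon
    exact h x hx hx'

theorem noRat_of_gt {n : ℕ} {S : Set (MvPolynomial (Fin (n + 1)) ℂ)}
    (hS : ∀ F ∈ S, ∃ d, F.IsHomogeneous d) (h : AllGeneralType (fun F : S => F.1)) (δ : ℕ) :
    NoRatLe S δ := by
  rw [noRatLe_iff hS]
  intro x _ hx
  obtain ⟨K, _, _, y, h1, h2, -⟩ := nonGT_through hS hx
  exact h2 (h K 1 y le_rfl h1)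

/-- the open sets of parameters -/
theorem open_locus {k σ : Type} [Field k] [Algebra k ℂ] [Finite σ] {N : ℕ}
    (S : Set (MvPolynomial (Fin N) (MvPolynomial σ k))) (hS : ∀ F ∈ S, ∃ d, F.IsHomogeneous d)
    (δ : ℕ) : ∃ Ps : Set (MvPolynomial σ k), ∀ t : σ → ℂ,
      (∃ Ψ ∈ Ps, aeval t Ψ ≠ 0) ↔ NoRatLe (fibre S t) δ := by
  have hrat : ∀ t, t ∈ RatPar ℂ S δ ↔ ¬ NoRatLe (fibre S t) δ := by
    intro t
    constructor
    · rintro ⟨p, hp1, hp2, hp3⟩ h
      obtain ⟨_, ⟨F, hF, rfl⟩, hF'⟩ := h p hp1 hp2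
      exact hF' (hp3 F hF)
    · intro h
      unfold NoRatLe at h
      push Not at h
      obtain ⟨p, hp1, hp2, hp3⟩ := h
      exact ⟨p, hp1, hp2, fun F hF => hp3 _ ⟨F, hF, rfl⟩⟩
  refine ⟨{Ψ | ∀ t ∈ RatPar ℂ S δ, aeval t Ψ = 0}, fun t => ⟨?_, fun h2 => ?_⟩⟩
  · rintro ⟨Ψ, h2, h3⟩
    by_contra h4
    exact h3 (h2 t ((hrat t).2 h4))
  · obtain ⟨Ψ, h3, h4⟩ := closed S hS δ (t0 := t) (fun h => (hrat t).1 h h2)
    exact ⟨Ψ, h4, h3⟩

end Pool.Agent.Q171.RC
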