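import Pool.Agent.Q171.RC.Limit

/-!
Limits of pointed rational curves over valuation rings.
-/

set_option autoImplicit false

namespace Pool.Agent.Q171.RC

open Polynomial IsLocalRing

/-- substitutions preserve homogeneous equations -/
theorem forms_of_sub {k : Type} [Field k] [Infinite k] {N : ℕ} {p q : Fin N → Polynomial k}
    {E : Polynomial k} (hE : E ≠ 0)
    (h : ∀ t, E.eval t ≠ 0 → ∃ t' μ, ∀ j, (q j).eval t = μ * (p j).eval t')
    {F : MvPolynomial (Fin N) k} {d : ℕ} (hF : F.IsHomogeneous d)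
    (h0 : MvPolynomial.aeval p F = 0) : MvPolynomial.aeval q F = 0 := by
  have h2 : MvPolynomial.aeval q F * E = 0 := by
    apply Polynomial.funext
    intro t
    rw [eval_mul, eval_zero]
    by_cases ht : E.eval t = 0
    · rw [ht, mul_zero]
    · obtain ⟨t', μ, h3⟩ := h t ht
      rw [eval_aeval_poly]
      have h4 : (fun j => (q j).eval t) = fun j => μ * (p j).eval t' := funext h3
      rw [h4, eval_smul_homog hF, ← eval_aeval_poly, h0, eval_zero, mul_zero, zero_mul]
  exact (mul_eq_zero.1 h2).resolve_right hE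

variable {K : Type} [Field K] [IsAlgClosed K] {O : ValuationSubring K} {N δ : ℕ}

/-- `Q` is a nonconstant rational curve over the residue field, a limit of `p`. -/
structure Good (O : ValuationSubring K) (p : Fin N → Polynomial K) (δ : ℕ)
    (Q : Fin N → Polynomial (ResidueField O)) : Prop where
  nc : NC Q
  deg : ∀ j, (Q j).natDegree ≤ δ
  forms : ∀ (F : MvPolynomial (Fin N) O) (d : ℕ), F.IsHomogeneous d →
    MvPolynomial.aeval p (MvPolynomial.map (algebraMap O K) F) = 0 →
    MvPolynomial.aeval Q (MvPolynomial.map (residue O) F) = 0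

theorem Good.of_sub {p p' : Fin N → Polynomial K} {Q : Fin N → Polynomial (ResidueField O)}
    (hQ : Good O p' δ Q) {E : Polynomial K} (hE : E ≠ 0)
    (h : ∀ t, E.eval t ≠ 0 → ∃ t' μ, ∀ j, (p' j).eval t = μ * (p j).eval t') : Good O p δ Q :=
  ⟨hQ.nc, hQ.deg, fun F d hF h0 => hQ.forms F d hF (forms_of_sub hE h (hF.map _) h0)⟩

theorem good_of {P : Fin N → Polynomial O} {Q : Fin N → Polynomial (ResidueField O)}
    {E : Polynomial (ResidueField O)} (hE : E ≠ 0)
    (h : ∀ t, E.eval t ≠ 0 → ∃ t' μ, ∀ j, (Q j).eval t = μ * ((P j).map (residue O)).eval t')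
    (hnc : NC Q) (hdeg : ∀ j, (Q j).natDegree ≤ δ) : Good O (fun j => PK (P j)) δ Q := by
  have := algClosed_residue O
  have hinf : Infinite (ResidueField O) := IsAlgClosed.instInfinite
  refine ⟨hnc, hdeg, fun F d hF h0 => ?_⟩
  have h1 : MvPolynomial.aeval P F = 0 := by
    apply Polynomial.map_injective (algebraMap O K) (IsFractionRing.injective O K)
    rw [Polynomial.map_zero, map_aeval_poly]
    exact h0
  have h2 : MvPolynomial.aeval (fun j => (P j).map (residue O)) (MvPolynomial.map (residue O) F) =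
      0 := by
    rw [← map_aeval_poly, h1, Polynomial.map_zero]
  exact forms_of_sub hE h (hF.map _) h2

/-- normalised vectors -/
theorem norm_vec (O : ValuationSubring K) (x : Fin N → K) (hx : ∃ j, x j ≠ 0) :
    ∃ (y : Fin N → O) (μ : K), μ ≠ 0 ∧ (∀ j, (y j : K) = μ * x j) ∧ ∃ j, residue O (y j) ≠ 0 := by
  obtain ⟨P, u, hu, hP, hP'⟩ := exists_int O (fun j => C (x j)) (by
    obtain ⟨j, hj⟩ := hx
    exact ⟨j, fun h => hj (C_eq_zero.1 h)⟩)
  have h1 : ∀ j l, ((P j).coeff l : K) = u * (C (x j)).coeff l := by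
    intro j l
    rw [← PK_coeff, hP, coeff_C_mul]
  refine ⟨fun j => (P j).coeff 0, u, hu, fun j => ?_, ?_⟩
  · rw [h1, coeff_C_zero]
  · obtain ⟨j, hj⟩ := hP'
    refine ⟨j, fun h0 => hj ?_⟩
    ext l
    rw [coeff_map, coeff_zero]
    rcases Nat.eq_zero_or_pos l with rfl | hl
    · exact h0
    · have h2 : (P j).coeff l = 0 := by
        apply Subtype.ext
        rw [h1, coeff_C_ne_zero hl.ne', mul_zero]
        rfl
      rw [h2, map_zero]

/-- two normalisations of a vector differ by a unit -/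
theorem norm_unique {x : Fin N → K} {y y' : Fin N → O} {μ μ' : K} (hμ : μ ≠ 0) (hμ' : μ' ≠ 0)
    (hy : ∀ j, (y j : K) = μ * x j) (hy' : ∀ j, (y' j : K) = μ' * x j)
    (h : ∃ j, residue O (y j) ≠ 0) (h' : ∃ j, residue O (y' j) ≠ 0) :
    ∃ c : ResidueField O, c ≠ 0 ∧ ∀ j, residue O (y j) = c * residue O (y' j) := by
  have hval : ∀ {z z' : Fin N → O} {ν ν' : K}, ν ≠ 0 → ν' ≠ 0 → (∀ j, (z j : K) = ν * x j) →
      (∀ j, (z' j : K) = ν' * x j) → (∃ j, residue O (z' j) ≠ 0) → ν / ν' ∈ O := by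
    intro z z' ν ν' hν hν' hz hz' hr
    obtain ⟨j, hj⟩ := hr
    have hu : IsUnit (z' j) := (residue_ne_zero_iff_isUnit _).1 hj
    have h1 : O.valuation (z' j : K) = 1 := (ValuationSubring.valuation_eq_one_iff O _).1 hu
    rw [← ValuationSubring.valuation_le_one_iff]
    have h2 : ν / ν' * (z' j : K) = (z j : K) := by
      rw [hz', hz]
      field_simp
    have h3 := congrArg O.valuation h2
    rw [map_mul, h1, mul_one] at h3
    rw [h3]
    exact ValuationSubring.valuation_le_one O _
  have h1 := hval hμ hμ' hy hy' h'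
  have h2 := hval hμ' hμ hy' hy h
  have hmul : (⟨μ / μ', h1⟩ : O) * ⟨μ' / μ, h2⟩ = 1 := by
    apply Subtype.ext
    change μ / μ' * (μ' / μ) = 1
    field_simp
  refine ⟨residue O ⟨μ / μ', h1⟩, fun h0 => ?_, fun j => ?_⟩
  · have h3 := congrArg (residue O) hmul
    rw [map_mul, h0, zero_mul, map_one] at h3
    exact zero_ne_one h3
  · rw [← map_mul]
    congr 1
    apply Subtype.ext
    change (y j : K) = μ / μ' * (y' j : K)
    rw [hy, hy']
    field_simp

/-- rescaling -/
theorem rescale {m : ℕ} (hm0 : 0 < m) (P : Fin N → Polynomial O)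
    (hne : ∃ j, (P j).coeff 0 ≠ 0) (hlow : ∀ l, l < m → ∀ j, residue O ((P j).coeff l) = 0) :
    ∃ (b : K) (P' : Fin N → Polynomial O), b ≠ 0 ∧
      (∀ j l, ((P' j).coeff l : K) = (b ^ m)⁻¹ * b ^ l * ((P j).coeff l : K)) ∧
      (∀ j l, m < l → residue O ((P' j).coeff l) = 0) ∧
      (∀ j, (P' j).coeff m = (P j).coeff m) ∧
      ∃ l j, l < m ∧ residue O ((P' j).coeff l) ≠ 0 := by
  classical
  set v := O.valuation with hv
  have hβ : ∀ x : Fin N × Fin m, ∃ z : K, z ^ (m - x.2.1) = ((P x.1).coeff x.2.1 : K) :=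
    fun x => IsAlgClosed.exists_pow_nat_eq _ (by have := x.2.2; omega)
  choose β hβ using hβ
  obtain ⟨j1, hj1⟩ := hne
  have : Nonempty (Fin N × Fin m) := ⟨(j1, ⟨0, hm0⟩)⟩
  obtain ⟨x0, hx0⟩ := Finite.exists_max (fun x => v (β x))
  set b := β x0 with hb
  have hβ1 : v (β (j1, ⟨0, hm0⟩)) ≠ 0 := by
    intro h
    rw [map_eq_zero] at h
    have h1 := hβ (j1, ⟨0, hm0⟩)
    rw [h, zero_pow (by simpa using hm0.ne')] at h1
    apply hj1
    exact_mod_cast h1.symm
  have hb0 : b ≠ 0 := by
    intro h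
    have h1 := hx0 (j1, ⟨0, hm0⟩)
    rw [h, map_zero, le_zero_iff] at h1
    exact hβ1 h1
  have hvb : v b < 1 := by
    by_contra h
    rw [not_lt] at h
    have h1 := congrArg v (hβ x0)
    rw [map_pow] at h1
    have h2 : 1 ≤ v b ^ (m - x0.2.1) := one_le_pow₀ h
    have h3 : v ((P x0.1).coeff x0.2.1 : K) < 1 := v_lt_one (hlow x0.2.1 x0.2.2 x0.1)
    rw [← h1] at h3
    exact absurd h3 (not_lt.2 h2)
  let c : Fin N → ℕ → K := fun j l => (b ^ m)⁻¹ * b ^ l * ((P j).coeff l : K)
  have hclow : ∀ j (l : ℕ) (hl : l < m), c j l = (β (j, ⟨l, hl⟩) / b) ^ (m - l) := by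
    intro j l hl
    have h1 := hβ (j, ⟨l, hl⟩)
    simp only at h1
    rw [div_pow, h1]
    simp only [c]
    have h2 : b ^ m = b ^ (m - l) * b ^ l := by rw [← pow_add, Nat.sub_add_cancel hl.le]
    rw [h2]
    have h3 : b ^ (m - l) ≠ 0 := pow_ne_zero _ hb0
    have h4 : b ^ l ≠ 0 := pow_ne_zero _ hb0
    field_simp
  have hchigh : ∀ j (l : ℕ), m ≤ l → c j l = b ^ (l - m) * ((P j).coeff l : K) := by
    intro j l hl
    simp only [c]
    have h2 : b ^ l = b ^ (l - m) * b ^ m := by rw [← pow_add, Nat.sub_add_cancel hl]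
    rw [h2]
    have h3 : b ^ m ≠ 0 := pow_ne_zero _ hb0
    field_simp
  have hvc : ∀ j l, v (c j l) ≤ 1 := by
    intro j l
    rcases lt_or_ge l m with hl | hl
    · rw [hclow j l hl, map_pow, map_div₀]
      apply pow_le_one₀ zero_le
      exact div_le_one_of_le₀ (hx0 _) zero_le
    · rw [hchigh j l hl, map_mul, map_pow]
      exact mul_le_one' (pow_le_one₀ zero_le hvb.le) (ValuationSubring.valuation_le_one O _)
  have hcO : ∀ j l, c j l ∈ O := fun j l => (ValuationSubring.valuation_le_one_iff O _).1 (hvc j l)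
  have hex : ∀ j, ∃ q : Polynomial O, ∀ l, (q.coeff l : K) = c j l := fun j =>
    exists_poly (p := P j) (hcO j) (fun l hl => by simp only [c, hl]; simp)
  choose P' hP' using hex
  refine ⟨b, P', hb0, hP', fun j l hl => ?_, fun j => ?_, x0.2.1, x0.1, x0.2.2, ?_⟩
  · apply res_zero
    rw [hP', hchigh j l hl.le, map_mul, map_pow, ← hv]
    have h1 : v b ^ (l - m) < 1 := pow_lt_one₀ zero_le hvb (by omega)
    exact mul_lt_one_of_lt_of_le h1 (ValuationSubring.valuation_le_one O _)
  · apply Subtype.ext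
    rw [hP', hchigh j m le_rfl, Nat.sub_self, pow_zero, one_mul]
  · have h1 : (P' x0.1).coeff x0.2.1 = 1 := by
      apply Subtype.ext
      rw [hP', hclow x0.1 x0.2.1 x0.2.2]
      have : (β (x0.1, ⟨x0.2.1, x0.2.2⟩)) = b := rfl
      rw [this, div_self hb0, one_pow]
      rfl
    rw [h1, map_one]
    exact one_ne_zero

/-- the lowest coefficient -/
theorem lowest {k : Type} [Field k] {p : Fin N → Polynomial k} {M : ℕ}
    (h : ∃ l j, l < M ∧ (p j).coeff l ≠ 0) :
    ∃ m, m < M ∧ (∃ j, (p j).coeff m ≠ 0) ∧ ∀ l, l < m → ∀ j, (p j).coeff l = 0 := by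
  classical
  obtain ⟨l, j, hl, hj⟩ := h
  have hex : ∃ m, ∃ j, (p j).coeff m ≠ 0 := ⟨l, j, hj⟩
  refine ⟨Nat.find hex, (Nat.find_min' hex ⟨j, hj⟩).trans_lt hl, Nat.find_spec hex, ?_⟩
  intro l' hl' j'
  by_contra h
  exact Nat.find_min hex hl' ⟨j', h⟩

theorem NC_of_mul {k : Type} [Field k] {p q : Fin N → Polynomial k} {g : Polynomial k}
    (h : ∀ j, p j = g * q j) (hp : NC p) : NC q := by
  obtain ⟨s, t, i, j, hne⟩ := hp
  refine ⟨s, t, i, j, fun h0 => hne ?_⟩
  rw [h i, h j, eval_mul, eval_mul, eval_mul, eval_mul]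
  linear_combination g.eval s * g.eval t * h0

/-- division by a power of `X` -/
theorem good_div {P : Fin N → Polynomial O} (hnc : NC fun j => (P j).map (residue O)) {m : ℕ}
    (hm : ∀ l, l < m → ∀ j, residue O ((P j).coeff l) = 0) (hdeg : ∀ j, (P j).natDegree ≤ δ) :
    ∃ Q, Good O (fun j => PK (P j)) δ Q ∧ ∀ j, (Q j).eval 0 = residue O ((P j).coeff m) := by
  have h1 : ∀ j, ∃ q, (P j).map (residue O) = X ^ m * q := by
    intro j
    have : X ^ m ∣ (P j).map (residue O) := by
      rw [X_pow_dvd_iff]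
      intro l hl
      rw [coeff_map]
      exact hm l hl j
    exact this
  choose Q hQ using h1
  refine ⟨Q, good_of (P := P) (E := X ^ m) (pow_ne_zero _ X_ne_zero) ?_ (NC_of_mul hQ hnc) ?_, ?_⟩
  · intro t ht
    rw [eval_pow, eval_X] at ht
    refine ⟨t, (t ^ m)⁻¹, fun j => ?_⟩
    rw [hQ j, eval_mul, eval_pow, eval_X]
    field_simp
  · intro j
    by_cases h0 : Q j = 0
    · rw [h0, natDegree_zero]
      exact Nat.zero_le _
    · have h2 : ((P j).map (residue O)).natDegree ≤ δ := (natDegree_map_le).trans (hdeg j)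
      rw [hQ j, natDegree_mul (pow_ne_zero _ X_ne_zero) h0] at h2
      omega
  · intro j
    rw [← coeff_map, hQ j, ← coeff_zero_eq_eval_zero]
    have := coeff_X_pow_mul (Q j) m 0
    rw [zero_add] at this
    exact this.symm

/-- the shape of constant reductions -/
theorem shape {k : Type} [Field k] [Infinite k] {p : Fin N → Polynomial k} (hp : ¬ NC p)
    {m m' : ℕ} (hm : ∃ j, (p j).coeff m ≠ 0) (hm' : ∃ j, (p j).coeff m' ≠ 0) :
    ∃ c : k, c ≠ 0 ∧ ∀ j, (p j).coeff m = c * (p j).coeff m' := by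
  obtain ⟨j1, hj1⟩ := hm
  obtain ⟨j2, hj2⟩ := hm'
  obtain ⟨i0, c, -, -, hc⟩ := const_of_not_NC hp (j0 := j1) (fun h => hj1 (by rw [h, coeff_zero]))
  have h1 : ∀ j l, (p j).coeff l = c j * (p i0).coeff l := by
    intro j l
    conv_lhs => rw [hc j]
    rw [coeff_C_mul]
  have h2 : (p i0).coeff m ≠ 0 := fun h => hj1 (by rw [h1, h, mul_zero])
  have h3 : (p i0).coeff m' ≠ 0 := fun h => hj2 (by rw [h1, h, mul_zero])
  refine ⟨(p i0).coeff m / (p i0).coeff m', div_ne_zero h2 h3, fun j => ?_⟩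
  rw [h1 j m, h1 j m']
  field_simp

/-- reversal of the residue polynomials -/
theorem good_reflect {P : Fin N → Polynomial O} (hnc : NC fun j => (P j).map (residue O)) {m : ℕ}
    (hm : ∀ j l, m < l → residue O ((P j).coeff l) = 0) (hδ : m ≤ δ) :
    ∃ Q, Good O (fun j => PK (P j)) δ Q ∧ ∀ j, (Q j).eval 0 = residue O ((P j).coeff m) := by
  have := algClosed_residue O
  have hinf : Infinite (ResidueField O) := IsAlgClosed.instInfinite
  have hle : ∀ j, ((P j).map (residue O)).natDegree ≤ m := by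
    intro j
    rw [natDegree_le_iff_coeff_eq_zero]
    intro l hl
    rw [coeff_map]
    exact hm j l hl
  refine ⟨fun j => reflect m ((P j).map (residue O)), good_of (P := P) (E := X) X_ne_zero ?_ ?_ ?_,
    ?_⟩
  · intro t ht
    rw [eval_X] at ht
    refine ⟨t⁻¹, t ^ m, fun j => ?_⟩
    let _ : Invertible (t⁻¹) := invertibleOfNonzero (inv_ne_zero ht)
    have h1 := eval₂_reflect_mul_pow (RingHom.id _) (t⁻¹) m ((P j).map (residue O)) (hle j)
    rw [invOf_eq_inv, inv_inv, eval₂_id, eval₂_id] at h1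
    rw [← h1, inv_pow]
    field_simp
  · by_contra hcon
    obtain ⟨s, t, i, j, hne⟩ := hnc
    have hj0 : ∃ j0, reflect m ((P j0).map (residue O)) ≠ 0 := by
      by_contra h0
      push Not at h0
      have h1 : ∀ j, (P j).map (residue O) = 0 := fun j => reflect_eq_zero_iff.1 (h0 j)
      apply hne
      beta_reduce
      rw [h1 i, h1 j]
    obtain ⟨j0, hj0⟩ := hj0
    obtain ⟨i0, c, -, -, hc⟩ := const_of_not_NC hcon hj0
    have h1 : ∀ j, (P j).map (residue O) = C (c j) * (P i0).map (residue O) := by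
      intro j
      have h2 := hc j
      rw [← reflect_C_mul] at h2
      have h3 := congrArg (reflect m) h2
      rwa [reflect_reflect, reflect_reflect] at h3
    apply hne
    beta_reduce
    rw [h1 i, h1 j]
    simp only [eval_mul, eval_C]
    ring
  · intro j
    refine (natDegree_reflect_le).trans (max_le hδ ((hle j).trans hδ))
  · intro j
    rw [← coeff_zero_eq_eval_zero, coeff_reflect, revAt_le (Nat.zero_le _), Nat.sub_zero, coeff_map]

theorem rescale_sub {P P' : Fin N → Polynomial O} {b : K} {m : ℕ} (hb : b ≠ 0)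
    (h : ∀ j l, ((P' j).coeff l : K) = (b ^ m)⁻¹ * b ^ l * ((P j).coeff l : K)) :
    ∀ j, PK (P' j) = C ((b ^ m)⁻¹) * (PK (P j)).comp (C b * X) := by
  intro j
  ext l
  rw [PK_coeff, h, coeff_C_mul, comp_C_mul_X_coeff, PK_coeff]
  ring

/-- **Step A.** The specialisation of the marked point is the value of the reduced curve, or it lies
on another limit. -/
theorem stepA (m : ℕ) : ∀ (P : Fin N → Polynomial O), (∃ j, (P j).coeff 0 ≠ 0) →
    (∀ l, l < m → ∀ j, residue O ((P j).coeff l) = 0) → (∃ j, residue O ((P j).coeff m) ≠ 0) →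
    (∀ j, (P j).natDegree ≤ δ) → ∀ (y : Fin N → O) (μ : K), μ ≠ 0 →
    (∀ j, (y j : K) = μ * ((P j).coeff 0 : K)) → (∃ j, residue O (y j) ≠ 0) →
    (∃ c : ResidueField O, c ≠ 0 ∧ ∀ j, residue O (y j) = c * residue O ((P j).coeff m)) ∨
    ∃ Q, Good O (fun j => PK (P j)) δ Q ∧ ∃ c : ResidueField O, c ≠ 0 ∧
      ∀ j, residue O (y j) = c * (Q j).eval 0 := by
  induction m using Nat.strong_induction_on with
  | _ m ih =>
    intro P hP0 hlow hm hdeg y μ hμ hy hyr
    have := algClosed_residue O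
    have hinf : Infinite (ResidueField O) := IsAlgClosed.instInfinite
    rcases Nat.eq_zero_or_pos m with rfl | hmpos
    · left
      exact norm_unique (x := fun j => ((P j).coeff 0 : K)) hμ one_ne_zero hy
        (fun j => (one_mul _).symm) hyr hm
    obtain ⟨b, P', hb, hP', hhigh, hmid, hlowne⟩ := rescale hmpos P hP0 hlow
    obtain ⟨m', hm', hne', hlow'⟩ := lowest (p := fun j => (P' j).map (residue O)) (M := m) (by
      obtain ⟨l, j, h1, h2⟩ := hlowne
      exact ⟨l, j, h1, by rwa [coeff_map]⟩)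
    simp only [coeff_map] at hne' hlow'
    have hbm : (b ^ m)⁻¹ ≠ 0 := inv_ne_zero (pow_ne_zero _ hb)
    have h0' : ∃ j, (P' j).coeff 0 ≠ 0 := by
      obtain ⟨j, hj⟩ := hP0
      refine ⟨j, fun h => hj ?_⟩
      have h1 := hP' j 0
      rw [h, pow_zero, mul_one] at h1
      have h2 : ((P j).coeff 0 : K) = 0 := by
        rcases mul_eq_zero.1 h1.symm with h3 | h3
        · exact absurd h3 hbm
        · exact h3
      exact_mod_cast h2
    have hdeg' : ∀ j, (P' j).natDegree ≤ δ := by
      intro j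
      rw [natDegree_le_iff_coeff_eq_zero]
      intro l hl
      have h1 := hP' j l
      rw [coeff_eq_zero_of_natDegree_lt ((hdeg j).trans_lt hl)] at h1
      apply Subtype.ext
      rw [h1]
      simp
    have hsub : ∀ {Q}, Good O (fun j => PK (P' j)) δ Q → Good O (fun j => PK (P j)) δ Q := by
      intro Q hQ
      refine hQ.of_sub (E := 1) one_ne_zero fun t _ => ⟨b * t, (b ^ m)⁻¹, fun j => ?_⟩
      change (PK (P' j)).eval t = _ * (PK (P j)).eval _
      rw [rescale_sub hb hP' j, eval_mul, eval_C, eval_comp, eval_mul, eval_C, eval_X]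
    have hIH := ih m' hm' P' h0' hlow' hne' hdeg' y (μ * b ^ m) (mul_ne_zero hμ (pow_ne_zero _ hb))
      (fun j => by
        rw [hy j, hP' j 0, pow_zero, mul_one]
        field_simp) hyr
    rcases hIH with ⟨c, hc, hc'⟩ | ⟨Q, hQ, hQ'⟩
    · by_cases hNC : NC fun j => (P' j).map (residue O)
      · right
        obtain ⟨Q, hQ, hQ'⟩ := good_div hNC hlow' hdeg'
        exact ⟨Q, hsub hQ, c, hc, fun j => by rw [hc' j, hQ' j]⟩
      · left
        obtain ⟨c', hc0, hc1⟩ := shape hNC (m := m') (m' := m) (by simpa only [coeff_map] using hne')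
          (by simpa only [coeff_map, hmid] using hm)
        simp only [coeff_map, hmid] at hc1
        exact ⟨c * c', mul_ne_zero hc hc0, fun j => by rw [hc' j, hc1 j, mul_assoc]⟩
    · right
      exact ⟨Q, hsub hQ, hQ'⟩

/-- **Step B.** If the specialisation of the marked point is not the value of the reduced curve,
there is a limit through this value. -/
theorem stepB (m : ℕ) : ∀ (P : Fin N → Polynomial O), (∃ j, (P j).coeff 0 ≠ 0) →
    (∀ l, l < m → ∀ j, residue O ((P j).coeff l) = 0) → (∃ j, residue O ((P j).coeff m) ≠ 0) →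
    (∀ j, (P j).natDegree ≤ δ) → ∀ (y : Fin N → O) (μ : K), μ ≠ 0 →
    (∀ j, (y j : K) = μ * ((P j).coeff 0 : K)) → (∃ j, residue O (y j) ≠ 0) →
    (¬ ∃ c : ResidueField O, c ≠ 0 ∧ ∀ j, residue O (y j) = c * residue O ((P j).coeff m)) →
    ∃ Q, Good O (fun j => PK (P j)) δ Q ∧ ∃ c : ResidueField O, c ≠ 0 ∧
      ∀ j, residue O ((P j).coeff m) = c * (Q j).eval 0 := by
  induction m using Nat.strong_induction_on with
  | _ m ih =>
    intro P hP0 hlow hm hdeg y μ hμ hy hyr hcon
    have := algClosed_residue O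
    have hinf : Infinite (ResidueField O) := IsAlgClosed.instInfinite
    rcases Nat.eq_zero_or_pos m with rfl | hmpos
    · exact absurd (norm_unique (x := fun j => ((P j).coeff 0 : K)) hμ one_ne_zero hy
        (fun j => (one_mul _).symm) hyr hm) hcon
    obtain ⟨b, P', hb, hP', hhigh, hmid, hlowne⟩ := rescale hmpos P hP0 hlow
    obtain ⟨m', hm', hne', hlow'⟩ := lowest (p := fun j => (P' j).map (residue O)) (M := m) (by
      obtain ⟨l, j, h1, h2⟩ := hlowne
      exact ⟨l, j, h1, by rwa [coeff_map]⟩)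
    simp only [coeff_map] at hne' hlow'
    have hbm : (b ^ m)⁻¹ ≠ 0 := inv_ne_zero (pow_ne_zero _ hb)
    have h0' : ∃ j, (P' j).coeff 0 ≠ 0 := by
      obtain ⟨j, hj⟩ := hP0
      refine ⟨j, fun h => hj ?_⟩
      have h1 := hP' j 0
      rw [h, pow_zero, mul_one] at h1
      have h2 : ((P j).coeff 0 : K) = 0 := by
        rcases mul_eq_zero.1 h1.symm with h3 | h3
        · exact absurd h3 hbm
        · exact h3
      exact_mod_cast h2
    have hdeg' : ∀ j, (P' j).natDegree ≤ δ := by
      intro j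
      rw [natDegree_le_iff_coeff_eq_zero]
      intro l hl
      have h1 := hP' j l
      rw [coeff_eq_zero_of_natDegree_lt ((hdeg j).trans_lt hl)] at h1
      apply Subtype.ext
      rw [h1]
      simp
    have hsub : ∀ {Q}, Good O (fun j => PK (P' j)) δ Q → Good O (fun j => PK (P j)) δ Q := by
      intro Q hQ
      refine hQ.of_sub (E := 1) one_ne_zero fun t _ => ⟨b * t, (b ^ m)⁻¹, fun j => ?_⟩
      change (PK (P' j)).eval t = _ * (PK (P j)).eval _
      rw [rescale_sub hb hP' j, eval_mul, eval_C, eval_comp, eval_mul, eval_C, eval_X]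
    by_cases hNC : NC fun j => (P' j).map (residue O)
    · obtain ⟨Q, hQ, hQ'⟩ := good_reflect (δ := δ) hNC hhigh (by
        obtain ⟨j, hj⟩ := hm
        refine (le_natDegree_of_ne_zero (p := P j) fun h => hj ?_).trans (hdeg j)
        rw [h, map_zero])
      exact ⟨Q, hsub hQ, 1, one_ne_zero, fun j => by rw [hQ' j, hmid, one_mul]⟩
    · obtain ⟨c', hc0, hc1⟩ := shape hNC (m := m) (m' := m')
        (by simpa only [coeff_map, hmid] using hm) (by simpa only [coeff_map] using hne')
      simp only [coeff_map, hmid] at hc1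
      obtain ⟨Q, hQ, c, hc, hQ'⟩ := ih m' hm' P' h0' hlow' hne' hdeg' y (μ * b ^ m)
        (mul_ne_zero hμ (pow_ne_zero _ hb)) (fun j => by
          rw [hy j, hP' j 0, pow_zero, mul_one]
          field_simp) hyr (by
          rintro ⟨c, hc, hc'⟩
          apply hcon
          refine ⟨c * c'⁻¹, mul_ne_zero hc (inv_ne_zero hc0), fun j => ?_⟩
          rw [hc' j, hc1 j]
          field_simp)
      exact ⟨Q, hsub hQ, c' * c, mul_ne_zero hc0 hc, fun j => by rw [hc1 j, hQ' j, mul_assoc]⟩

/-- the limit through the value of a constant reduction: the case of a zero of the coordinate `i0`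
at `z` -/
theorem stepC {P : Fin N → Polynomial O} {i0 : Fin N} {z : O} (hz : (P i0).eval z = 0)
    (hz' : ∃ j, (P j).eval z ≠ 0) (hNC : ¬ NC fun j => (P j).map (residue O))
    (hi0 : (P i0).map (residue O) ≠ 0) (hdeg : ∀ j, (P j).natDegree ≤ δ) :
    ∃ Q, Good O (fun j => PK (P j)) δ Q ∧ ∃ c : ResidueField O, c ≠ 0 ∧
      ∃ l, (∃ j, residue O ((P j).coeff l) ≠ 0) ∧
      ∀ j, residue O ((P j).coeff l) = c * (Q j).eval 0 := by
  have := algClosed_residue O
  have hinf : Infinite (ResidueField O) := IsAlgClosed.instInfinite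
  obtain ⟨ib, cc, -, -, hcc⟩ := const_of_not_NC hNC hi0
  have hib : (P ib).map (residue O) ≠ 0 := by
    intro h
    have := hcc i0
    simp only [h, mul_zero] at this
    exact hi0 this
  have hci : cc i0 ≠ 0 := by
    intro h
    have := hcc i0
    simp only [h, map_zero, zero_mul] at this
    exact hi0 this
  -- the translated curve
  let R : Fin N → Polynomial O := fun j => (P j).comp (X + C z)
  have hRr : ∀ j, (R j).map (residue O) = ((P j).map (residue O)).comp (X + C (residue O z)) := by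
    intro j
    simp only [R, Polynomial.map_comp, Polynomial.map_add, map_X, map_C]
  have hR : ∀ j, (R j).map (residue O) = C (cc j) * (R ib).map (residue O) := by
    intro j
    have h1 := hcc j
    beta_reduce at h1
    rw [hRr, hRr, h1, mul_comp, C_comp]
  have hR0 : (R ib).map (residue O) ≠ 0 := by
    rw [hRr]
    intro h
    rw [comp_eq_zero_iff] at h
    rcases h with h | ⟨-, h⟩
    · exact hib h
    · have h2 := congrArg natDegree h
      rw [natDegree_X_add_C, natDegree_C] at h2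
      exact absurd h2 one_ne_zero
  have hRdeg : ∀ j, (R j).natDegree ≤ δ := by
    intro j
    simp only [R]
    rw [natDegree_comp, natDegree_X_add_C, mul_one]
    exact hdeg j
  have hR00 : ∀ j, (R j).coeff 0 = (P j).eval z := by
    intro j
    rw [coeff_zero_eq_eval_zero]
    simp only [R, eval_comp, eval_add, eval_X, eval_C, zero_add]
  obtain ⟨m, -, hmne, hlow⟩ := lowest (p := fun j => (R j).map (residue O))
    (M := ((R ib).map (residue O)).natDegree + 1)
    ⟨_, ib, Nat.lt_succ_self _, by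
      rw [coeff_natDegree]
      exact leadingCoeff_ne_zero.2 hR0⟩
  simp only [coeff_map] at hmne hlow
  obtain ⟨y, μ, hμ, hy, hyr⟩ := norm_vec O (fun j => ((R j).coeff 0 : K)) (by
    obtain ⟨j, hj⟩ := hz'
    refine ⟨j, fun h => hj ?_⟩
    rw [← hR00]
    exact_mod_cast h)
  have hmi : ∀ j, residue O ((R j).coeff m) = cc j * residue O ((R ib).coeff m) := by
    intro j
    have h1 := congrArg (fun q => coeff q m) (hR j)
    simpa only [coeff_map, coeff_C_mul] using h1
  have hmib : residue O ((R ib).coeff m) ≠ 0 := by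
    intro h
    obtain ⟨j, hj⟩ := hmne
    exact hj (by rw [hmi, h, mul_zero])
  obtain ⟨Q, hQ, c, hc, hQ'⟩ := stepB m R (by
      obtain ⟨j, hj⟩ := hz'
      exact ⟨j, by rw [hR00]; exact hj⟩) hlow hmne hRdeg y μ hμ hy hyr (by
      rintro ⟨c, hc, hc'⟩
      have h1 := hc' i0
      have h2 : y i0 = 0 := by
        apply Subtype.ext
        rw [hy i0, hR00, hz]
        simp
      rw [h2, map_zero, hmi i0] at h1
      exact mul_ne_zero hc (mul_ne_zero hci hmib) h1.symm)
  have hsub : Good O (fun j => PK (P j)) δ Q := by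
    refine hQ.of_sub (E := 1) one_ne_zero fun t _ => ⟨t + z, 1, fun j => ?_⟩
    simp only [PK, R, Polynomial.map_comp, Polynomial.map_add, map_X, map_C, eval_comp, eval_add,
      eval_X, eval_C, one_mul]
    rfl
  set l := ((P ib).map (residue O)).natDegree with hl
  have hlne : residue O ((P ib).coeff l) ≠ 0 := by
    rw [← coeff_map, hl, coeff_natDegree]
    exact leadingCoeff_ne_zero.2 hib
  have hli : ∀ j, residue O ((P j).coeff l) = cc j * residue O ((P ib).coeff l) := by
    intro j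
    have h1 := congrArg (fun q => coeff q l) (hcc j)
    simpa only [coeff_map, coeff_C_mul] using h1
  refine ⟨Q, hsub, residue O ((P ib).coeff l) / residue O ((R ib).coeff m) * c,
    mul_ne_zero (div_ne_zero hlne hmib) hc, l, ⟨ib, hlne⟩, fun j => ?_⟩
  have h1 := hQ' j
  rw [hmi j] at h1
  rw [hli j, mul_assoc, ← h1]
  field_simp

/-- the limit through the value of a constant reduction -/
theorem stepD {q : Fin N → Polynomial K} (hqz : ∀ t, ∃ j, (q j).eval t ≠ 0) (hqNC : NC q)
    {P : Fin N → Polynomial O} {u : K} (hu : u ≠ 0) (hPq : ∀ j, PK (P j) = C u * q j)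
    (hNC : ¬ NC fun j => (P j).map (residue O)) {i0 : Fin N}
    (hi0 : (P i0).map (residue O) ≠ 0) (hdeg : ∀ j, (P j).natDegree ≤ δ) :
    ∃ Q, Good O (fun j => PK (P j)) δ Q ∧ ∃ c : ResidueField O, c ≠ 0 ∧
      ∃ l, (∃ j, residue O ((P j).coeff l) ≠ 0) ∧
      ∀ j, residue O ((P j).coeff l) = c * (Q j).eval 0 := by
  classical
  have hinjO : Function.Injective (algebraMap O K) := IsFractionRing.injective O K
  have hdP : ∀ j, (P j).natDegree = (q j).natDegree := by
    intro j
    rw [← natDegree_map_eq_of_injective hinjO (P j)]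
    change (PK (P j)).natDegree = _
    rw [hPq, natDegree_C_mul hu]
  by_cases hroot : ∃ z : O, (P i0).eval z = 0
  · obtain ⟨z, hz⟩ := hroot
    obtain ⟨j3, hj3⟩ := hqz (z : K)
    have hev : ∀ j, (((P j).eval z : O) : K) = u * (q j).eval (z : K) := by
      intro j
      have h1 : algebraMap O K ((P j).eval z) = (PK (P j)).eval (algebraMap O K z) :=
        (eval_map_apply _ _).symm
      rw [hPq, eval_mul, eval_C] at h1
      exact h1
    exact stepC hz ⟨j3, fun h => by
      have h1 := hev j3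
      rw [h] at h1
      exact (mul_ne_zero hu hj3) h1.symm⟩ hNC hi0 hdeg
  -- the reversed polynomials
  push Not at hroot
  set δ' := Finset.univ.sup fun j => (P j).natDegree with hδ'
  have hle : ∀ j, (P j).natDegree ≤ δ' := fun j =>
    Finset.le_sup (f := fun j => (P j).natDegree) (Finset.mem_univ j)
  have hδδ : δ' ≤ δ := Finset.sup_le fun j _ => hdeg j
  have hNn : (Finset.univ : Finset (Fin N)).Nonempty := ⟨i0, Finset.mem_univ _⟩
  obtain ⟨j4, -, hj4⟩ := Finset.exists_mem_eq_sup _ hNn fun j => (P j).natDegree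
  have hδ1 : 0 < δ' := by
    rcases Nat.eq_zero_or_pos δ' with h | h
    · exfalso
      have hc0 : ∀ j, (q j).natDegree = 0 := fun j => by
        have := hle j
        rw [h, hdP] at this
        omega
      obtain ⟨s, t, i, j, hst⟩ := hqNC
      apply hst
      rw [eq_C_of_natDegree_eq_zero (hc0 i), eq_C_of_natDegree_eq_zero (hc0 j)]
      simp only [eval_C]
      ring
    · exact h
  have hlead : (P j4).coeff δ' ≠ 0 := by
    rw [hδ', hj4, coeff_natDegree, leadingCoeff_ne_zero]
    intro h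
    have h1 : δ' = 0 := by rw [hδ', hj4, h, natDegree_zero]
    omega
  let P2 : Fin N → Polynomial O := fun j => reflect δ' (P j)
  have hrev : ∀ (j : Fin N) (w : K), w ≠ 0 →
      (PK (P2 j)).eval w = w ^ δ' * (PK (P j)).eval w⁻¹ := by
    intro j w hw
    let _ : Invertible (w⁻¹) := invertibleOfNonzero (inv_ne_zero hw)
    have h1 := eval₂_reflect_mul_pow (algebraMap O K) (w⁻¹) δ' (P j) (hle j)
    rw [invOf_eq_inv, inv_inv] at h1
    rw [PK, PK, eval_map, eval_map, ← h1]
    simp only [P2]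
    rw [inv_pow]
    field_simp
  have hne2 : (P2 i0).map (residue O) ≠ 0 := by
    simp only [P2]
    rw [← reflect_map]
    intro h
    exact hi0 (reflect_eq_zero_iff.1 h)
  obtain ⟨z, hz, hz'⟩ : ∃ z : O, (P2 i0).eval z = 0 ∧ ∃ j, (P2 j).eval z ≠ 0 := by
    by_cases hcoef : (P i0).coeff δ' = 0
    · refine ⟨0, ?_, j4, ?_⟩
      · rw [← coeff_zero_eq_eval_zero]
        simp only [P2]
        rw [coeff_reflect, revAt_le (Nat.zero_le _), Nat.sub_zero, hcoef]
      · rw [← coeff_zero_eq_eval_zero]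
        simp only [P2]
        rw [coeff_reflect, revAt_le (Nat.zero_le _), Nat.sub_zero]
        exact hlead
    · have hnd : (P i0).natDegree = δ' := le_antisymm (hle i0) (le_natDegree_of_ne_zero hcoef)
      have hd0 : (PK (P i0)).degree ≠ 0 := by
        intro h
        have h1 : (PK (P i0)).natDegree = 0 := natDegree_eq_of_degree_eq_some (by simpa using h)
        rw [natDegree_map_eq_of_injective hinjO, hnd] at h1
        omega
      obtain ⟨y, hy⟩ := IsAlgClosed.exists_root _ hd0
      have hyO : y ∉ O := by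
        intro hyO
        apply hroot ⟨y, hyO⟩
        apply hinjO
        rw [map_zero, ← eval_map_apply]
        exact hy
      have hy0 : y ≠ 0 := fun h => hyO (h ▸ O.zero_mem)
      have hyi : y⁻¹ ∈ O := (O.mem_or_inv_mem y).resolve_left hyO
      have hevz : ∀ j, algebraMap O K ((P2 j).eval ⟨y⁻¹, hyi⟩) =
          (y⁻¹) ^ δ' * (PK (P j)).eval y := by
        intro j
        have h1 : algebraMap O K ((P2 j).eval ⟨y⁻¹, hyi⟩) = (PK (P2 j)).eval (y⁻¹) :=
          (eval_map_apply _ _).symm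
        rw [h1, hrev j _ (inv_ne_zero hy0), inv_inv]
      refine ⟨⟨y⁻¹, hyi⟩, ?_, ?_⟩
      · apply hinjO
        rw [map_zero, hevz]
        have : (PK (P i0)).eval y = 0 := hy
        rw [this, mul_zero]
      · obtain ⟨j5, hj5⟩ := hqz y
        refine ⟨j5, fun h => ?_⟩
        have h1 := hevz j5
        rw [h, map_zero, hPq, eval_mul, eval_C] at h1
        exact (mul_ne_zero (pow_ne_zero _ (inv_ne_zero hy0)) (mul_ne_zero hu hj5)) h1.symm
  have hNC2 : ¬ NC fun j => (P2 j).map (residue O) := by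
    have := algClosed_residue O
    have hinf : Infinite (ResidueField O) := IsAlgClosed.instInfinite
    obtain ⟨ib, cc, -, -, hcc⟩ := const_of_not_NC hNC hi0
    rintro ⟨s, t, i, j, hne⟩
    apply hne
    have h1 : ∀ j, (P2 j).map (residue O) = C (cc j) * (P2 ib).map (residue O) := by
      intro j
      simp only [P2]
      have h2 := hcc j
      beta_reduce at h2
      rw [← reflect_map, ← reflect_map, h2, reflect_C_mul]
    beta_reduce
    rw [h1 i, h1 j]
    simp only [eval_mul, eval_C]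
    ring
  obtain ⟨Q, hQ, c, hc, l, hl, hQ'⟩ := stepC (δ := δ) hz hz' hNC2 hne2 (fun j =>
    (natDegree_reflect_le).trans (max_le hδδ ((hle j).trans hδδ)))
  simp only [P2, coeff_reflect] at hl hQ'
  refine ⟨Q, ?_, c, hc, _, hl, hQ'⟩
  refine hQ.of_sub (E := X) X_ne_zero fun t ht => ?_
  rw [eval_X] at ht
  exact ⟨t⁻¹, t ^ δ', fun j => hrev j t ht⟩

/-- **Limits of pointed rational curves.** -/
theorem limit_pt (O : ValuationSubring K) {p : Fin N → Polynomial K} (hp : NC p)
    (hδ : ∀ j, (p j).natDegree ≤ δ) {y : Fin N → O} {μ : K} (hμ : μ ≠ 0)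
    (hy : ∀ j, (y j : K) = μ * (p j).eval 0) (hyr : ∃ j, residue O (y j) ≠ 0) :
    ∃ Q, Good O p δ Q ∧ ∃ c : ResidueField O, c ≠ 0 ∧
      ∀ j, residue O (y j) = c * (Q j).eval 0 := by
  classical
  have := algClosed_residue O
  have hinf : Infinite (ResidueField O) := IsAlgClosed.instInfinite
  have hinjO : Function.Injective (algebraMap O K) := IsFractionRing.injective O K
  have hp0 : ∃ j, p j ≠ 0 := by
    obtain ⟨s, t, i, j, h⟩ := hp
    by_contra hcon
    push Not at hcon
    exact h (by rw [hcon i, hcon j])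
  obtain ⟨g, q, hg, hq, hqz⟩ := remove_gcd p hp0
  obtain ⟨j0, hj0⟩ := hp0
  have hq0 : ∃ j, q j ≠ 0 := ⟨j0, fun h => hj0 (by rw [hq, h, mul_zero])⟩
  have hqδ : ∀ j, (q j).natDegree ≤ δ := by
    intro j
    by_cases h : q j = 0
    · rw [h, natDegree_zero]
      exact Nat.zero_le _
    · refine le_trans ?_ (hδ j)
      rw [hq j, natDegree_mul hg h]
      exact Nat.le_add_left _ _
  obtain ⟨P, u, hu, hPq, j2, hj2⟩ := exists_int O q hq0
  have hdP : ∀ j, (P j).natDegree = (q j).natDegree := by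
    intro j
    rw [← natDegree_map_eq_of_injective hinjO (P j)]
    change (PK (P j)).natDegree = _
    rw [hPq, natDegree_C_mul hu]
  have hdeg : ∀ j, (P j).natDegree ≤ δ := fun j => (hdP j).trans_le (hqδ j)
  have hg0 : g.eval 0 ≠ 0 := by
    intro h
    obtain ⟨j, hj⟩ := hyr
    apply hj
    have h1 : y j = 0 := by
      apply Subtype.ext
      rw [hy j, hq j, eval_mul, h]
      simp
    rw [h1, map_zero]
  have hc0 : ∀ j, ((P j).coeff 0 : K) = u * (q j).eval 0 := by
    intro j
    rw [← PK_coeff, hPq, coeff_C_mul, coeff_zero_eq_eval_zero]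
  have hsub : ∀ {Q}, Good O (fun j => PK (P j)) δ Q → Good O p δ Q := by
    intro Q hQ
    refine hQ.of_sub (E := g) hg fun t ht => ⟨t, u / g.eval t, fun j => ?_⟩
    rw [hPq, eval_mul, eval_C, hq j, eval_mul]
    field_simp
  obtain ⟨m, -, hmne, hlow⟩ := lowest (p := fun j => (P j).map (residue O))
    (M := ((P j2).map (residue O)).natDegree + 1)
    ⟨_, j2, Nat.lt_succ_self _, by
      rw [coeff_natDegree]
      exact leadingCoeff_ne_zero.2 hj2⟩
  simp only [coeff_map] at hmne hlow
  have hA := stepA m P (by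
      obtain ⟨j, hj⟩ := hqz 0
      refine ⟨j, fun h => ?_⟩
      have h1 := hc0 j
      rw [h] at h1
      exact mul_ne_zero hu hj h1.symm) hlow hmne hdeg y (μ * g.eval 0 / u)
    (div_ne_zero (mul_ne_zero hμ hg0) hu) (fun j => by
      rw [hy j, hc0 j, hq j, eval_mul]
      field_simp) hyr
  rcases hA with ⟨c, hc, hc'⟩ | ⟨Q, hQ, hQ'⟩
  · by_cases hNC : NC fun j => (P j).map (residue O)
    · obtain ⟨Q, hQ, hQ'⟩ := good_div hNC hlow hdeg
      exact ⟨Q, hsub hQ, c, hc, fun j => by rw [hc' j, hQ' j]⟩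
    · obtain ⟨Q, hQ, c1, hc1, l, hl, hQ'⟩ := stepD hqz (NC_of_mul hq hp) hu hPq hNC hj2 hdeg
      obtain ⟨c2, hc2, h2⟩ := shape hNC (m := m) (m' := l) (by simpa only [coeff_map] using hmne)
        (by simpa only [coeff_map] using hl)
      simp only [coeff_map] at h2
      exact ⟨Q, hsub hQ, c * (c2 * c1), mul_ne_zero hc (mul_ne_zero hc2 hc1), fun j => by
        rw [hc' j, h2 j, hQ' j]
        ring⟩
  · exact ⟨Q, hsub hQ, hQ'⟩

end Pool.Agent.Q171.RC
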