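import Pool.Agent.Q171.RC.Fam
import Pool.Agent.Q171.RC.Point

/-!
Pointed rational curves of bounded degree in algebraic families: the set of the points of the
total space which lie on such curves is Zariski closed.
-/

set_option autoImplicit false

namespace Pool.Agent.Q171.RC

open IsLocalRing MvPolynomial

variable {N δ : ℕ}

/-- There is a nonconstant rational curve whose coefficients satisfy the equations in `T`. -/
def HasSol {A B : Type} [CommRing A] [Field B] (φ : A →+* B)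
    (T : Set (MvPolynomial (Tau N δ) A)) : Prop :=
  ∃ (q : Qi N δ) (a : Tau N δ → B), eval₂ φ a (mnr q) ≠ 0 ∧ ∀ E ∈ T, eval₂ φ a E = 0

theorem nssT {A L K : Type} [CommRing A] [Field L] [Field K] [IsAlgClosed K] [Algebra L K]
    (φ : A →+* L) (T : Set (MvPolynomial (Tau N δ) A))
    (h : ¬ HasSol ((algebraMap L K).comp φ) T) (q : Qi N δ) :
    ∃ n : ℕ, (map φ (mnr q) : MvPolynomial (Tau N δ) L) ^ n ∈ Ideal.span (map φ '' T) := by
  set J : Ideal (MvPolynomial (Tau N δ) L) := Ideal.span (map φ '' T) with hJ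
  have h1 : map φ (mnr q) ∈ vanishingIdeal L (zeroLocus K J) := by
    intro a ha
    by_contra h2
    apply h
    refine ⟨q, a, ?_, fun E hE => ?_⟩
    · intro h3
      apply h2
      rw [aeval_def, eval₂_map]
      exact h3
    · have h3 := ha (map φ E) (Ideal.subset_span ⟨_, hE, rfl⟩)
      rw [aeval_def, eval₂_map] at h3
      exact h3
  rw [vanishingIdeal_zeroLocus_eq_radical] at h1
  exact h1

theorem descendT {A k K κ : Type} [CommRing A] [Field k] [Field K] [IsAlgClosed K] [Algebra k K]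
    [Field κ] (φ : A →+* k) (ι : k →+* κ) (T : Set (MvPolynomial (Tau N δ) A))
    (h : HasSol (ι.comp φ) T) : HasSol ((algebraMap k K).comp φ) T := by
  by_contra hcon
  obtain ⟨q, a, h1, h2⟩ := h
  obtain ⟨n, hn⟩ := nssT (K := K) φ T hcon q
  have h3 : Ideal.span (map φ '' T) ≤ RingHom.ker (eval₂Hom ι a) := by
    rw [Ideal.span_le]
    rintro _ ⟨E, hE, rfl⟩
    change eval₂ ι a (map φ E) = 0
    rw [eval₂_map]
    exact h2 E hE
  have h4 := h3 hn
  rw [RingHom.mem_ker, map_pow] at h4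
  have h5 : eval₂Hom ι a (map φ (mnr q)) = 0 := by
    by_contra h6
    exact pow_ne_zero _ h6 h4
  change eval₂ ι a (map φ (mnr q)) = 0 at h5
  rw [eval₂_map] at h5
  exact h1 h5

variable {k σ : Type} [Field k]

theorem genericT {F : Type} [Field F] [Algebra k F]
    (T : Set (MvPolynomial (Tau N δ) (MvPolynomial σ k))) (P' : Ideal (MvPolynomial σ k))
    [P'.IsPrime] {L K : Type} [Field L] [Algebra (MvPolynomial σ k ⧸ P') L]
    [IsFractionRing (MvPolynomial σ k ⧸ P') L] [Field K] [IsAlgClosed K] [Algebra L K]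
    (h : ∀ Ψ : MvPolynomial σ k, (∀ t : σ → F, HasSol (ev t : MvPolynomial σ k →+* F) T →
      (∀ Φ ∈ P', ev t Φ = 0) → ev t Ψ = 0) → Ψ ∈ P') :
    HasSol ((algebraMap L K).comp ((algebraMap (MvPolynomial σ k ⧸ P') L).comp
      (Ideal.Quotient.mk P'))) T := by
  classical
  by_contra hcon
  have h1 := nssT (K := K) ((algebraMap (MvPolynomial σ k ⧸ P') L).comp
      (Ideal.Quotient.mk P')) T hcon
  have h2 : ∀ q : Qi N δ, ∃ (n : ℕ) (b : MvPolynomial σ k ⧸ P'), b ≠ 0 ∧
      C b * (map (Ideal.Quotient.mk P') (mnr q)) ^ n ∈ Ideal.span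
        (map (Ideal.Quotient.mk P') '' T) := by
    intro q
    obtain ⟨n, hn⟩ := h1 q
    obtain ⟨b, hb, hb'⟩ := clear (L := L)
      (map (Ideal.Quotient.mk P') '' T)
      (y := (map (Ideal.Quotient.mk P') (mnr q)) ^ n) (by
        rw [map_pow, map_map, Set.image_image]
        simp only [map_map]
        exact hn)
    exact ⟨n, b, hb, hb'⟩
  choose n b hb hmem using h2
  obtain ⟨Ψ, hΨ⟩ := Ideal.Quotient.mk_surjective (∏ q, b q)
  have hprod : (∏ q, b q) ≠ 0 := Finset.prod_ne_zero_iff.2 fun q _ => hb q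
  apply hprod
  rw [← hΨ, Ideal.Quotient.eq_zero_iff_mem]
  apply h
  intro t ht hΦ
  obtain ⟨q, a, h3, h4⟩ := ht
  let e0 : MvPolynomial σ k ⧸ P' →+* F := Ideal.Quotient.lift P' (ev t) hΦ
  have hev : e0.comp (Ideal.Quotient.mk P') = ev t := by
    apply RingHom.ext
    intro x
    exact Ideal.Quotient.lift_mk P' (ev t) hΦ
  have h5 : Ideal.span (map (Ideal.Quotient.mk P') '' T) ≤
      RingHom.ker (eval₂Hom e0 a) := by
    rw [Ideal.span_le]
    rintro _ ⟨E, hE, rfl⟩
    change eval₂ e0 a (map (Ideal.Quotient.mk P') E) = 0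
    rw [eval₂_map, hev]
    exact h4 E hE
  have h6 := h5 (hmem q)
  rw [RingHom.mem_ker, map_mul, map_pow] at h6
  have h7 : eval₂Hom e0 a (map (Ideal.Quotient.mk P') (mnr q)) ≠ 0 := by
    change eval₂ e0 a (map (Ideal.Quotient.mk P') (mnr q)) ≠ 0
    rw [eval₂_map, hev]
    exact h3
  have h8 : e0 (b q) = 0 := by
    have h9 := (mul_eq_zero.1 h6).resolve_right (pow_ne_zero _ h7)
    simpa using h9
  have h9 : e0 (∏ q, b q) = 0 := by
    rw [map_prod]
    exact Finset.prod_eq_zero (Finset.mem_univ q) h8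
  rw [← hΨ] at h9
  have h10 := congrArg (fun f : MvPolynomial σ k →+* F => f Ψ) hev
  simp only [RingHom.comp_apply] at h10
  rw [← h10, h9]

/-- The equations `T` can be specialised to `t0`. -/
def Special {F : Type} [Field F] [Algebra k F] (T : Set (MvPolynomial (Tau N δ) (MvPolynomial σ k)))
    (t0 : σ → F) : Prop :=
  ∀ (E : Type) [Field E] [IsAlgClosed E] (O : ValuationSubring E) (φ : MvPolynomial σ k →+* O),
    (∀ Ψ, residue O (φ Ψ) = 0 → ev t0 Ψ = 0) → HasSol ((algebraMap O E).comp φ) T →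
      HasSol ((residue O).comp φ) T

theorem specialT {F : Type} [Field F] [IsAlgClosed F] [Algebra k F]
    (T : Set (MvPolynomial (Tau N δ) (MvPolynomial σ k))) (P' : Ideal (MvPolynomial σ k))
    [P'.IsPrime] {L K : Type} [Field L]
    [Algebra (MvPolynomial σ k ⧸ P') L]
    [IsFractionRing (MvPolynomial σ k ⧸ P') L] [Field K] [IsAlgClosed K] [Algebra L K]
    (h : HasSol ((algebraMap L K).comp ((algebraMap (MvPolynomial σ k ⧸ P') L).comp
      (Ideal.Quotient.mk P'))) T) (t0 : σ → F) (hsp : Special T t0)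
    (ht0 : ∀ Φ ∈ P', ev t0 Φ = 0) :
    HasSol (ev t0 : MvPolynomial σ k →+* F) T := by
  classical
  let e0 : MvPolynomial σ k ⧸ P' →+* F := Ideal.Quotient.lift P' (ev t0) ht0
  have hev : ∀ Ψ, e0 (Ideal.Quotient.mk P' Ψ) = ev t0 Ψ := fun Ψ =>
    Ideal.Quotient.lift_mk P' (ev t0) ht0
  let m' : Ideal (MvPolynomial σ k ⧸ P') := RingHom.ker e0
  have : m'.IsPrime := RingHom.ker_isPrime e0
  let Rm := Localization.AtPrime m'
  let g : MvPolynomial σ k ⧸ P' →+* K := (algebraMap L K).comp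
    (algebraMap (MvPolynomial σ k ⧸ P') L)
  have hg : Function.Injective g := (algebraMap L K).injective.comp
    (IsFractionRing.injective (MvPolynomial σ k ⧸ P') L)
  let f : Rm →+* K := IsLocalization.lift (M := m'.primeCompl) (g := g) (by
    intro y
    rw [isUnit_iff_ne_zero]
    intro h0
    apply y.2
    have h1 : (y : MvPolynomial σ k ⧸ P') = 0 := hg (by rw [h0, map_zero])
    rw [h1]
    exact m'.zero_mem)
  let f0 : Rm →+* F := IsLocalization.lift (M := m'.primeCompl) (g := e0) (by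
    intro y
    rw [isUnit_iff_ne_zero]
    intro h0
    exact y.2 h0)
  have hf0 : ∀ x, f0 (algebraMap _ Rm x) = e0 x := fun x => IsLocalization.lift_eq _ _
  have hloc0 : IsLocalHom f0 := by
    constructor
    intro x hx
    obtain ⟨y, s, rfl⟩ := IsLocalization.exists_mk'_eq m'.primeCompl x
    rw [isUnit_iff_ne_zero] at hx
    have h1 : y ∉ m' := by
      intro hy
      apply hx
      have h2 : f0 (IsLocalization.mk' Rm y s) * f0 (algebraMap (MvPolynomial σ k ⧸ P') Rm s) =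
        f0 (algebraMap (MvPolynomial σ k ⧸ P') Rm y) := by
        rw [← map_mul, IsLocalization.mk'_spec]
      have h3 : e0 y = 0 := hy
      rw [hf0 y, h3, hf0] at h2
      exact (mul_eq_zero.1 h2).resolve_right fun h4 => s.2 h4
    rw [IsLocalization.AtPrime.isUnit_mk'_iff Rm m' y s]
    exact h1
  obtain ⟨O, hO, hloc⟩ := IsLocalRing.exists_factor_valuationRing
    (R := Localization.AtPrime m') (K := K) f
  let φO : Rm →+* O := f.codRestrict O.toSubring hO
  have hlocO : IsLocalHom φO := hloc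
  let φ1 : MvPolynomial σ k →+* Rm := (algebraMap _ Rm).comp (Ideal.Quotient.mk P')
  have hφ : (algebraMap O K).comp (φO.comp φ1) = (algebraMap L K).comp
      ((algebraMap (MvPolynomial σ k ⧸ P') L).comp (Ideal.Quotient.mk P')) := by
    apply RingHom.ext
    intro x
    change f (algebraMap _ _ (Ideal.Quotient.mk P' x)) = g (Ideal.Quotient.mk P' x)
    exact IsLocalization.lift_eq _ _
  let ι : ResidueField Rm →+* ResidueField O := ResidueField.map φO
  let a0 : ResidueField Rm →+* F := ResidueField.lift f0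
  let _ : Algebra (ResidueField Rm) F := a0.toAlgebra
  have hres : (residue O).comp (φO.comp φ1) = ι.comp ((residue Rm).comp φ1) := by
    apply RingHom.ext
    intro Ψ
    rfl
  have hfin2 : (algebraMap (ResidueField Rm) F).comp ((residue Rm).comp φ1) = ev t0 := by
    apply RingHom.ext
    intro Ψ
    change f0 (algebraMap _ Rm (Ideal.Quotient.mk P' Ψ)) = _
    rw [hf0, hev]
  have hker : ∀ Ψ, residue O ((φO.comp φ1) Ψ) = 0 → ev t0 Ψ = 0 := by
    intro Ψ hΨ
    have h1 : ι ((residue Rm).comp φ1 Ψ) = 0 := hΨ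
    have h2 : (residue Rm).comp φ1 Ψ = 0 := ι.injective (by rw [h1, map_zero])
    rw [← hfin2]
    change (algebraMap (ResidueField Rm) F) ((residue Rm).comp φ1 Ψ) = 0
    rw [h2, map_zero]
  have hO' := hsp K O (φO.comp φ1) hker (by rw [hφ]; exact h)
  rw [hres] at hO'
  have hfin := descendT (K := F) _ ι T hO'
  rw [hfin2] at hfin
  exact hfin

/-- **Closedness.** -/
theorem closedT [Finite σ] {K : Type} [Field K] [IsAlgClosed K] [Algebra k K]
    (T : Set (MvPolynomial (Tau N δ) (MvPolynomial σ k))) {t0 : σ → K} (hsp : Special T t0)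
    (h0 : ¬ HasSol (ev t0 : MvPolynomial σ k →+* K) T) :
    ∃ Ψ : MvPolynomial σ k, aeval t0 Ψ ≠ 0 ∧
      ∀ t : σ → K, HasSol (ev t : MvPolynomial σ k →+* K) T → aeval t Ψ = 0 := by
  classical
  by_contra hcon
  push Not at hcon
  have hcon' : ∀ Ψ : MvPolynomial σ k, (∀ t : σ → K, HasSol (ev t : MvPolynomial σ k →+* K) T →
      ev t Ψ = 0) → ev t0 Ψ = 0 := by
    intro Ψ hΨ
    by_contra h
    obtain ⟨t, ht, ht'⟩ := hcon Ψ h
    exact ht' (hΨ t ht)
  set P : Ideal (MvPolynomial σ k) :=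
    vanishingIdeal k {t : σ → K | HasSol (ev t : MvPolynomial σ k →+* K) T} with hP
  have hPm : ∀ Ψ, Ψ ∈ P ↔ ∀ t : σ → K, HasSol (ev t : MvPolynomial σ k →+* K) T →
      ev t Ψ = 0 := by
    intro Ψ
    rw [hP, mem_vanishingIdeal_iff]
    rfl
  have hle : P ≤ RingHom.ker (ev t0 : MvPolynomial σ k →+* K) := fun Ψ hΨ =>
    hcon' Ψ ((hPm Ψ).1 hΨ)
  have hpr : (RingHom.ker (ev t0 : MvPolynomial σ k →+* K)).IsPrime := RingHom.ker_isPrime _
  obtain ⟨P', hP', hP'm⟩ := Ideal.exists_minimalPrimes_le hle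
  have hP'p : P'.IsPrime := hP'.1.1
  have hfin : (P.minimalPrimes).Finite := Ideal.finite_minimalPrimes_of_isNoetherianRing _ P
  -- an element of the other minimal primes
  obtain ⟨g, hg, hg'⟩ : ∃ g : MvPolynomial σ k, g ∉ P' ∧ ∀ Q ∈ P.minimalPrimes, Q ≠ P' → g ∈ Q := by
    have h1 : ∀ Q ∈ P.minimalPrimes, Q ≠ P' → ∃ g ∈ Q, g ∉ P' := by
      intro Q hQ hne
      by_contra h2
      push Not at h2
      exact hne (le_antisymm h2 (hP'.2 hQ.1 h2))
    choose! g hg1 hg2 using h1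
    refine ⟨∏ Q ∈ hfin.toFinset.filter (· ≠ P'), g Q, ?_, ?_⟩
    · intro h
      obtain ⟨Q, hQ, hQ'⟩ := (hP'p.prod_mem_iff).1 h
      rw [Finset.mem_filter, Set.Finite.mem_toFinset] at hQ
      exact hg2 Q hQ.1 hQ.2 hQ'
    · intro Q hQ hne
      have h3 : Q ∈ hfin.toFinset.filter (· ≠ P') := by
        rw [Finset.mem_filter, Set.Finite.mem_toFinset]
        exact ⟨hQ, hne⟩
      rw [← Finset.mul_prod_erase _ _ h3]
      exact Q.mul_mem_right _ (hg1 Q hQ hne)
  have hgen := genericT (F := K) T P' (L := FractionRing (MvPolynomial σ k ⧸ P'))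
    (K := AlgebraicClosure (FractionRing (MvPolynomial σ k ⧸ P'))) (by
      intro Ψ hΨ
      have h1 : g * Ψ ∈ P := by
        rw [hPm]
        intro t ht
        rw [map_mul]
        by_cases hV : ∀ Φ ∈ P', ev t Φ = 0
        · rw [hΨ t ht hV, mul_zero]
        · have hpr' : (RingHom.ker (ev t : MvPolynomial σ k →+* K)).IsPrime :=
            RingHom.ker_isPrime _
          have hle' : P ≤ RingHom.ker (ev t : MvPolynomial σ k →+* K) := fun Φ hΦ =>
            (hPm Φ).1 hΦ t ht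
          obtain ⟨Q, hQ, hQ'⟩ := Ideal.exists_minimalPrimes_le hle'
          have hne : Q ≠ P' := by
            rintro rfl
            exact hV fun Φ hΦ => hQ' hΦ
          have h2 : ev t g = 0 := hQ' (hg' Q hQ hne)
          rw [h2, zero_mul]
      exact (hP'p.mem_or_mem (hP'.1.2 h1)).resolve_left hg)
  exact h0 (specialT T P' hgen t0 hsp fun Φ hΦ => hP'm hΦ)

/-- There is a nonconstant rational curve of degree at most `δ` on the variety of the forms in `S`,
over the field `B`, with the value `x` at `0`. -/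
def HasPt {A B : Type} [CommRing A] [Field B] (φ : A →+* B)
    (S : Set (MvPolynomial (Fin N) A)) (δ : ℕ) (x : Fin N → B) : Prop :=
  ∃ p : Fin N → Polynomial B, NC p ∧ (∀ j, (p j).natDegree ≤ δ) ∧
    (∀ F ∈ S, aeval p (map φ F) = 0) ∧ ∀ j, (p j).eval 0 = x j

/-- the equations for pointed curves -/
def ptEqn {A : Type} [CommRing A] (S : Set (MvPolynomial (Fin N) A)) (δ : ℕ) (x : Fin N → A) :
    Set (MvPolynomial (Tau N δ) A) :=
  {E | ∃ F ∈ S, ∃ m, E = eqn δ F m} ∪ {E | ∃ j, E = X (j, 0) - C (x j)}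

theorem hasPt_iff {A B : Type} [CommRing A] [Field B] [Infinite B] (φ : A →+* B)
    (S : Set (MvPolynomial (Fin N) A)) (δ : ℕ) (x : Fin N → A) :
    HasPt φ S δ (fun j => φ (x j)) ↔ HasSol φ (ptEqn S δ x) := by
  constructor
  · rintro ⟨p, h1, h2, h3, h4⟩
    rw [← eq_curve h2] at h1 h3
    obtain ⟨q, hq⟩ := (NC_iff _).1 h1
    refine ⟨q, fun x => (p x.1).coeff x.2, by rw [eval_mnr]; exact hq, ?_⟩
    rintro E (⟨F, hF, m, rfl⟩ | ⟨j, rfl⟩)
    · rw [eval_eqn, h3 F hF, Polynomial.coeff_zero]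
    · rw [eval₂_sub, eval₂_X, eval₂_C, sub_eq_zero]
      exact (Polynomial.coeff_zero_eq_eval_zero _).trans (h4 j)
  · rintro ⟨q, a, h1, h2⟩
    refine ⟨curve a, (NC_iff a).2 ⟨q, by rwa [eval_mnr] at h1⟩, curve_natDegree a,
      fun F hF => ?_, fun j => ?_⟩
    · ext m
      rw [← eval_eqn, h2 _ (Or.inl ⟨F, hF, m, rfl⟩), Polynomial.coeff_zero]
    · have h3 := h2 _ (Or.inr ⟨j, rfl⟩)
      rw [eval₂_sub, eval₂_X, eval₂_C, sub_eq_zero] at h3
      refine Eq.trans ?_ h3
      rw [← Polynomial.coeff_zero_eq_eval_zero]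
      exact curve_coeff a j 0

theorem special_pt {F : Type} [Field F] [Algebra k F]
    (S : Set (MvPolynomial (Fin N) (MvPolynomial σ k))) (hS : ∀ F ∈ S, ∃ d, F.IsHomogeneous d)
    (δ : ℕ) (x : Fin N → MvPolynomial σ k) {t0 : σ → F} (hx : ∃ j, ev t0 (x j) ≠ 0) :
    Special (ptEqn S δ x) t0 := by
  intro E _ _ O φ hφ h
  have := algClosed_residue O
  have hinf : Infinite (ResidueField O) := IsAlgClosed.instInfinite
  have hinf2 : Infinite E := IsAlgClosed.instInfinite
  rw [← hasPt_iff] at h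
  obtain ⟨p, h1, h2, h3, h4⟩ := h
  obtain ⟨Q, hQ, c, hc, hQ'⟩ := limit_pt O h1 h2 (y := fun j => φ (x j)) (μ := 1) one_ne_zero
    (fun j => by
      rw [one_mul, h4 j]
      rfl) (by
      obtain ⟨j, hj⟩ := hx
      exact ⟨j, fun h0 => hj (hφ _ h0)⟩)
  rw [← hasPt_iff]
  refine ⟨fun j => Polynomial.C c * Q j, ?_, fun j => ?_, fun G hG => ?_, fun j => ?_⟩
  · obtain ⟨s, t, i, j, hne⟩ := hQ.nc
    refine ⟨s, t, i, j, fun h0 => hne ?_⟩
    simp only [Polynomial.eval_mul, Polynomial.eval_C] at h0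
    apply mul_left_cancel₀ (mul_ne_zero hc hc)
    linear_combination h0
  · exact (Polynomial.natDegree_C_mul_le _ _).trans (hQ.deg j)
  · obtain ⟨d, hd⟩ := hS G hG
    have h5 := hQ.forms (map φ G) d (hd.map _) (by
      rw [map_map]
      exact h3 G hG)
    rw [map_map] at h5
    refine forms_of_sub (p := Q) (E := 1) one_ne_zero (fun t _ => ⟨t, c, fun j => ?_⟩) (hd.map _) h5
    rw [Polynomial.eval_mul, Polynomial.eval_C]
  · rw [Polynomial.eval_mul, Polynomial.eval_C]
    exact (hQ' j).symm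

/-- **Closedness for pointed curves.** -/
theorem closed_pt [Finite σ] {K : Type} [Field K] [IsAlgClosed K] [Algebra k K]
    (S : Set (MvPolynomial (Fin N) (MvPolynomial σ k))) (hS : ∀ F ∈ S, ∃ d, F.IsHomogeneous d)
    (δ : ℕ) (x : Fin N → MvPolynomial σ k) {t0 : σ → K} (hx : ∃ j, aeval t0 (x j) ≠ 0)
    (h0 : ¬ HasPt (ev t0 : MvPolynomial σ k →+* K) S δ fun j => aeval t0 (x j)) :
    ∃ Ψ : MvPolynomial σ k, aeval t0 Ψ ≠ 0 ∧
      ∀ t : σ → K, HasPt (ev t : MvPolynomial σ k →+* K) S δ (fun j => aeval t (x j)) →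
        aeval t Ψ = 0 := by
  have hinf2 : Infinite K := IsAlgClosed.instInfinite
  obtain ⟨Ψ, h1, h2⟩ := closedT (ptEqn S δ x) (t0 := t0) (special_pt S hS δ x hx) (by
    rw [← hasPt_iff]
    exact h0)
  refine ⟨Ψ, h1, fun t ht => h2 t ?_⟩
  rw [← hasPt_iff]
  exact ht

end Pool.Agent.Q171.RC
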