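import Pool.Agent.Q171.RC.SeqF

/-!
Points given by iterated recurrences over algebraically closed fields of characteristic zero: all but
a bounded number lie on rational curves of bounded degree.
-/

set_option autoImplicit false

namespace Pool.Agent.Q171.RC

open Filter Set MvPolynomial Pool.Agent.Q1.SL Pool.Agent.Y377.ST Cardinal

theorem onRat_descend' {L k : Type} [Field L] [Field k] [IsAlgClosed k] {n : ℕ} (ι : L →+* k)
    (τ : L →+* ℂ) {S' : Set (MvPolynomial (Fin n) L)} {d : ℕ} {x : Fin n → L}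
    (h : OnRat ((fun F => MvPolynomial.map τ F) '' S') d fun j => τ (x j)) :
    OnRat ((fun F => MvPolynomial.map ι F) '' S') d fun j => ι (x j) := by
  have hinf : Infinite k := IsAlgClosed.instInfinite
  let _ : Algebra L k := ι.toAlgebra
  have h1 : HasPt τ S' d fun j => τ (x j) := by
    obtain ⟨p, h1, h2, h3, h4⟩ := h
    exact ⟨p, h1, h2, fun F hF => h3 _ ⟨F, hF, rfl⟩, h4⟩
  rw [hasPt_iff] at h1
  have h2 : HasSol ((τ : L →+* ℂ).comp (RingHom.id L)) (ptEqn S' d x) := by
    rwa [RingHom.comp_id]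
  have h3 := descendT (K := k) (RingHom.id L) τ _ h2
  rw [RingHom.comp_id] at h3
  have h4 : HasPt (algebraMap L k) S' d fun j => algebraMap L k (x j) := (hasPt_iff _ _ _ _).2 h3
  obtain ⟨p, h5, h6, h7, h8⟩ := h4
  refine ⟨p, h5, h6, ?_, h8⟩
  rintro _ ⟨F, hF, rfl⟩
  exact h7 F hF

/-- different points with a property -/
theorem exists_finP {k : Type} [Field k] {n : ℕ} {Pr : (Fin (n + 1) → k) → Prop} {H : Type}
    {x : H → Fin (n + 1) → k} {B : ℕ}
    (hB : ¬ {P | ∃ (h : H) (h0 : x h ≠ 0), Pr (x h) ∧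
      P = Projectivization.mk k (x h) h0}.encard ≤ (B : ℕ∞)) :
    ∃ hs : Fin (B + 1) → H, (∀ i, x (hs i) ≠ 0) ∧ (∀ i, Pr (x (hs i))) ∧
      ∀ i j, i ≠ j → ∃ u v, x (hs i) u * x (hs j) v ≠ x (hs i) v * x (hs j) u := by
  classical
  have h1 : ((B + 1 : ℕ) : ℕ∞) ≤ {P | ∃ (h : H) (h0 : x h ≠ 0), Pr (x h) ∧
      P = Projectivization.mk k (x h) h0}.encard := by
    rw [Nat.cast_add, Nat.cast_one]
    exact Order.add_one_le_of_lt (not_le.1 hB)
  obtain ⟨t, hts, htc⟩ := Set.exists_subset_encard_eq h1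
  have htf : t.Finite := Set.finite_of_encard_eq_coe htc
  have hcard : htf.toFinset.card = B + 1 := by
    have h2 := htf.encard_eq_coe_toFinset_card
    rw [htc] at h2
    exact_mod_cast h2.symm
  let P : Fin (B + 1) ≃ htf.toFinset := (Finset.equivFinOfCardEq hcard).symm
  have hP : ∀ i : Fin (B + 1), ((P i : htf.toFinset) : Projectivization k (Fin (n + 1) → k)) ∈
      {P | ∃ (h : H) (h0 : x h ≠ 0), Pr (x h) ∧ P = Projectivization.mk k (x h) h0} :=
    fun i => hts (htf.mem_toFinset.1 (P i).2)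
  choose hs h0 hG0 hPe using hP
  refine ⟨hs, h0, hG0, fun i j hij => ?_⟩
  by_contra hcon
  push Not at hcon
  apply hij
  apply P.injective
  apply Subtype.ext
  rw [hPe i, hPe j, Projectivization.mk_eq_mk_iff']
  obtain ⟨v0, hv0⟩ := Function.ne_iff.1 (h0 j)
  have hv0' : x (hs j) v0 ≠ 0 := hv0
  refine ⟨x (hs i) v0 / x (hs j) v0, ?_⟩
  funext u
  rw [Pi.smul_apply, smul_eq_mul]
  have h3 := hcon u v0
  rw [div_mul_eq_mul_div, ← h3, mul_div_assoc, div_self hv0', mul_one]

/-- **Points over algebraically closed fields of characteristic zero.** -/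
theorem rec_field (n D s r e : ℕ) : ∃ δ B : ℕ, ∀ (k : Type) [Field k] [CharZero k] [IsAlgClosed k]
    (S : Set (MvPolynomial (Fin (n + 1)) k)), (∀ F ∈ S, ∃ e, e ≤ D ∧ F.IsHomogeneous e) →
      ∀ (H : Type) [Group H] (x : H → Fin (n + 1) → k), IterVec s r e x →
        (∀ h, ∀ F ∈ S, eval (x h) F = 0) →
        {P | ∃ (h : H) (h0 : x h ≠ 0), ¬ OnRat S δ (x h) ∧
          P = Projectivization.mk k (x h) h0}.encard ≤ (B : ℕ∞) := by
  classical
  obtain ⟨δ, B, hd⟩ := rec_locus n D s r e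
  refine ⟨δ, B, fun k _ _ _ S hS H _ x hx hX => ?_⟩
  by_contra hcon
  obtain ⟨hs, h0, hoff, hcr⟩ := exists_finP (Pr := fun y => ¬ OnRat S δ y) hcon
  obtain ⟨S0, hS0, hS0'⟩ := finite_span S
  let C0 : Set k := ⋃ F ∈ S0, Set.range fun m => coeff m F
  have hC0 : C0.Countable := (S0.countable_toSet).biUnion fun F _ => Set.countable_range _
  let k0 : IntermediateField ℚ k := IntermediateField.adjoin ℚ C0
  have hL : #k0 ≤ ℵ₀ := by
    refine (IntermediateField.cardinalMk_adjoin_le ℚ C0).trans ?_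
    exact max_le (max_le Cardinal.mk_le_aleph0 hC0.le_aleph0) le_rfl
  have hc : Countable k0 := Cardinal.mk_le_aleph0_iff.1 hL
  have hSL : ∀ F ∈ S0, ∀ m, coeff m F ∈ k0.toSubfield := fun F hF m =>
    IntermediateField.subset_adjoin ℚ C0 (Set.mem_biUnion hF ⟨m, rfl⟩)
  let N : Subgroup H := (FreeGroup.lift hs).range
  have hNc : Countable N := (MonoidHom.rangeRestrict_surjective (FreeGroup.lift hs)).countable
  obtain ⟨L, iL, iA, hLc, ι, x', hx', hιx⟩ :=
    Pool.Agent.Q1.SL.descend (k0 := k0) (iterVec_sub hx N)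
  have hcL : CharZero L := RingHom.charZero (ι : L →+* k)
  obtain ⟨τ⟩ := exists_embed L
  -- the equations
  let S' : Set (MvPolynomial (Fin (n + 1)) L) := {F' | MvPolynomial.map (ι : L →+* k) F' ∈ S0}
  have hS' : (fun F => MvPolynomial.map (ι : L →+* k) F) '' S' =
      (S0 : Set (MvPolynomial (Fin (n + 1)) k)) := by
    ext F
    constructor
    · rintro ⟨F', hF', rfl⟩
      exact hF'
    · intro hF
      obtain ⟨F', hF'⟩ := lift_poly k0.toSubfield F (hSL F hF)
      have h1 : MvPolynomial.map (ι : L →+* k) (MvPolynomial.map (algebraMap k0 L) F') = F := by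
        rw [MvPolynomial.map_map]
        have h2 : (ι : L →+* k).comp (algebraMap k0 L) = algebraMap k0 k := ι.comp_algebraMap
        rw [h2]
        exact hF'
      refine ⟨MvPolynomial.map (algebraMap k0 L) F', ?_, h1⟩
      change MvPolynomial.map (ι : L →+* k) _ ∈ S0
      rw [h1]
      exact hF
  have h5 := hd ((fun F => MvPolynomial.map τ F) '' S') (by
    rintro _ ⟨F', hF', rfl⟩
    obtain ⟨e', he', hFe⟩ := hS _ (hS0 hF')
    exact ⟨e', he', (hom_of_map (ι : L →+* k).injective hFe).map _⟩) N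
    (fun h j => τ (x' h j)) (hx'.map τ) (by
    rintro h _ ⟨F', hF', rfl⟩
    have h4 : eval (x' h) F' = 0 := by
      apply (ι : L →+* k).injective
      rw [map_zero, ← eval_mapR]
      have h6 : (fun j => (ι : L →+* k) (x' h j)) = x h := funext fun j => hιx h j
      rw [h6]
      exact hX h _ (hS0 hF')
    beta_reduce
    rw [eval_mapR, h4, map_zero])
  let hs' : Fin (B + 1) → N := fun i => ⟨hs i, FreeGroup.of i, FreeGroup.lift_apply_of⟩
  have hx'e : ∀ i, (fun j => (ι : L →+* k) (x' (hs' i) j)) = x (hs i) := fun i =>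
    funext fun j => hιx (hs' i) j
  have h0' : ∀ i, (fun j => τ (x' (hs' i) j)) ≠ 0 := by
    intro i h6
    apply h0 i
    rw [← hx'e]
    funext j
    have h7 : x' (hs' i) j = 0 := (map_eq_zero τ).1 (congrFun h6 j)
    rw [h7, map_zero]
    rfl
  let f : Fin (B + 1) → Projectivization ℂ (Fin (n + 1) → ℂ) := fun i =>
    Projectivization.mk ℂ (fun j => τ (x' (hs' i) j)) (h0' i)
  have hf : Function.Injective f := by
    intro i j hij
    by_contra hne
    obtain ⟨u, v, huv⟩ := hcr i j hne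
    apply huv
    obtain ⟨c, hc⟩ := (Projectivization.mk_eq_mk_iff' ℂ _ _ (h0' i) (h0' j)).1 hij
    have hcu : ∀ w, τ (x' (hs' i) w) = c * τ (x' (hs' j) w) := by
      intro w
      have h6 := congrFun hc w
      rw [Pi.smul_apply, smul_eq_mul] at h6
      exact h6.symm
    have h7 : x' (hs' i) u * x' (hs' j) v = x' (hs' i) v * x' (hs' j) u := by
      apply τ.injective
      rw [map_mul, map_mul, hcu u, hcu v]
      ring
    have h8 := congrArg (ι : L →+* k) h7
    rw [map_mul, map_mul] at h8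
    have e1 := fun i j => congrFun (hx'e i) j
    beta_reduce at e1
    rwa [e1, e1, e1, e1] at h8
  have hr : Set.range f ⊆ {P | ∃ (h : N) (h0 : (fun j => τ (x' h j)) ≠ 0),
      ¬ OnRat ((fun F => MvPolynomial.map τ F) '' S') δ (fun j => τ (x' h j)) ∧
      P = Projectivization.mk ℂ (fun j => τ (x' h j)) h0} := by
    rintro _ ⟨i, rfl⟩
    refine ⟨hs' i, h0' i, fun h6 => hoff i ?_, rfl⟩
    have h7 := onRat_descend' (ι : L →+* k) τ h6
    rw [hS', hx'e] at h7
    obtain ⟨p, e1, e2, e3, e4⟩ := h7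
    exact ⟨p, e1, e2, hS0' _ p e3, e4⟩
  have h8 := hf.encard_range.trans ((Set.encard_le_encard hr).trans h5)
  rw [ENat.card_eq_coe_fintype_card, Fintype.card_fin] at h8
  have h9 : B + 1 ≤ B := by exact_mod_cast h8
  omega

end Pool.Agent.Q171.RC
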