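import Pool.Agent.Q171.RC.Seq
import Pool.Agent.Q309.DU.Pts
import Pool.Agent.Q1.SL.EmbC

/-!
Sequences of points over algebraically closed fields of characteristic zero: points on rational
curves of bounded degree.
-/

set_option autoImplicit false

namespace Pool.Agent.Q171.RC

open Filter Set MvPolynomial Pool.Agent.Q309.DU Cardinal

/-- a polynomial with coefficients in an intermediate field -/
theorem lift_poly {k : Type} [Field k] {n : ℕ} (L : Subfield k) (F : MvPolynomial (Fin n) k)
    (h : ∀ m, coeff m F ∈ L) : ∃ F' : MvPolynomial (Fin n) L, map L.subtype F' = F := by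
  classical
  refine ⟨∑ m ∈ F.support, monomial m ⟨coeff m F, h m⟩, ?_⟩
  rw [map_sum]
  conv_rhs => rw [F.as_sum]
  refine Finset.sum_congr rfl fun m _ => ?_
  rw [map_monomial]
  rfl

theorem lift_upoly {k : Type} [Field k] (L : Subfield k) (F : Polynomial k)
    (h : ∀ m, F.coeff m ∈ L) : ∃ F' : Polynomial L, F'.map L.subtype = F := by
  classical
  refine ⟨∑ m ∈ F.support, Polynomial.monomial m ⟨F.coeff m, h m⟩, ?_⟩
  rw [Polynomial.map_sum]
  conv_rhs => rw [F.as_sum_support]
  refine Finset.sum_congr rfl fun m _ => ?_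
  rw [Polynomial.map_monomial]
  rfl

theorem eval_mapR {A B : Type} [CommRing A] [CommRing B] (g : A →+* B) {n : ℕ} (x : Fin n → A)
    (F : MvPolynomial (Fin n) A) : eval (fun j => g (x j)) (MvPolynomial.map g F) =
      g (eval x F) := by
  induction F using MvPolynomial.induction_on with
  | C a => simp
  | add p q hp hq => simp only [map_add, hp, hq]
  | mul_X p i hp => simp only [map_mul, hp, map_X, eval_X]

/-- a countable field of definition -/
theorem exists_countable {k : Type} [Field k] [CharZero k] {C0 : Set k} (hC0 : C0.Countable) :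
    ∃ L : Subfield k, C0 ⊆ L ∧ ∃ _ : L →+* ℂ, True := by
  let L0 : IntermediateField ℚ k := IntermediateField.adjoin ℚ C0
  have hL : #L0 ≤ ℵ₀ := by
    refine (IntermediateField.cardinalMk_adjoin_le ℚ C0).trans ?_
    exact max_le (max_le Cardinal.mk_le_aleph0 hC0.le_aleph0) le_rfl
  have hc : Countable L0 := Cardinal.mk_le_aleph0_iff.1 hL
  have h0 : CharZero L0 := inferInstance
  obtain ⟨τ⟩ := Pool.Agent.Q1.SL.exists_embed L0
  exact ⟨L0.toSubfield, fun x hx => IntermediateField.subset_adjoin ℚ C0 hx, τ, trivial⟩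

/-- a point on a rational curve after an embedding in `ℂ` -/
theorem onRat_descend {k : Type} [Field k] [IsAlgClosed k] {n : ℕ} {L : Subfield k} (τ : L →+* ℂ)
    {S' : Set (MvPolynomial (Fin n) L)} {d : ℕ} {x : Fin n → L}
    (h : OnRat ((fun F => map τ F) '' S') d fun j => τ (x j)) :
    OnRat ((fun F => map L.subtype F) '' S') d fun j => (x j : k) := by
  have hinf : Infinite k := IsAlgClosed.instInfinite
  have h1 : HasPt τ S' d fun j => τ (x j) := by
    obtain ⟨p, h1, h2, h3, h4⟩ := h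
    exact ⟨p, h1, h2, fun F hF => h3 _ ⟨F, hF, rfl⟩, h4⟩
  rw [hasPt_iff] at h1
  have h2 : HasSol ((τ : L →+* ℂ).comp (RingHom.id L)) (ptEqn S' d x) := by
    rwa [RingHom.comp_id]
  have h3 := descendT (K := k) (RingHom.id L) τ _ h2
  rw [RingHom.comp_id] at h3
  have h4 : HasPt (algebraMap L k) S' d fun j => algebraMap L k (x j) := (hasPt_iff _ _ _ _).2 h3
  obtain ⟨p, h5, h6, h7, h8⟩ := h4
  refine ⟨p, h5, h6, ?_, h8⟩
  rintro _ ⟨F, hF, rfl⟩
  exact h7 F hF

/-- finitely many equations -/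
theorem finite_span {k : Type} [Field k] {n : ℕ} (S : Set (MvPolynomial (Fin n) k)) :
    ∃ S0 : Finset (MvPolynomial (Fin n) k), (S0 : Set (MvPolynomial (Fin n) k)) ⊆ S ∧
      ∀ (B : Type) [CommRing B] [Algebra k B] (p : Fin n → B),
        (∀ F ∈ S0, aeval p F = 0) → ∀ F ∈ S, aeval p F = 0 := by
  have hfg : (Ideal.span S).FG := IsNoetherian.noetherian _
  obtain ⟨S0, h1, h2⟩ := (Submodule.fg_span_iff_fg_span_finset_subset _).1 hfg
  refine ⟨S0, h1, fun B _ _ p h F hF => ?_⟩
  have h3 : F ∈ Ideal.span (S0 : Set (MvPolynomial (Fin n) k)) := by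
    have h4 : F ∈ Ideal.span S := Ideal.subset_span hF
    unfold Ideal.span at h4 ⊢
    rwa [h2] at h4
  have h5 : Ideal.span (S0 : Set (MvPolynomial (Fin n) k)) ≤
      RingHom.ker (aeval p : MvPolynomial (Fin n) k →ₐ[k] B) := by
    rw [Ideal.span_le]
    intro G hG
    exact h G hG
  exact h5 h3

theorem hom_of_map {A B : Type} [CommRing A] [CommRing B] {f : A →+* B}
    (hf : Function.Injective f) {n : ℕ} {F : MvPolynomial (Fin n) A} {e : ℕ}
    (h : (map f F).IsHomogeneous e) : F.IsHomogeneous e := by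
  intro m hm
  apply h
  rw [coeff_map]
  intro h0
  exact hm (hf (by rw [h0, map_zero]))

/-- **Sequences over algebraically closed fields of characteristic zero.** -/
theorem runs_field (n D r e : ℕ) : ∃ d : ℕ, ∀ (k : Type) [Field k] [CharZero k] [IsAlgClosed k]
    (S : Set (MvPolynomial (Fin (n + 1)) k)), (∀ F ∈ S, ∃ e, e ≤ D ∧ F.IsHomogeneous e) →
      ∀ x : ℕ → Fin (n + 1) → k, DSeq r e d x → (∀ m ≤ d, ∀ F ∈ S, eval (x m) F = 0) →
        (∃ i j, i < j ∧ j ≤ d ∧ ∀ u v, x i u * x j v = x i v * x j u) ∨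
          ∃ m ≤ d, OnRat S d (x m) := by
  classical
  obtain ⟨d, hd⟩ := seq_strong n D r e
  refine ⟨d, fun k _ _ _ S hS x hx hX => ?_⟩
  by_cases hdiff : Diff d x
  swap
  · left
    unfold Diff at hdiff
    push Not at hdiff
    exact hdiff
  right
  obtain ⟨S0, hS0, hS0'⟩ := finite_span S
  obtain ⟨t, α, β, h1, h2, h3⟩ := hx.eqn
  choose P hP0 hPe hPx using h3
  let C0 : Set k := (Set.range fun q : ℕ × Fin (n + 1) => x q.1 q.2) ∪ (Set.range t ∪ {α, β} ∪
    ((Set.range fun q : Fin (n + 1) × ℕ × ℕ => (P q.1 q.2.1).coeff q.2.2) ∪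
      ⋃ F ∈ S0, Set.range fun m => coeff m F))
  have hC0 : C0.Countable := by
    refine Set.Countable.union (Set.countable_range _) (Set.Countable.union
      (Set.Countable.union (Set.countable_range _) ((Set.countable_singleton _).insert _))
      (Set.Countable.union (Set.countable_range _) ?_))
    exact (S0.countable_toSet).biUnion fun F _ => Set.countable_range _
  obtain ⟨L, hL, τ, -⟩ := exists_countable hC0
  have hxL : ∀ m j, x m j ∈ L := fun m j => hL (Or.inl ⟨(m, j), rfl⟩)
  have htL : ∀ m, t m ∈ L := fun m => hL (Or.inr (Or.inl (Or.inl ⟨m, rfl⟩)))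
  have hαL : α ∈ L := hL (Or.inr (Or.inl (Or.inr (Or.inl rfl))))
  have hβL : β ∈ L := hL (Or.inr (Or.inl (Or.inr (Or.inr rfl))))
  have hPL : ∀ j k m, (P j k).coeff m ∈ L := fun j k m =>
    hL (Or.inr (Or.inr (Or.inl ⟨(j, k, m), rfl⟩)))
  have hSL : ∀ F ∈ S0, ∀ m, coeff m F ∈ L := fun F hF m =>
    hL (Or.inr (Or.inr (Or.inr (Set.mem_biUnion hF ⟨m, rfl⟩))))
  choose P' hP' using fun j k => lift_upoly L (P j k) (hPL j k)
  have hinjL : Function.Injective L.subtype := L.subtype.injective
  let S' : Set (MvPolynomial (Fin (n + 1)) L) := {F' | map L.subtype F' ∈ S0}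
  have hS' : (fun F => MvPolynomial.map L.subtype F) '' S' = (S0 : Set (MvPolynomial (Fin (n + 1)) k)) := by
    ext F
    constructor
    · rintro ⟨F', hF', rfl⟩
      exact hF'
    · intro hF
      obtain ⟨F', hF'⟩ := lift_poly L F (hSL F hF)
      exact ⟨F', by change map L.subtype F' ∈ S0; rw [hF']; exact hF, hF'⟩
  let x' : ℕ → Fin (n + 1) → L := fun m j => ⟨x m j, hxL m j⟩
  have hps : PSeq r e ((fun F => map τ F) '' S') d (fun m => τ ⟨t m, htL m⟩)
      (fun m j => τ (x' m j)) := by
    refine ⟨⟨τ ⟨α, hαL⟩, τ ⟨β, hβL⟩, fun m => ?_⟩, fun i j hij hj h4 => ?_, fun m hm h4 => ?_,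
      fun j => ⟨fun k => (P' j k).map τ, ?_, fun k => ?_, fun m hm => ?_⟩, ?_,
      fun i j hij hj => ?_⟩
    · rw [← map_mul, ← map_add]
      congr 1
      exact Subtype.ext (h1 m)
    · apply h2 i j hij hj
      exact congrArg Subtype.val (τ.injective h4)
    · apply hx.ne m hm
      funext j
      have h5 := congrFun h4 j
      have h6 : x' m j = 0 := (map_eq_zero τ).1 h5
      exact congrArg Subtype.val h6
    · obtain ⟨k0, hk0, hPk⟩ := hP0 j
      refine ⟨k0, hk0, ?_⟩
      rw [Ne, Polynomial.map_eq_zero_iff τ.injective]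
      intro h0
      apply hPk
      rw [← hP', h0, Polynomial.map_zero]
    · refine (Polynomial.natDegree_map_le).trans ?_
      have h5 := hPe j k
      rw [← hP', Polynomial.natDegree_map_eq_of_injective hinjL] at h5
      exact h5
    · have h4 : ∑ k ∈ Finset.range (r + 1), (P' j k).eval ⟨t m, htL m⟩ * x' (m + k) j = 0 := by
        apply hinjL
        rw [map_zero, map_sum, ← hPx j m hm]
        refine Finset.sum_congr rfl fun k _ => ?_
        rw [map_mul, ← hP' j k, Polynomial.eval_map, ← Polynomial.eval₂_at_apply]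
        rfl
      have h5 := congrArg τ h4
      rw [map_zero, map_sum] at h5
      rw [← h5]
      refine Finset.sum_congr rfl fun k _ => ?_
      rw [map_mul, Polynomial.eval_map, Polynomial.eval₂_at_apply]
    · rintro m hm _ ⟨F', hF', rfl⟩
      have h4 : eval (x' m) F' = 0 := by
        apply hinjL
        rw [map_zero, ← eval_mapR]
        exact hX m hm _ (hS0 hF')
      beta_reduce
      rw [eval_mapR, h4, map_zero]
    · obtain ⟨u, v, huv⟩ := hdiff i j hij hj
      refine ⟨u, v, fun h4 => huv ?_⟩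
      rw [← map_mul, ← map_mul] at h4
      exact congrArg Subtype.val (τ.injective h4)
  obtain ⟨m, hm, hm'⟩ := hd _ (by
    rintro _ ⟨F', hF', rfl⟩
    obtain ⟨e', he', hFe⟩ := hS _ (hS0 hF')
    exact ⟨e', he', (hom_of_map hinjL hFe).map _⟩) _ _ hps
  have h4 := onRat_descend (k := k) τ hm'
  rw [hS'] at h4
  obtain ⟨p, h5, h6, h7, h8⟩ := h4
  exact ⟨m, hm, p, h5, h6, hS0' _ p h7, h8⟩

end Pool.Agent.Q171.RC
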