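import Pool.Agent.Q171.RC.Bde
import Pool.Agent.Q1.SL.UnifR

/-!
Every nonconstant curve of bounded complexity on a projective variety lies, with ALL its points, on
rational curves of bounded degree, and all but a bounded number of the points of the families given
by iterated recurrences do.
-/

set_option autoImplicit false

namespace Pool.Agent.Q171.RC

open Filter Set MvPolynomial Pool.Agent.Q1.SL Pool.Agent.TH143 Pool.Agent.Y377.EL
  Pool.Agent.Y377.IL Pool.Agent.Y377.ST Pool.Agent.Y377.IR Pool.Agent.H533R3.SL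
  Pool.Agent.TH717.GO

/-- **Uniform degrees of rational curves, for forms of arbitrary degree.** -/
theorem ode_strong_diff (n D s r e : ℕ) : ∃ d : ℕ,
    ∀ (S : Set (MvPolynomial (Fin (n + 1)) ℂ)) (G : MvPolynomial (Fin (n + 1)) ℂ),
      (∀ F ∈ S, ∃ e, e ≤ D ∧ F.IsHomogeneous e) → (∃ e, G.IsHomogeneous e) → RatInG S d G →
      ∀ (K : Type) [Field K] [Algebra ℂ K] (D : Derivation ℂ K K), Cst D →
        ∀ x : Fin (n + 1) → K, DVecF D s r e x → (∀ F ∈ S, aeval x F = 0) →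
        (∃ u v, D (x u) * x v ≠ x u * D (x v)) → aeval x G = 0 := by
  classical
  by_contra hcon
  have hC : ∀ d : ℕ, ∃ (S : Set (MvPolynomial (Fin (n + 1)) ℂ))
      (G : MvPolynomial (Fin (n + 1)) ℂ) (K : Type) (_ : Field K) (_ : Algebra ℂ K)
      (D1 : Derivation ℂ K K) (x : Fin (n + 1) → K),
      (∀ F ∈ S, ∃ e, e ≤ D ∧ F.IsHomogeneous e) ∧ (∃ e, G.IsHomogeneous e) ∧
      RatInG S d G ∧ Cst D1 ∧ DVecF D1 s r e x ∧ (∀ F ∈ S, aeval x F = 0) ∧
        (∃ u v, D1 (x u) * x v ≠ x u * D1 (x v)) ∧ aeval x G ≠ 0 := by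
    intro d
    by_contra h1
    refine hcon ⟨d, ?_⟩
    intro S G h2 h3 h4 K _ _ D1 h5 x h6 h7 h8
    by_contra h9
    exact h1 ⟨S, G, K, _, _, D1, x, h2, h3, h4, h5, h6, h7, h8, h9⟩
  choose S G K iK jK D1 x hS hG hrat hCD hx hF huv hGne using hC
  obtain ⟨K', iK', jK', D', π, θ, hC', hD', hal, hker, hk, hs⟩ := exists_ultra2 D1 hCD
  let x' : Fin (n + 1) → K' := fun j => π fun i => x i j
  have hx' : DVecF D' s r e x' := DVecF.ultra hD' hal hx
  obtain ⟨u, v, huv'⟩ := cross_ultra hD' hker huv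
  obtain ⟨M, j1, j2, q, hq1, hq2⟩ := rat_pointD hC' hx' huv'
  have hev : ∀ (T : Finset (Fin (n + 1) →₀ ℕ)) (F : ℕ → MvPolynomial (Fin (n + 1)) ℂ),
      (∀ᶠ i in (hyperfilter ℕ : Filter ℕ), (F i).support ⊆ T) →
        aeval x' (limT θ T F) = π fun i => aeval (x i) (F i) := fun T F hF =>
    aeval_limT hal hker hF x
  obtain ⟨d0, hd0⟩ := key_proj hs hk hS q (fun F hF' => by
    obtain ⟨e', he', hhe⟩ := exists_deg (D := D) (by
      filter_upwards [hF'] with i hi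
      exact hS i _ hi)
    rw [hq1 _ e' (limT_homog hk hhe), hev _ F (by
      filter_upwards [hhe] with i hi
      exact support_hom hi he'), hker]
    filter_upwards [hF'] with i hi
    exact hF i _ hi) hq2
  have hge : ∀ᶠ i in (hyperfilter ℕ : Filter ℕ), d0 ≤ i := by
    have h1 : ∀ᶠ i : ℕ in cofinite, d0 ≤ i := by
      rw [Nat.cofinite_eq_atTop]
      exact eventually_ge_atTop d0
    exact h1.filter_mono hyperfilter_le_cofinite
  obtain ⟨e0, he0⟩ := bde_field (n + 1) D d0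
  have hmono : ∀ i, d0 ≤ i → RatInG (S i) d0 (G i) := fun i hi p h1 h2 h3 =>
    hrat i p h1 (fun j => (h2 j).trans hi) h3
  have hG' : ∀ i, ∃ G' : MvPolynomial (Fin (n + 1)) ℂ, d0 ≤ i →
      (∃ e, e ≤ e0 ∧ G'.IsHomogeneous e) ∧ RatInG (S i) d0 G' ∧ aeval (x i) G' ≠ 0 := by
    intro i
    by_cases hi : d0 ≤ i
    · obtain ⟨G', h1⟩ := he0 (S i) (hS i) (G i) (hG i) (hmono i hi) (K i) (x i) (hGne i)
      exact ⟨G', fun _ => h1⟩
    · exact ⟨0, fun h => absurd h hi⟩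
  choose G' hG' using hG'
  obtain ⟨e', he', hhe⟩ := exists_deg (F := G') (D := e0) (by
    filter_upwards [hge] with i hi
    exact (hG' i hi).1)
  have h1 := hd0 G' e' hhe (fun h0 => by
    rw [hq1 _ e' (limT_homog hk hhe), hev _ G' (by
      filter_upwards [hhe] with i hi
      exact support_hom hi le_rfl), hker] at h0
    obtain ⟨i, hi, hi'⟩ := (h0.and hge).exists
    exact (hG' i hi').2.2 hi)
  obtain ⟨i, ⟨p, hp1, hp2, hp3, hp4⟩, hi⟩ := (h1.and hge).exists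
  exact hp4 ((hG' i hi).2.1 p hp3 hp1 hp2)

/-- **Curves.** All points of the nonconstant curves of bounded complexity lie on rational curves of
bounded degree. -/
theorem ode_locus (n D s r e : ℕ) : ∃ δ : ℕ, ∀ S : Set (MvPolynomial (Fin (n + 1)) ℂ),
    (∀ F ∈ S, ∃ e, e ≤ D ∧ F.IsHomogeneous e) →
      ∀ Ω : Set ℂ, IsOpen Ω → IsPreconnected Ω → ∀ f : ℂ → Fin (n + 1) → ℂ, DVec Ω s r e f →
        (∀ z ∈ Ω, ∀ F ∈ S, eval (f z) F = 0) →
        (∃ z ∈ Ω, ∃ w ∈ Ω, ∃ i j, f z i * f w j ≠ f z j * f w i) →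
        ∀ z ∈ Ω, f z ≠ 0 → OnRat S δ (f z) := by
  obtain ⟨δ, hδ⟩ := ode_strong_diff n D s r e
  refine ⟨δ, fun S hS Ω hΩ hΩc f hf hfS hnc z hz hfz => ?_⟩
  by_contra hno
  obtain ⟨e0, he0⟩ := bde (n + 1) D δ
  obtain ⟨G, ⟨e1, -, he1⟩, h2, h3⟩ := he0 S hS (f z) hfz hno
  exact h3 (odeIn_of_diff (hδ S G hS ⟨e1, he1⟩ h2) Ω hΩ hΩc f hf hfS hnc z hz)

/-- different points with a property -/
theorem exists_seqP {n : ℕ} {Pr : (Fin (n + 1) → ℂ) → Prop} {H : Type} [Group H]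
    {x : H → Fin (n + 1) → ℂ} {B : ℕ}
    (hB : ¬ {P | ∃ (h : H) (h0 : x h ≠ 0), Pr (x h) ∧
      P = Projectivization.mk ℂ (x h) h0}.encard ≤ (B : ℕ∞)) :
    ∃ hs : ℕ → H, (∀ i, x (hs i) ≠ 0) ∧ (∀ i, Pr (x (hs i))) ∧
      ∀ i j, i ≤ B → j ≤ B → i ≠ j → ∃ u v, x (hs i) u * x (hs j) v ≠ x (hs i) v * x (hs j) u := by
  classical
  have h1 : ((B + 1 : ℕ) : ℕ∞) ≤ {P | ∃ (h : H) (h0 : x h ≠ 0), Pr (x h) ∧
      P = Projectivization.mk ℂ (x h) h0}.encard := by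
    rw [Nat.cast_add, Nat.cast_one]
    exact Order.add_one_le_of_lt (not_le.1 hB)
  obtain ⟨t, hts, htc⟩ := Set.exists_subset_encard_eq h1
  have htf : t.Finite := Set.finite_of_encard_eq_coe htc
  have hcard : htf.toFinset.card = B + 1 := by
    have h2 := htf.encard_eq_coe_toFinset_card
    rw [htc] at h2
    exact_mod_cast h2.symm
  let P : Fin (B + 1) ≃ htf.toFinset := (Finset.equivFinOfCardEq hcard).symm
  have hP : ∀ i : Fin (B + 1), ((P i : htf.toFinset) : Projectivization ℂ (Fin (n + 1) → ℂ)) ∈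
      {P | ∃ (h : H) (h0 : x h ≠ 0), Pr (x h) ∧ P = Projectivization.mk ℂ (x h) h0} :=
    fun i => hts (htf.mem_toFinset.1 (P i).2)
  choose hs0 h0 hG0 hPe using hP
  let c : ℕ → Fin (B + 1) := fun i => if hi : i < B + 1 then ⟨i, hi⟩ else 0
  refine ⟨fun i => hs0 (c i), fun i => h0 (c i), fun i => hG0 (c i), ?_⟩
  intro i j hi hj hij
  have hci : c i = ⟨i, by omega⟩ := dif_pos (by omega)
  have hcj : c j = ⟨j, by omega⟩ := dif_pos (by omega)
  have hcij : c i ≠ c j := by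
    rw [hci, hcj]
    intro h2
    exact hij (Fin.mk.inj_iff.1 h2)
  by_contra hcon
  push Not at hcon
  apply hcij
  apply P.injective
  apply Subtype.ext
  rw [hPe (c i), hPe (c j), Projectivization.mk_eq_mk_iff']
  obtain ⟨v0, hv0⟩ := Function.ne_iff.1 (h0 (c j))
  have hv0' : x (hs0 (c j)) v0 ≠ 0 := hv0
  refine ⟨x (hs0 (c i)) v0 / x (hs0 (c j)) v0, ?_⟩
  funext u
  rw [Pi.smul_apply, smul_eq_mul]
  have h3 := hcon u v0
  rw [div_mul_eq_mul_div, ← h3, mul_div_assoc, div_self hv0', mul_one]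

/-- **Points.** All but a bounded number of the points of families given by iterated recurrences lie
on rational curves of bounded degree. -/
theorem rec_locus (n D s r e : ℕ) : ∃ δ B : ℕ, ∀ S : Set (MvPolynomial (Fin (n + 1)) ℂ),
    (∀ F ∈ S, ∃ e, e ≤ D ∧ F.IsHomogeneous e) →
      ∀ (H : Type) [Group H] (x : H → Fin (n + 1) → ℂ), IterVec s r e x →
        (∀ h, ∀ F ∈ S, eval (x h) F = 0) →
        {P | ∃ (h : H) (h0 : x h ≠ 0), ¬ OnRat S δ (x h) ∧
          P = Projectivization.mk ℂ (x h) h0}.encard ≤ (B : ℕ∞) := by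
  classical
  by_contra hcon
  have hC : ∀ d : ℕ, ∃ (S : Set (MvPolynomial (Fin (n + 1)) ℂ))
      (H : Type) (_ : Group H) (x : H → Fin (n + 1) → ℂ),
      (∀ F ∈ S, ∃ e, e ≤ D ∧ F.IsHomogeneous e) ∧
      IterVec s r e x ∧ (∀ h, ∀ F ∈ S, eval (x h) F = 0) ∧
      ∃ hs : ℕ → H, (∀ i, x (hs i) ≠ 0) ∧ (∀ i, ¬ OnRat S d (x (hs i))) ∧
        ∀ i j, i ≤ d → j ≤ d → i ≠ j →
          ∃ u v, x (hs i) u * x (hs j) v ≠ x (hs i) v * x (hs j) u := by
    intro d
    by_contra h1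
    refine hcon ⟨d, d, ?_⟩
    intro S h2 H _ x h5 h6
    by_contra h7
    exact h1 ⟨S, H, _, x, h2, h5, h6, exists_seqP (Pr := fun y => ¬ OnRat S d y) h7⟩
  choose S Hs iH x hS hx hF hs h0 hoff hnp using hC
  obtain ⟨θ, hsur, hk⟩ := exists_theta
  have hΘ : ∀ f : ℕ → ℂ, (∃ n, ∀ i, n ≤ i → f i = 0) → θ f = 0 := by
    rintro f ⟨N, hN⟩
    rw [hk]
    have h1 : ∀ᶠ i : ℕ in cofinite, N ≤ i := by
      rw [Nat.cofinite_eq_atTop]
      exact eventually_ge_atTop N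
    filter_upwards [h1.filter_mono hyperfilter_le_cofinite] with i hi
    exact hN i hi
  let xs : (∀ i, Hs i) → Fin (n + 1) → ℂ := fun h j => θ fun i => x i (h i) j
  have hxs : IterVec s r e xs := (IterVec.prod hx).map θ
  have key : ∀ (T : Finset (Fin (n + 1) →₀ ℕ)) (F : ℕ → MvPolynomial (Fin (n + 1)) ℂ),
      (∀ᶠ i in (hyperfilter ℕ : Filter ℕ), (F i).support ⊆ T) → ∀ h : ∀ i, Hs i,
        eval (xs h) (limT θ T F) = θ fun i => eval (x i (h i)) (F i) := fun T F hF h =>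
    eval_limT hk hF fun i => x i (h i)
  let a : ℕ → ∀ i, Hs i := fun m i => hs i m
  have hxne : ∀ m, ∃ l, xs (a m) l ≠ 0 := fun m =>
    theta_ne hΘ (fun l i => x i (a m i) l) 0 fun i _ => Function.ne_iff.1 (h0 i m)
  have hcross : ∀ m m', m ≠ m' → ∃ u v, xs (a m) u * xs (a m') v ≠ xs (a m) v * xs (a m') u := by
    intro m m' hmm
    obtain ⟨⟨u, v⟩, h1⟩ := theta_ne hΘ (fun (p : Fin (n + 1) × Fin (n + 1)) i =>
      x i (a m i) p.1 * x i (a m' i) p.2 - x i (a m i) p.2 * x i (a m' i) p.1) (max m m')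
      (fun i hi => by
        obtain ⟨u, v, h1⟩ := hnp i m m' ((le_max_left _ _).trans hi)
          ((le_max_right _ _).trans hi) hmm
        exact ⟨(u, v), sub_ne_zero.2 h1⟩)
    refine ⟨u, v, fun h2 => h1 ?_⟩
    have h3 : (fun i => x i (a m i) u * x i (a m' i) v - x i (a m i) v * x i (a m' i) u) =
        (fun i => x i (a m i) u) * (fun i => x i (a m' i) v) -
          (fun i => x i (a m i) v) * (fun i => x i (a m' i) u) := rfl
    change θ (fun i => x i (a m i) u * x i (a m' i) v - x i (a m i) v * x i (a m' i) u) = 0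
    rw [h3, map_sub, map_mul, map_mul]
    exact sub_eq_zero.2 h2
  obtain ⟨R, hR, hmem⟩ := hxs.tow
  obtain ⟨Nn, hn, hfi, hres⟩ := exists_res fhyp hR
  have hq : Finite ((∀ i, Hs i) ⧸ Nn) := inferInstance
  obtain ⟨m, m', hmm, hmk⟩ := Finite.exists_ne_map_eq_of_infinite
    fun m : ℕ => (QuotientGroup.mk (a m) : (∀ i, Hs i) ⧸ Nn)
  have hco : a m' * (a m)⁻¹ ∈ Nn := hn.mem_comm (QuotientGroup.eq.1 hmk)
  obtain ⟨l, hl⟩ := hxne m
  obtain ⟨u, v, huv⟩ := hcross m m' hmm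
  obtain ⟨K, i1, i2, Γ, ρ, hρ⟩ := hres (a m)
  obtain ⟨M, j1, j2, q, hq1, hq2, i, hq3⟩ := rat_point hmem hρ hl hco huv
  obtain ⟨d0, hd0⟩ := key_proj hsur hk hS q (fun F hF' => by
    obtain ⟨e', he', hhe⟩ := exists_deg (D := D) (by
      filter_upwards [hF'] with i hi
      exact hS i _ hi)
    rw [hq1 _ e' (limT_homog hk hhe)]
    intro g _
    rw [key _ F (by
      filter_upwards [hhe] with i hi
      exact support_hom hi he'), hk]
    filter_upwards [hF'] with i hi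
    exact hF i _ _ hi) ⟨i, l, hq2, hq3⟩
  have hge : ∀ᶠ i in (hyperfilter ℕ : Filter ℕ), d0 ≤ i := by
    have h1 : ∀ᶠ i : ℕ in cofinite, d0 ≤ i := by
      rw [Nat.cofinite_eq_atTop]
      exact eventually_ge_atTop d0
    exact h1.filter_mono hyperfilter_le_cofinite
  obtain ⟨e0, he0⟩ := bde (n + 1) D d0
  have hG' : ∀ i, ∃ G' : MvPolynomial (Fin (n + 1)) ℂ, d0 ≤ i →
      (∃ e, e ≤ e0 ∧ G'.IsHomogeneous e) ∧ RatInG (S i) d0 G' ∧ eval (x i (hs i m)) G' ≠ 0 := by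
    intro i
    by_cases hi : d0 ≤ i
    · obtain ⟨G', h1⟩ := he0 (S i) (hS i) (x i (hs i m)) (h0 i m) (by
        rintro ⟨p, h1, h2, h3⟩
        exact hoff i m ⟨p, h1, fun j => (h2 j).trans hi, h3⟩)
      exact ⟨G', fun _ => h1⟩
    · exact ⟨0, fun h => absurd h hi⟩
  choose G' hG' using hG'
  obtain ⟨e', he', hhe⟩ := exists_deg (F := G') (D := e0) (by
    filter_upwards [hge] with i hi
    exact (hG' i hi).1)
  have h1 := hd0 G' e' hhe (fun h0 => by
    rw [hq1 _ e' (limT_homog hk hhe)] at h0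
    have h2 := h0 1 Nn.one_mem
    rw [one_mul, key _ G' (by
      filter_upwards [hhe] with i hi
      exact support_hom hi le_rfl), hk] at h2
    obtain ⟨i, hi, hi'⟩ := (h2.and hge).exists
    exact (hG' i hi').2.2 hi)
  obtain ⟨i, ⟨p, hp1, hp2, hp3, hp4⟩, hi⟩ := (h1.and hge).exists
  exact hp4 ((hG' i hi).2.1 p hp3 hp1 hp2)

end Pool.Agent.Q171.RC
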