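import Pool.Agent.Q171.RC.Strong
import Pool.Agent.TH182.TC.Core

/-!
Nonconstant holomorphic maps from complex tori of dimension one through every point of a rational
curve.
-/

set_option autoImplicit false

namespace Pool.Agent.Q171.RC

open MvPolynomial Filter Topology Set Pool.Agent.TH182.TC
open scoped LinearAlgebra.Projectivization PeriodPair

/-- The composition of a rational curve with the Weierstrass function. -/
theorem torus_curve {N : ℕ} {ι : Type} (L : PeriodPair) {F : ι → MvPolynomial (Fin (N + 1)) ℂ}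
    (hF : ∀ i, ∃ d, (F i).IsHomogeneous d)
    (P : Fin (N + 1) → Polynomial ℂ) (hP : ∀ t, ∃ j, (P j).eval t ≠ 0)
    (hPF : ∀ t i, eval (fun j => (P j).eval t) (F i) = 0) {d : ℕ}
    (hdj : ∀ j, (P j).natDegree ≤ d) (hlead : ∃ j, (P j).coeff d ≠ 0) (hnc : NC P) :
    ∃ g : ℂ → PS N, Holo g ∧ (∀ z, OnX F (g z)) ∧ (∀ l ∈ L.lattice, ∀ z, g (z + l) = g z) ∧
      (∃ z w, g z ≠ g w) ∧
      (∃ h : (fun j => (P j).coeff d) ≠ 0, g 0 = Projectivization.mk ℂ _ h) ∧
      ∀ z, z ∉ L.lattice → ∃ h : (fun j => (P j).eval (℘[L] z)) ≠ 0,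
        g z = Projectivization.mk ℂ _ h := by
  classical
  let H : ℂ → ℂ → Fin (N + 1) → ℂ := fun s t j => hom d (P j) s t
  have hH : ∀ s t, s ≠ 0 → H s t = s ^ d • fun j => (P j).eval (t / s) := by
    intro s t hs
    funext j
    exact hom_eval (hdj j) hs t
  have hHne : ∀ s t, s ≠ 0 → H s t ≠ 0 := by
    intro s t hs h0
    obtain ⟨j, hj⟩ := hP (t / s)
    have h1 := congrFun h0 j
    rw [hH s t hs] at h1
    exact (mul_ne_zero (pow_ne_zero d hs) hj) h1
  have hH0 : ∀ t, t ≠ 0 → H 0 t ≠ 0 := by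
    intro t ht h0
    obtain ⟨j, hj⟩ := hlead
    have h1 := congrFun h0 j
    change hom d (P j) 0 t = 0 at h1
    rw [hom_zero] at h1
    exact (mul_ne_zero hj (pow_ne_zero d ht)) h1
  have hcont : ∀ t, Continuous fun s => H s t := by
    intro t
    refine continuous_pi fun j => ?_
    change Continuous fun s => ∑ i ∈ Finset.range (d + 1), (P j).coeff i * t ^ i * s ^ (d - i)
    fun_prop
  have hHF : ∀ s t i, eval (H s t) (F i) = 0 := by
    intro s t i
    obtain ⟨e, he⟩ := hF i
    have h1 : ∀ s, s ≠ 0 → eval (H s t) (F i) = 0 := by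
      intro s hs
      rw [hH s t hs, eval_smul_of_homog he, hPF, mul_zero]
    have h2 : Continuous fun s => eval (H s t) (F i) :=
      (MvPolynomial.continuous_eval (F i)).comp (hcont t)
    have h3 : (fun s => eval (H s t) (F i)) = fun _ => 0 :=
      h2.ext_on (dense_compl_singleton (0 : ℂ)) continuous_const (fun s hs => h1 s hs)
    exact congrFun h3 s
  -- the map
  let v : ℂ → Fin (N + 1) → ℂ := fun z => if z ∈ L.lattice then H 0 1 else H 1 (℘[L] z)
  have hv : ∀ z, v z ≠ 0 := by
    intro z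
    simp only [v]
    split_ifs
    · exact hH0 1 one_ne_zero
    · exact hHne _ _ one_ne_zero
  let g : ℂ → PS N := fun z => Projectivization.mk ℂ (v z) (hv z)
  have hgX : ∀ z, OnX F (g z) := by
    intro z
    rw [onX_mk hF]
    intro i
    simp only [v]
    split_ifs <;> exact hHF _ _ _
  have hHan : ∀ (a b : ℂ → ℂ) (z : ℂ), AnalyticAt ℂ a z → AnalyticAt ℂ b z →
      AnalyticAt ℂ (fun w => H (a w) (b w)) z := by
    intro a b z ha hb
    rw [analyticAt_pi_iff]
    intro j
    change AnalyticAt ℂ (fun w => ∑ i ∈ Finset.range (d + 1),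
      (P j).coeff i * b w ^ i * a w ^ (d - i)) z
    apply Finset.analyticAt_fun_sum
    intro i _
    exact (analyticAt_const.fun_mul (hb.fun_pow i)).fun_mul (ha.fun_pow _)
  have hgh : Holo g := by
    intro z
    by_cases hz : z ∈ L.lattice
    · let a : ℂ → ℂ := fun w => (w - z) ^ 2
      let c : ℂ → ℂ := fun w => (w - z) ^ 2 * ℘[L - z] w + 1 - (w - z) ^ 2 / z ^ 2
      have ha : AnalyticAt ℂ a z := by
        change AnalyticAt ℂ (fun w => (w - z) ^ 2) z
        fun_prop
      have hc : AnalyticAt ℂ c z := by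
        have h1 : AnalyticAt ℂ ℘[L - z] z := L.analyticAt_weierstrassPExcept z
        have h2 : AnalyticAt ℂ (fun w : ℂ => (w - z) ^ 2 / z ^ 2) z := by
          have : AnalyticAt ℂ (fun w : ℂ => (w - z) ^ 2 * (z ^ 2)⁻¹) z := by fun_prop
          simpa only [div_eq_mul_inv] using this
        change AnalyticAt ℂ (fun w => (w - z) ^ 2 * ℘[L - z] w + 1 - (w - z) ^ 2 / z ^ 2) z
        fun_prop
      refine ⟨fun w => H (a w) (c w), hHan a c z ha hc, ?_⟩
      filter_upwards [L.compl_lattice_sdiff_singleton_mem_nhds z] with w hw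
      by_cases hwz : w = z
      · subst hwz
        have h1 : a w = 0 := by simp [a]
        have h2 : c w = 1 := by simp [c]
        have h3 : H (a w) (c w) = v w := by
          rw [h1, h2]
          simp only [v, if_pos hz]
        refine ⟨by rw [h3]; exact hv w, ?_⟩
        simp only [g, h3]
      · have hwL : w ∉ L.lattice := fun h => hw ⟨h, hwz⟩
        have h1 : a w ≠ 0 := pow_ne_zero 2 (sub_ne_zero.mpr hwz)
        have h2 : c w = a w * ℘[L] w := by
          have := L.ite_eq_one_sub_sq_mul_weierstrassP z hz w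
          rw [if_neg hwz] at this
          exact this.symm
        have h3 : H (a w) (c w) ≠ 0 := hHne _ _ h1
        refine ⟨h3, ?_⟩
        simp only [g]
        rw [Projectivization.mk_eq_mk_iff']
        refine ⟨(a w ^ d)⁻¹, ?_⟩
        simp only [v, if_neg hwL]
        rw [hH _ _ h1, hH _ _ one_ne_zero, h2, smul_smul, inv_mul_cancel₀ (pow_ne_zero d h1),
          one_pow, div_one, mul_div_cancel_left₀ _ h1]
    · refine ⟨fun w => H 1 (℘[L] w), hHan _ _ z analyticAt_const
        (L.analyticOnNhd_weierstrassP z hz), ?_⟩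
      have hopen : ((L.lattice : Set ℂ)ᶜ) ∈ 𝓝 z := L.isClosed_lattice.isOpen_compl.mem_nhds hz
      filter_upwards [hopen] with w hw
      have h3 : v w = H 1 (℘[L] w) := if_neg hw
      refine ⟨hHne _ _ one_ne_zero, ?_⟩
      simp only [g, h3]
  have hper : ∀ l ∈ L.lattice, ∀ z, g (z + l) = g z := by
    intro l hl z
    have h1 : v (z + l) = v z := by
      simp only [v]
      have h2 : z + l ∈ L.lattice ↔ z ∈ L.lattice := by
        constructor
        · intro h
          have := L.lattice.sub_mem h hl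
          rwa [add_sub_cancel_right] at this
        · intro h
          exact L.lattice.add_mem h hl
      simp only [h2]
      rw [L.weierstrassP_add_coe z ⟨l, hl⟩]
    simp only [g, h1]
  have h3 : ∀ z, z ∉ L.lattice → v z = fun j => (P j).eval (℘[L] z) := by
    intro z hz
    have h4 : v z = H 1 (℘[L] z) := if_neg hz
    rw [h4, hH _ _ one_ne_zero, one_pow, one_smul, div_one]
  refine ⟨g, hgh, hgX, hper, ?_, ?_, ?_⟩
  · by_contra hcon
    push Not at hcon
    obtain ⟨s, t, i, j, hne⟩ := hnc
    apply hne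
    -- all values of P on the values of the Weierstrass function are proportional
    set S : Set ℂ := ℘[L] '' (L.lattice : Set ℂ)ᶜ with hS
    have hSinf : S.Infinite := infinite_range L
    have hSP : ∀ a ∈ S, ∀ b ∈ S, ∀ j k,
        (P j).eval a * (P k).eval b = (P k).eval a * (P j).eval b := by
      rintro _ ⟨z, hz, rfl⟩ _ ⟨w, hw, rfl⟩ j k
      have h1 := hcon z w
      simp only [g] at h1
      rw [mk_eq_mk_iff_minors] at h1
      have h2 := h1 j k
      rw [h3 z hz, h3 w hw] at h2
      exact h2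
    have hpoly : ∀ a ∈ S, Polynomial.C ((P i).eval a) * P j =
        Polynomial.C ((P j).eval a) * P i := by
      intro a ha
      apply Polynomial.eq_of_infinite_eval_eq
      refine hSinf.mono fun b hb => ?_
      simp only [Set.mem_ofPred_eq, Polynomial.eval_mul, Polynomial.eval_C]
      exact hSP a ha b hb i j
    have h5 : Polynomial.C ((P j).eval t) * P i = Polynomial.C ((P i).eval t) * P j := by
      apply Polynomial.eq_of_infinite_eval_eq
      refine hSinf.mono fun a ha => ?_
      simp only [Set.mem_ofPred_eq, Polynomial.eval_mul, Polynomial.eval_C]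
      have := congrArg (Polynomial.eval t) (hpoly a ha)
      simp only [Polynomial.eval_mul, Polynomial.eval_C] at this
      linear_combination this
    have h6 := congrArg (Polynomial.eval s) h5
    simp only [Polynomial.eval_mul, Polynomial.eval_C] at h6
    linear_combination h6
  · have h4 : v 0 = fun j => (P j).coeff d := by
      have h5 : v 0 = H 0 1 := if_pos L.lattice.zero_mem
      rw [h5]
      funext j
      change hom d (P j) 0 1 = _
      rw [hom_zero, one_pow, mul_one]
    refine ⟨by rw [← h4]; exact hv 0, ?_⟩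
    simp only [g, h4]
  · intro z hz
    refine ⟨by rw [← h3 z hz]; exact hv z, ?_⟩
    simp only [g, h3 z hz]

/-- Through every point of a rational curve there is a map from a given torus of dimension one. -/
theorem torus_through {N : ℕ} (L : PeriodPair) {S : Set (MvPolynomial (Fin (N + 1)) ℂ)}
    (hS : ∀ F ∈ S, ∃ d, F.IsHomogeneous d) {δ : ℕ} {x : Fin (N + 1) → ℂ} (hx : x ≠ 0)
    (h : OnRat S δ x) :
    ∃ g : ℂ → PS N, Holo g ∧ (∀ z, OnX (fun F : S => F.1) (g z)) ∧
      (∀ l ∈ L.lattice, ∀ z, g (z + l) = g z) ∧ (∃ z w, g z ≠ g w) ∧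
      g 0 = Projectivization.mk ℂ x hx ∧
      ∃ Q : Fin (N + 1) → Polynomial ℂ, (∀ j, (Q j).natDegree ≤ δ) ∧
        ∀ z, z ∉ L.lattice → ∃ h : (fun j => (Q j).eval (℘[L] z)) ≠ 0,
          g z = Projectivization.mk ℂ _ h := by
  classical
  obtain ⟨p, hp1, hp2, hp3, hp4⟩ := h
  have hp0 : ∃ j, p j ≠ 0 := by
    obtain ⟨s, t, i, j, h⟩ := hp1
    by_contra hcon
    push Not at hcon
    exact h (by rw [hcon i, hcon j])
  obtain ⟨g, q, hg, hq, hqz⟩ := remove_gcd p hp0
  have hqNC : NC q := NC_of_mul hq hp1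
  have hg0 : g.eval 0 ≠ 0 := by
    intro h
    apply hx
    funext j
    rw [← hp4 j, hq j, Polynomial.eval_mul, h, zero_mul]
    rfl
  have hqF : ∀ F ∈ S, aeval q F = 0 := by
    intro F hF
    obtain ⟨d, hd⟩ := hS F hF
    refine forms_of_sub (p := p) (E := g) hg (fun t ht => ⟨t, (g.eval t)⁻¹, fun j => ?_⟩) hd
      (hp3 F hF)
    rw [hq j, Polynomial.eval_mul]
    field_simp
  obtain ⟨j0, hj0⟩ := hp0
  have hqδ : ∀ j, (q j).natDegree ≤ δ := by
    intro j
    by_cases h : q j = 0
    · rw [h, Polynomial.natDegree_zero]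
      exact Nat.zero_le _
    · refine le_trans ?_ (hp2 j)
      rw [hq j, Polynomial.natDegree_mul hg h]
      exact Nat.le_add_left _ _
  set d := Finset.univ.sup fun j => (q j).natDegree with hd
  have hdj : ∀ j, (q j).natDegree ≤ d := fun j =>
    Finset.le_sup (f := fun j => (q j).natDegree) (Finset.mem_univ j)
  have hdδ : d ≤ δ := Finset.sup_le fun j _ => hqδ j
  obtain ⟨j1, -, hj1⟩ := Finset.exists_mem_eq_sup (Finset.univ : Finset (Fin (N + 1)))
    Finset.univ_nonempty (fun j => (q j).natDegree)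
  let Q : Fin (N + 1) → Polynomial ℂ := fun j => Polynomial.reflect d (q j)
  have hQ0 : ∀ j, (Q j).eval 0 = (q j).coeff d := by
    intro j
    rw [← Polynomial.coeff_zero_eq_eval_zero]
    simp only [Q]
    rw [Polynomial.coeff_reflect, Polynomial.revAt_le (Nat.zero_le _), Nat.sub_zero]
  have hQt : ∀ j (t : ℂ), t ≠ 0 → (Q j).eval t = t ^ d * (q j).eval t⁻¹ := by
    intro j t ht
    let _ : Invertible (t⁻¹) := invertibleOfNonzero (inv_ne_zero ht)
    have h1 := Polynomial.eval₂_reflect_mul_pow (RingHom.id _) (t⁻¹) d (q j) (hdj j)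
    rw [invOf_eq_inv, inv_inv, Polynomial.eval₂_id, Polynomial.eval₂_id] at h1
    simp only [Q]
    rw [← h1, inv_pow]
    field_simp
  have hQc : ∀ j, (Q j).coeff d = (q j).eval 0 := by
    intro j
    simp only [Q]
    rw [Polynomial.coeff_reflect, Polynomial.revAt_le le_rfl, Nat.sub_self,
      Polynomial.coeff_zero_eq_eval_zero]
  have hQdeg : ∀ j, (Q j).natDegree ≤ d := fun j =>
    (Polynomial.natDegree_reflect_le).trans (max_le le_rfl (hdj j))
  have hQne : ∀ t, ∃ j, (Q j).eval t ≠ 0 := by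
    intro t
    by_cases ht : t = 0
    · refine ⟨j1, ?_⟩
      rw [ht, hQ0, hd, hj1, Polynomial.coeff_natDegree, Polynomial.leadingCoeff_ne_zero]
      intro h0
      rw [h0, Polynomial.natDegree_zero] at hj1
      obtain ⟨s, t, i, j, hne⟩ := hqNC
      apply hne
      have hc0 : ∀ j, (q j).natDegree = 0 := fun j => by
        have h2 := hdj j
        rw [hd, hj1] at h2
        exact Nat.le_zero.1 h2
      rw [Polynomial.eq_C_of_natDegree_eq_zero (hc0 i),
        Polynomial.eq_C_of_natDegree_eq_zero (hc0 j)]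
      simp only [Polynomial.eval_C]
      ring
    · obtain ⟨j, hj⟩ := hqz t⁻¹
      exact ⟨j, by rw [hQt j t ht]; exact mul_ne_zero (pow_ne_zero _ ht) hj⟩
  have hQNC : NC Q := by
    by_contra hcon
    obtain ⟨j2, hj2⟩ := hQne 0
    obtain ⟨i0, c, -, -, hc⟩ := const_of_not_NC hcon (j0 := j2) (fun h => hj2 (by
      rw [h, Polynomial.eval_zero]))
    obtain ⟨s, t, i, j, hne⟩ := hqNC
    apply hne
    have h1 : ∀ j, q j = Polynomial.C (c j) * q i0 := by
      intro j
      have h2 := hc j
      simp only [Q] at h2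
      rw [← Polynomial.reflect_C_mul] at h2
      have h3 := congrArg (Polynomial.reflect d) h2
      rwa [Polynomial.reflect_reflect, Polynomial.reflect_reflect] at h3
    rw [h1 i, h1 j]
    simp only [Polynomial.eval_mul, Polynomial.eval_C]
    ring
  have hQF : ∀ F ∈ S, aeval Q F = 0 := by
    intro F hF
    obtain ⟨e, he⟩ := hS F hF
    refine forms_of_sub (p := q) (E := Polynomial.X) Polynomial.X_ne_zero (fun t ht =>
      ⟨t⁻¹, t ^ d, fun j => ?_⟩) he (hqF F hF)
    rw [Polynomial.eval_X] at ht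
    exact hQt j t ht
  obtain ⟨G, hG1, hG2, hG3, hG4, ⟨h5, hG5⟩, hG6⟩ := torus_curve L (F := fun F : S => F.1)
    (fun F => hS F.1 F.2) Q hQne (fun t F => by
      rw [← eval_aeval_poly, hQF F.1 F.2, Polynomial.eval_zero]) hQdeg (by
      obtain ⟨j, hj⟩ := hqz 0
      exact ⟨j, by rw [hQc]; exact hj⟩) hQNC
  refine ⟨G, hG1, hG2, hG3, hG4, ?_, Q, fun j => (hQdeg j).trans hdδ, hG6⟩
  rw [hG5, Projectivization.mk_eq_mk_iff']
  refine ⟨(g.eval 0)⁻¹, ?_⟩
  funext j
  rw [Pi.smul_apply, smul_eq_mul, ← hp4 j, hq j, Polynomial.eval_mul, hQc]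
  field_simp

end Pool.Agent.Q171.RC
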